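import Pool.Agent.Lib.MP_b5021c_nt.KO.H71.Nf
import Pool.Agent.Lib.MP_b5021c_nt.B.H65.B5a
import Pool.Agent.Lib.MP_b5021c_nt.B.H17.Vco
import Pool.Agent.Lib.MP_b5021c_nt.E.H61.FacetDraft
import Pool.Agent.Lib.MP_b5021c_nt.H47.Mut

/-!
# MP_b5021c_nt, all `θ`, K odd, leaf O4, `l = 3`: a closed triple after the closing of a neutral ray
-/

set_option linter.unusedSectionVars false

namespace Pool.Agent.B5.KO.H71

open scoped LaurentPolynomial
open Pool.Agent.B5.H17

section

variable {O : Type} [CommRing O] [IsDomain O] [IsPrincipalIdealRing O] [Coef O] {L : Type}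
  [AddCommGroup L] [Module.Free ℤ L] [Module.Finite ℤ L]

/-- A linear functional of a closed element. -/
theorem cl_lin (k : L →+ ℤ) (S : L) (h : k S = 1) (eta : (RO O)ˣ) (G : AO O L)
    (w : Ker k → RO O) :
    ((cl k S h eta G).coeff.sum fun b q => q * w b) =
      ∑ b ∈ G.coeff.support, G.coeff b * ((eta ^ (k b) : (RO O)ˣ) : RO O) * w (prj k S h b) := by
  classical
  have h1 : (cl k S h eta G).coeff = ∑ a ∈ G.coeff.support,
      (Finsupp.single (prj k S h a) (G.coeff a * ((eta ^ (k a) : (RO O)ˣ) : RO O)) :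
        Ker k →₀ RO O) := by
    ext1 b
    rw [H65.cl_coeff, Finsupp.finsetSum_apply]
  rw [h1, ← Finsupp.sum_finsetSum_index (by intro a; rw [zero_mul])
    (by intro a b1 b2; rw [add_mul])]
  refine Finset.sum_congr rfl fun a _ => ?_
  rw [Finsupp.sum_single_index (by rw [zero_mul])]

/-- THE CLOSING OF A NEUTRAL RAY keeps `the exponents of the closing of r are killed by mu`. -/
theorem cl_vco {k : L →+ ℤ} {S : L} (h : k S = 1) (eta e : (RO O)ˣ) (G : AO O L) {r : L}
    (hr : prj k S h r ≠ 0) {mu : L →+ ℤ} (hmS : mu S = 0)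
    (hmu : ∀ a, vco e r G a ≠ 0 → mu a = 0) (x : Ker k)
    (hx : vco (e * eta ^ (-(k r))) (prj k S h r) (cl k S h eta G) x ≠ 0) : mu (x : L) = 0 := by
  classical
  by_contra hne
  apply hx
  have hr0 : r ≠ 0 := by
    rintro rfl
    exact hr (map_zero _)
  have hS0 : S ≠ 0 := by
    rintro rfl
    rw [map_zero] at h
    exact absurd h (by norm_num)
  have hprj : ∀ b : L, ((prj k S h b : Ker k) : L) = b - k b • S := fun b => prj_coe k S h b
  -- the shift `m` of an exponent
  set l : L → ℤ := fun b => if hb : ∃ l : ℤ, prj k S h b = x + l • prj k S h r then hb.choose else 0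
    with hl
  set m : L → ℤ := fun b => k b - l b * k r with hm
  have hlc : ∀ b : L, ∀ l' : ℤ, prj k S h b = x + l' • prj k S h r → l b = l' := by
    intro b l' hb
    have hex : ∃ l : ℤ, prj k S h b = x + l • prj k S h r := ⟨l', hb⟩
    have h1 : l b = hex.choose := by rw [hl]; simp only [dif_pos hex]
    rw [h1]
    exact smul_inj hr (add_left_cancel (hex.choose_spec.symm.trans hb))
  -- rewrite
  rw [vco_eq, cl_lin]
  set M : Finset ℤ := G.coeff.support.image m with hM
  have hW : ∀ b ∈ G.coeff.support, ((eta ^ (k b) : (RO O)ˣ) : RO O) *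
      wt (e * eta ^ (-(k r))) (prj k S h r) x (prj k S h b) =
        ∑ m' ∈ M, ((eta ^ m' : (RO O)ˣ) : RO O) * wt e r ((x : L) + m' • S) b := by
    intro b hb
    by_cases hex : ∃ l' : ℤ, prj k S h b = x + l' • prj k S h r
    · obtain ⟨l', hl'⟩ := hex
      have hlb := hlc b l' hl'
      have hmb : m b = k b - l' * k r := by
        rw [hm]
        simp only [hlb]
      have hbx : b = (x : L) + m b • S + l' • r := by
        have h1 := congrArg (fun y : Ker k => (y : L)) hl'
        simp only [Submodule.coe_add, Submodule.coe_smul, hprj] at h1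
        rw [smul_sub, sub_eq_iff_eq_add] at h1
        calc b = (x : L) + (l' • r - l' • k r • S) + k b • S := h1
          _ = _ := by rw [hmb, sub_smul, mul_smul]; abel
      obtain ⟨mb, hmb'⟩ : ∃ mb, mb = m b := ⟨_, rfl⟩
      rw [← hmb'] at hbx hmb
      rw [hl', wt_of _ hr]
      rw [Finset.sum_eq_single mb]
      · have h5 : wt e r ((x : L) + mb • S) b = ((e ^ l' : (RO O)ˣ) : RO O) := by
          rw [hbx, wt_of _ hr0]
        rw [h5, ← Units.val_mul, ← Units.val_mul]
        congr 1
        rw [mul_zpow, ← zpow_mul, hmb, mul_left_comm, ← zpow_add, mul_comm]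
        congr 2
        ring
      · intro m' _ hne'
        rw [wt_zero, mul_zero]
        rintro ⟨l'', hl''⟩
        apply hne'
        have h1 : prj k S h b = x + l'' • prj k S h r := by
          rw [hl'']
          apply Subtype.ext
          have hkx : k (x : L) = 0 := x.2
          rw [hprj, Submodule.coe_add, Submodule.coe_smul, hprj, map_add, map_add, map_zsmul,
            map_zsmul, h, hkx, smul_sub, smul_smul]
          simp only [smul_eq_mul, mul_one, zero_add, add_smul]
          abel
        have h2 : l'' = l' := by rw [← hlc b l'' h1, hlb]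
        subst h2
        have h3 : m' • S = mb • S := by
          have h4 := hl''.symm.trans hbx
          exact add_left_cancel (add_right_cancel h4)
        exact smul_inj hS0 h3
      · intro hnot
        rw [hmb'] at hnot
        exact absurd (Finset.mem_image_of_mem m hb) hnot
    · rw [wt_zero _ hex, mul_zero]
      symm
      refine Finset.sum_eq_zero fun m' _ => ?_
      rw [wt_zero, mul_zero]
      rintro ⟨l'', hl''⟩
      apply hex
      refine ⟨l'', ?_⟩
      rw [hl'']
      apply Subtype.ext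
      have hkx : k (x : L) = 0 := x.2
      rw [hprj, Submodule.coe_add, Submodule.coe_smul, hprj, map_add, map_add, map_zsmul,
        map_zsmul, h, hkx, smul_sub, smul_smul]
      simp only [smul_eq_mul, mul_one, zero_add, add_smul]
      abel
  have h1 : ∑ b ∈ G.coeff.support, G.coeff b * ((eta ^ (k b) : (RO O)ˣ) : RO O) *
      wt (e * eta ^ (-(k r))) (prj k S h r) x (prj k S h b) =
      ∑ m' ∈ M, ((eta ^ m' : (RO O)ˣ) : RO O) * vco e r G ((x : L) + m' • S) := by
    have h2 : ∀ m' : ℤ, vco e r G ((x : L) + m' • S) =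
        ∑ b ∈ G.coeff.support, G.coeff b * wt e r ((x : L) + m' • S) b := fun m' => vco_eq _ _ _ _
    simp only [h2, Finset.mul_sum]
    rw [Finset.sum_comm]
    refine Finset.sum_congr rfl fun b hb => ?_
    rw [mul_assoc, hW b hb, Finset.mul_sum]
    refine Finset.sum_congr rfl fun m' _ => ?_
    ring
  rw [h1]
  refine Finset.sum_eq_zero fun m' _ => ?_
  have h3 : vco e r G ((x : L) + m' • S) = 0 := by
    by_contra h4
    have h5 := hmu _ h4
    rw [map_add, map_zsmul, hmS, smul_zero, add_zero] at h5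
    exact hne h5
  rw [h3, mul_zero]

end

section

variable {O : Type} [CommRing O] [IsDomain O] [IsPrincipalIdealRing O] [Coef O] {P : Type}
  [Fintype P] [DecidableEq P] {L : Type} [AddCommGroup L] [Module.Free ℤ L] [Module.Finite ℤ L]

/-- An exponent of a closed element comes from an exponent. -/
theorem cl_supp {k : L →+ ℤ} {S : L} (h : k S = 1) (eta : (RO O)ˣ) {G : AO O L} {a : Ker k}
    (ha : a ∈ supp (cl k S h eta G)) : ∃ b ∈ supp G, prj k S h b = a := by
  classical
  have h1 : (cl k S h eta G).coeff a ≠ 0 := ha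
  rw [H65.cl_coeff] at h1
  obtain ⟨b, hb, hne⟩ := Finset.exists_ne_zero_of_sum_ne_zero h1
  refine ⟨b, Finsupp.mem_support_iff.mp hb, ?_⟩
  by_contra hcon
  rw [Finsupp.single_apply, if_neg hcon] at hne
  exact hne rfl

/-- A functional which vanishes on `S` and on the exponents of `V_S` vanishes on `U_S`. -/
theorem us_zeroO {S : L} {e : (RO O)ˣ} {D : AO O L} {nu : L →+ ℤ} (h0 : nu S = 0)
    (h : ∀ a, vco e S D a ≠ 0 → nu a = 0) : ∀ a ∈ US e S D, nu a = 0 := by
  intro a ha
  obtain ⟨n, hn, hm⟩ := ha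
  have h1 : Submodule.span ℤ (insert S {a : L | vco e S D a ≠ 0}) ≤
      LinearMap.ker nu.toIntLinearMap := by
    rw [Submodule.span_le]
    rintro x (rfl | hx)
    · exact h0
    · exact h x hx
  have h2 : nu (n • a) = 0 := h1 hm
  rw [map_zsmul, smul_eq_mul] at h2
  exact (mul_eq_zero.mp h2).resolve_left hn

theorem vco_mem {S : L} {e : (RO O)ˣ} {D : AO O L} {a : L} (ha : vco e S D a ≠ 0) :
    a ∈ US e S D :=
  ⟨1, one_ne_zero, by
    rw [one_smul]
    exact Submodule.subset_span (Set.mem_insert_of_mem _ ha)⟩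

variable {phi : L →+ (P → ℤ)} {G : AO O L} {r : ZMod 3 → L} {e : ZMod 3 → (RO O)ˣ}
  {mu : ZMod 3 → L →+ ℤ}

/-- A CLOSED TRIPLE AFTER THE CLOSING OF A NEUTRAL EXPONENT `S` (any load). -/
theorem Tri.close (h : Tri phi G r e mu) {S : L} {i0 : P} (hS : co phi i0 S = 1)
    (hmu : ∀ i, mu i S = 0) (eta : (RO O)ˣ) :
    Tri (phO phi S i0) (cl (co phi i0) S hS eta G) (fun i => prj (co phi i0) S hS (r i))
      (fun i => e i * eta ^ (-(co phi i0 (r i)))) (fun i => (mu i).comp (incl (Ker (co phi i0)))) := by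
  have hc : ∀ b : L, ((prj (co phi i0) S hS b : Ker (co phi i0)) : L) = b - co phi i0 b • S :=
    fun b => prj_coe _ _ _ b
  have hm : ∀ i (b : L), ((mu i).comp (incl (Ker (co phi i0)))) (prj (co phi i0) S hS b) =
      mu i b := by
    intro i b
    change mu i ((prj (co phi i0) S hS b : Ker (co phi i0)) : L) = _
    rw [hc, map_sub, map_zsmul, hmu, smul_zero, sub_zero]
  have hph : ∀ (b : L) (q : P), (phO phi S i0 (prj (co phi i0) S hS b)) q =
      if phi S q = 0 then phi b q else 0 := by
    intro b q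
    change (if phi S q = 0 then phi ((prj (co phi i0) S hS b : Ker (co phi i0)) : L) q else 0) = _
    by_cases hq : phi S q = 0
    · rw [if_pos hq, if_pos hq, hc, map_sub, map_zsmul, Pi.sub_apply, Pi.smul_apply, hq, smul_zero,
        sub_zero]
    · rw [if_neg hq, if_neg hq]
  refine ⟨fun i q => ?_, fun i j hij q => ?_, fun i => ?_, fun i => ?_, fun i => ?_, fun a => ?_,
    fun i => ?_, fun i a ha => ?_⟩
  · rw [hph]
    by_cases hq : phi S q = 0
    · rw [if_pos hq]
      exact h.bin i q
    · rw [if_neg hq]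
      exact Or.inl rfl
  · rw [hph, hph]
    by_cases hq : phi S q = 0
    · rw [if_pos hq, if_pos hq]
      exact h.dis i j hij q
    · rw [if_neg hq]
      exact Or.inl rfl
  · rw [hm]; exact h.slf i
  · rw [hm]; exact h.nxt i
  · rw [hm]; exact h.prv i
  · exact h.sum (a : L)
  · refine us_zeroO (by rw [hm]; exact h.slf i) ?_
    intro a ha
    refine cl_vco hS eta (e i) G ?_ (hmu i) (fun b hb => h.us i b (vco_mem hb)) a ha
    intro h0
    have h1 := hm (i - 1) (r i)
    rw [h0, map_zero, h.nxt'] at h1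
    exact absurd h1 (by norm_num)
  · obtain ⟨b, hb, rfl⟩ := cl_supp hS eta ha
    rw [hm]
    exact h.val i b hb

theorem cst_co (c : RO O) (G : AO O L) (a : L) : (cst c * G).coeff a = c * G.coeff a := by
  unfold cst
  rw [AddMonoidAlgebra.coeff_single_zero_mul]

theorem cst_supp {c : RO O} (hc : c ≠ 0) (G : AO O L) : supp (cst c * G) = supp G := by
  ext a
  change (cst c * G).coeff a ≠ 0 ↔ G.coeff a ≠ 0
  rw [cst_co]
  exact ⟨fun h h0 => h (by rw [h0, mul_zero]), fun h => mul_ne_zero hc h⟩

theorem cst_vco {c : RO O} (hc : c ≠ 0) (e : (RO O)ˣ) (S : L) (G : AO O L) (a : L) :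
    vco e S (cst c * G) a = c * vco e S G a := by
  rw [vco_eq, vco_eq, Finsupp.sum, Finsupp.sum, Finset.mul_sum]
  have h1 : (cst c * G).coeff.support = G.coeff.support := by
    ext b
    rw [Finsupp.mem_support_iff, Finsupp.mem_support_iff]
    exact Set.ext_iff.mp (cst_supp hc G) b
  rw [h1]
  refine Finset.sum_congr rfl fun b _ => ?_
  rw [cst_co]
  ring

theorem cst_US {c : RO O} (hc : c ≠ 0) (e : (RO O)ˣ) (S : L) (G : AO O L) :
    US e S (cst c * G) = US e S G := by
  unfold US
  congr 3
  ext a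
  change vco e S (cst c * G) a ≠ 0 ↔ vco e S G a ≠ 0
  rw [cst_vco hc]
  exact ⟨fun h h0 => h (by rw [h0, mul_zero]), fun h => mul_ne_zero hc h⟩

/-- A closed triple of a multiple. -/
theorem Tri.cst_iff {c : RO O} (hc : c ≠ 0) : Tri phi (cst c * G) r e mu ↔ Tri phi G r e mu := by
  constructor
  · intro h
    refine ⟨h.bin, h.dis, h.slf, h.nxt, h.prv, h.sum, fun i a ha => h.us i a ?_,
      fun i a ha => h.val i a ?_⟩
    · rw [cst_US hc]; exact ha
    · rw [cst_supp hc]; exact ha
  · intro h
    refine ⟨h.bin, h.dis, h.slf, h.nxt, h.prv, h.sum, fun i a ha => h.us i a ?_,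
      fun i a ha => h.val i a ?_⟩
    · rw [cst_US hc] at ha; exact ha
    · rw [cst_supp hc] at ha; exact ha

end

section

variable {P : Type} [Fintype P] [DecidableEq P] {L : Type} [AddCommGroup L] [Module.Free ℤ L]
  [Module.Finite ℤ L]

/-- A 3-cycle is a closed triple (`sum` holds because the rays have full rank). -/
theorem Cyc.tri {O : Type} [CommRing O] [IsDomain O] [IsPrincipalIdealRing O] [Coef O]
    {phi : L →+ (P → ℤ)} {D : AO O L} {eta : L → (RO O)ˣ} {C : ZMod 3 → L}
    {mu : ZMod 3 → L →+ ℤ} (hD : DD phi D) (hray : rk {b | Ray D b} = Module.finrank ℤ L)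
    (h : Cyc phi D eta 0 C mu) : Tri phi D C (fun i => eta (C i)) mu := by
  have hslf : ∀ i, mu i (C i) = 0 := fun i => (h.ker i (C i)).mp (H47.S_mem _ _ _)
  have hprv : ∀ i, mu i (C (i - 1)) = -1 := h.prv
  refine ⟨fun i => hD.bin _ (h.mtl i).r0.1, h.dis, hslf, h.nxt, hprv, ?_,
    fun i a ha => (h.ker i a).mp ha, h.val⟩
  -- the sum vanishes on the rays
  set nu : L →+ ℤ := mu 0 + mu 1 + mu 2 with hnu
  have hR : ∀ T, Ray D T → nu T = 0 := by
    intro T hT
    have hv : nu T = mu 0 T + mu 1 T + mu 2 T := rfl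
    by_cases h0 : T = C 0
    · subst h0
      have a1 : mu 1 (C 0) = -1 := by have := hprv 1; rwa [show (1 : ZMod 3) - 1 = 0 by decide] at this
      have a2 : mu 2 (C 0) = 1 := by
        have := h.nxt 2
        rwa [show (2 : ZMod (0 + 3)) + 1 = 0 by decide] at this
      rw [hv, a1, a2, hslf 0]; norm_num
    by_cases h1 : T = C 1
    · subst h1
      have a1 : mu 0 (C 1) = 1 := by
        have := h.nxt 0
        rwa [show (0 : ZMod (0 + 3)) + 1 = 1 by decide] at this
      have a2 : mu 2 (C 1) = -1 := by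
        have := hprv 2
        rwa [show (2 : ZMod 3) - 1 = 1 by decide] at this
      rw [hv, a1, a2, hslf 1]; norm_num
    by_cases h2 : T = C 2
    · subst h2
      have a1 : mu 1 (C 2) = 1 := by
        have := h.nxt 1
        rwa [show (1 : ZMod (0 + 3)) + 1 = 2 by decide] at this
      have a2 : mu 0 (C 2) = -1 := by
        have := hprv 0
        rwa [show (0 : ZMod 3) - 1 = 2 by decide] at this
      rw [hv, a1, a2, hslf 2]; norm_num
    have key : ∀ i : ZMod 3, mu i T = 0 := by
      intro i
      have hne : ∀ j : ZMod 3, T ≠ C j := by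
        intro j
        rcases z3v j with rfl | rfl | rfl
        · exact h0
        · exact h1
        · exact h2
      exact h.oth i T hT (hne (i + 1)) (hne (i - 1))
    rw [hv, key 0, key 1, key 2]; norm_num
  have h0 : nu = 0 := by
    have h1 : Submodule.span ℤ {b | Ray D b} ≤ LinearMap.ker nu.toIntLinearMap := by
      rw [Submodule.span_le]
      intro b hb
      exact hR b hb
    have h2 : Module.finrank ℤ L ≤ Module.finrank ℤ (LinearMap.ker nu.toIntLinearMap) := by
      rw [← hray]
      exact Submodule.finrank_mono h1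
    have h3 := Submodule.finrank_quotient_add_finrank (LinearMap.ker nu.toIntLinearMap)
    have h3' : Module.finrank ℤ (L ⧸ LinearMap.ker nu.toIntLinearMap) =
        Module.finrank ℤ (LinearMap.range nu.toIntLinearMap) :=
      LinearEquiv.finrank_eq (LinearMap.quotKerEquivRange nu.toIntLinearMap)
    have h4 : Module.finrank ℤ (LinearMap.range nu.toIntLinearMap) = 0 := by omega
    have h5 : LinearMap.range nu.toIntLinearMap = ⊥ := Submodule.finrank_eq_zero.mp h4
    ext x
    have h6 : nu.toIntLinearMap x ∈ LinearMap.range nu.toIntLinearMap := ⟨x, rfl⟩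
    rw [h5] at h6
    exact h6
  intro a
  have := DFunLike.congr_fun h0 a
  exact this

end

end Pool.Agent.B5.KO.H71
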