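import Pool.Agent.Lib.MP_b5021c_nt.KO.H71.Sf5
import Pool.Agent.Lib.MP_b5021c_nt.KO.H57.T2w

/-!
# MP_b5021c_nt, all `θ`, K odd, leaf O4, `l = 3`, row SF in helper57's form: `Nsm` or `TerC`
-/

set_option linter.unusedSectionVars false

namespace Pool.Agent.B5.KO.H71

open scoped LaurentPolynomial
open AddMonoidAlgebra (single)
open Pool.Agent.MP_b5021c_nt (Eis)
open Pool.Agent.MP_b5021c_nt.Ire (bc)
open Pool.Agent.B5.H25.Bch
open Pool.Agent.B5.BP90 (Et)

section

variable {O : Type} [CommRing O] [IsDomain O] [IsPrincipalIdealRing O] [Coef O] {P : Type}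
  [Fintype P] [DecidableEq P] {L : Type} [AddCommGroup L] [Module.Free ℤ L] [Module.Finite ℤ L]
  {phi : L →+ (P → ℤ)} {G : AO O L} {r : ZMod 3 → L} {e : ZMod 3 → (RO O)ˣ}
  {mu : ZMod 3 → L →+ ℤ}

/-- The reflection of the index. -/
def sw (i : ZMod 3) : ZMod 3 := 1 - i

theorem sw_sw (i : ZMod 3) : sw (sw i) = i := by revert i; decide
theorem sw_p (i : ZMod 3) : sw (i + 1) = sw i - 1 := by revert i; decide
theorem sw_m (i : ZMod 3) : sw (i - 1) = sw i + 1 := by revert i; decide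
theorem sw_0 : sw 0 = 1 := by decide
theorem sw_1 : sw 1 = 0 := by decide
theorem sw_2 : sw 2 = 2 := by decide

/-- The triple in the opposite order. -/
theorem Tri.swap (h : Tri phi G r e mu) :
    Tri phi G (fun i => r (sw i)) (fun i => e (sw i)) (fun i => -mu (sw i)) := by
  refine ⟨fun i => h.bin _, fun i j hij => h.dis _ _ fun h1 => hij ?_, fun i => ?_, fun i => ?_,
    fun i => ?_, fun a => ?_, fun i a ha => ?_, fun i a ha => ?_⟩
  · rw [← sw_sw i, h1, sw_sw]
  · change -(mu (sw i) (r (sw i))) = 0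
    rw [h.slf, neg_zero]
  · change -(mu (sw i) (r (sw (i + 1)))) = 1
    rw [sw_p, h.prv, neg_neg]
  · change -(mu (sw i) (r (sw (i - 1)))) = -1
    rw [sw_m, h.nxt]
  · change -(mu (sw 0) a) + -(mu (sw 1) a) + -(mu (sw 2) a) = 0
    rw [sw_0, sw_1, sw_2]
    have := h.sum a
    linarith
  · change -(mu (sw i) a) = 0
    rw [h.us (sw i) a ha, neg_zero]
  · change -(mu (sw i) a) = 0 ∨ -(mu (sw i) a) = 1 ∨ -(mu (sw i) a) = -1
    rcases h.val (sw i) a ha with h1 | h1 | h1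
    · left; rw [h1, neg_zero]
    · right; right; rw [h1]
    · right; left; rw [h1, neg_neg]

theorem fr_swap {u : L} : Fr phi (fun i => r (sw i)) (fun i => -mu (sw i)) u ↔ Fr phi r mu u := by
  constructor
  · rintro ⟨h1, h2⟩
    refine ⟨fun i q => ?_, fun i => ?_⟩
    · have h3 : phi u q = 0 ∨ phi (r (sw (sw i))) q = 0 := h1 (sw i) q
      rwa [sw_sw] at h3
    · have h3 : -(mu (sw (sw i)) u) = 0 := h2 (sw i)
      rw [sw_sw] at h3
      exact neg_eq_zero.mp h3
  · rintro ⟨h1, h2⟩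
    refine ⟨fun i q => h1 _ q, fun i => ?_⟩
    change -(mu (sw i) u) = 0
    rw [h2, neg_zero]

end

section

variable {P : Type} [Fintype P] [DecidableEq P] {L : Type} [AddCommGroup L] [Module.Free ℤ L]
  [Module.Finite ℤ L] {phi : L →+ (P → ℤ)} {G : AO ℤ L} {r : ZMod 3 → L} {e : ZMod 3 → (RO ℤ)ˣ}
  {mu : ZMod 3 → L →+ ℤ}

theorem X3_swap : X3 (fun i => r (sw i)) = X3 r := by
  change r (sw 0) + r (sw 1) + r (sw 2) = r 0 + r 1 + r 2
  rw [sw_0, sw_1, sw_2, add_comm (r 1)]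

theorem eI_swap : eI (fun i => e (sw i)) = eI e := by
  change (e (sw 0) * e (sw 1) * e (sw 2))⁻¹ = (e 0 * e 1 * e 2)⁻¹
  rw [sw_0, sw_1, sw_2, mul_comm (e 1) (e 0)]

/-- (TERMINAL) does not depend on the order. -/
theorem Tri.ter_swap (h : Tri phi G r e mu) (hF1 : F1S) (hD : DD phi G)
    (ht : TerC phi G (fun i => r (sw i)) (fun i => e (sw i)) (fun i => -mu (sw i))) :
    TerC phi G r e mu := by
  refine ⟨fun a ha hma => ?_, fun u hu => ?_⟩
  · have h1 := ht.ex a ha (fun i => by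
      change -(mu (sw i) a) = 0
      rw [hma, neg_zero])
    rw [X3_swap, fr_swap, fr_swap] at h1
    exact h1
  · have h1 := ht.co u (fr_swap.mpr hu)
    rw [X3_swap, eI_swap] at h1
    have h2 : bB G (fun i => r (sw i)) (fun i => e (sw i)) u = bB G r e u := by
      change (e (sw 0) : RO ℤ) * G.coeff (u + r (sw 0)) = (e 0 : RO ℤ) * G.coeff (u + r 0)
      rw [sw_0]
      exact h.all_eq hF1 hD.inj hD.bin hu 1 0
    rw [h2] at h1
    exact h1

/-- (TERMINAL) in helper57's form. -/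
theorem TerC.to57 (ht : TerC phi G r e mu) : KO57.TerC phi G r e mu := by
  have hX : ∀ u : L, u + r 2 + r 0 + r 1 = u + X3 r := fun u => by unfold X3; abel
  refine ⟨fun u hu => ?_, fun b hb hmb => ?_⟩
  · have h1 := ht.co u hu
    have h2 := eI_mul e
    rw [hX, h1]
    unfold bB
    linear_combination (G.coeff u + 3 * ((e 0 : RO ℤ) * G.coeff (u + r 0))) * h2
  · rcases ht.ex b hb hmb with h1 | h1
    · exact Or.inl h1
    · right
      exact ⟨b - X3 r, h1, by rw [hX, sub_add_cancel]⟩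

theorem TerC.of57 (ht : KO57.TerC phi G r e mu) : TerC phi G r e mu := by
  have hX : ∀ u : L, u + r 2 + r 0 + r 1 = u + X3 r := fun u => by unfold X3; abel
  refine ⟨fun b hb hmb => ?_, fun u hu => ?_⟩
  · rcases ht.2 b hb hmb with h1 | ⟨u, hu, h1⟩
    · exact Or.inl h1
    · right
      rw [h1, hX, add_sub_cancel_right]
      exact hu
  · have h1 := ht.1 u hu
    have h2 := eI_mul e
    rw [hX] at h1
    unfold bB
    rw [← h1]
    linear_combination -G.coeff (u + X3 r) * h2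

/-- (SF) NO SMALL FACTOR OR TERMINAL. -/
theorem Tri.nsm_or (hF1 : F1S) (hU : UnitAS) (hUR : UnitRS) (hRk : RkS) (hSm : SmallS)
    (h : Tri phi G r e mu) (hD : DD phi G) (h5 : 5 ≤ Module.finrank ℤ L)
    (hray : ∀ i, Ray G (r i)) : KO57.Nsm phi G r e ∨ KO57.TerC phi G r e mu := by
  by_cases ht : TerC phi G r e mu
  · exact Or.inr ht.to57
  left
  intro i0 i1 et k0 k1 h0 R1' h1 c0 H c n F he hk0 hk1 hR1 hc0 hH fd
  rcases h.swap.sfc hF1 hU hUR hRk hSm hD h5 (hray _).1 (hray _).1 he hk0 hk1 (i0 := i0)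
    (i1 := i1) (h0 := h0) hR1 (h1 := h1) hH fd with h2 | h2
  · exact absurd (h.ter_swap hF1 hD h2) ht
  · exact h2

end

end Pool.Agent.B5.KO.H71
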