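import Pool.Agent.Lib.MP_b5021c_nt.KO.H71.Cv
import Pool.Agent.Lib.MP_b5021c_nt.KO.H71.Sf6
import Pool.Agent.Lib.MP_b5021c_nt.KO.H13.Mov
import Pool.Agent.Lib.MP_b5021c_nt.KO.H96.Red2
import Pool.Agent.Lib.MP_b5021c_nt.KO.H90.M1f
import Pool.Agent.Lib.MP_b5021c_nt.KO.H40.PxD
import Pool.Agent.Lib.MP_b5021c_nt.KO.H29.Dbl

/-!
# MP_b5021c_nt, all `θ`, K odd, leaf O4, ALPHA, row R4: the second cycle in `V''`
-/

set_option linter.unusedSectionVars false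

namespace Pool.Agent.B5.KO.H71

open scoped LaurentPolynomial
open Polynomial
open Pool.Agent.B5.KO57 Pool.Agent.B5.KO67
open Pool.Agent.B5.KE
open Pool.Agent.B5.KV67 (TT1 tA_val)
open Pool.Agent.B5.KO.H96 (Alp)

section

variable {P : Type} [Fintype P] [DecidableEq P] {L : Type} [AddCommGroup L] [Module.Free ℤ L]
  [Module.Finite ℤ L] {phi : L →+ (P → ℤ)} {D : AO ℤ L}
  {q f f' : ℤ[X]} {a : ℝ} {j k : ℕ} {eta : L → (RO ℤ)ˣ}

theorem cyc_sf {Z : ZMod (k + 3) → L} {mu : ZMod (k + 3) → L →+ ℤ} (h : Cyc phi D eta k Z mu)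
    (i : ZMod (k + 3)) : mu i (Z i) = 0 := (h.ker i _).mp (H47.S_mem (eta (Z i)) (Z i) D)

/-- The pair `Z i`, `Z (i + 1)` beside the second cycle. -/
theorem prr_a (hE2 : E2S) {Z : ZMod (k + 3) → L} {mu : ZMod (k + 3) → L →+ ℤ}
    {Z' : ZMod 3 → L} {mu' : ZMod 3 → L →+ ℤ} (A : Alp phi D q f f' a j eta k 0 Z mu Z' mu')
    (i : ZMod (k + 3)) :
    Prr phi D (Z i) (Z (i + 1)) Z' (fun l => eta (Z' l)) mu' (mu (i + 1)) (-mu i) := by
  have ne01 : i ≠ i + 1 := KO29.ne_succ i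
  refine ⟨(A.c.mtl i).r0, (A.c.mtl i).r1, A.c.dis i (i + 1) ne01, KO.H96.Alp.tri' hE2 A,
    fun l => (A.c'.mtl l).r0, fun l => A.z' i l, fun l => A.z' (i + 1) l, ?_,
    cyc_sf A.c (i + 1), fun l => A.z (i + 1) l, ?_, ?_, ?_, ?_, ?_, ?_⟩
  · have h := A.c.prv (i + 1)
    rwa [add_sub_cancel_right] at h
  · rw [AddMonoidHom.neg_apply, A.c.nxt]
  · rw [AddMonoidHom.neg_apply, cyc_sf A.c, neg_zero]
  · intro l
    rw [AddMonoidHom.neg_apply, A.z, neg_zero]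
  · intro T hT hne
    by_cases h : T = Z (i + 1 + 1)
    · rw [h, A.c.nxt]
      norm_num
    · rw [A.c.oth (i + 1) T hT h (by rw [add_sub_cancel_right]; exact hne)]
  · intro T hT hne
    rw [AddMonoidHom.neg_apply]
    by_cases h : T = Z (i - 1)
    · rw [h, A.c.prv]
      norm_num
    · rw [A.c.oth i T hT hne h, neg_zero]
  · exact fun l T hT h1 h2 => A.c'.oth l T hT h1 h2

/-- The pair `Z (i + 1)`, `Z i` beside the second cycle. -/
theorem prr_m (hE2 : E2S) {Z : ZMod (k + 3) → L} {mu : ZMod (k + 3) → L →+ ℤ}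
    {Z' : ZMod 3 → L} {mu' : ZMod 3 → L →+ ℤ} (A : Alp phi D q f f' a j eta k 0 Z mu Z' mu')
    (i : ZMod (k + 3)) :
    Prr phi D (Z (i + 1)) (Z i) Z' (fun l => eta (Z' l)) mu' (-mu i) (mu (i + 1)) := by
  have h := prr_a hE2 A i
  exact ⟨h.r1, h.r0, fun p => (h.dis p).symm, h.tri, h.ray, h.m1, h.m0, h.n11, h.n10, h.n1z,
    h.n00, h.n01, h.n0z, h.p1, h.p0, h.oth⟩

/-- The class of a ray in `U_S`, `U_(S1)` in the double closing. -/
theorem blk_val (hF1 : F1S) (hD : DD phi D) {S S1 R : L} {t0 t1 : (RO ℤ)ˣ} (ht : O4X.Lds t0 t1)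
    (hM : Mut D S S1 (eta S) (eta S1)) (dis : ∀ i, phi S i = 0 ∨ phi S1 i = 0)
    (ho : Out phi S S1 R) (u0 : R ∈ US (eta S) S D) (u1 : R ∈ US (eta S1) S1 D) :
    O4X.blk D S S1 (eta S * t0) (eta S1 * t1) R = D.coeff R +
      (1 + LaurentPolynomial.T 1 - LaurentPolynomial.T (-1)) *
        ((eta S : RO ℤ) * D.coeff (R + S)) := by
  have hS := hF1 ℤ P L phi D S (eta S) hD.inj hD.bin (hD.bin S hM.r0.1) hM.r0.2.1
  have hS1 := hF1 ℤ P L phi D S1 (eta S1) hD.inj hD.bin (hD.bin S1 hM.r1.1) hM.r1.2.1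
  have a0 : R + S ∉ US (eta S1) S1 D := fun h => hM.m1 (by
    have := Submodule.sub_mem _ h u1
    rwa [add_sub_cancel_left] at this)
  have a1 : R + S1 ∉ US (eta S) S D := fun h => hM.m0 (by
    have := Submodule.sub_mem _ h u0
    rwa [add_sub_cancel_left] at this)
  have e0 := (hS1 _ a0).2 (fun i => by
    rw [map_add, Pi.add_apply]
    rcases dis i with h | h
    · rw [h, add_zero]
      exact (ho i).imp id And.right
    · exact Or.inr h)
  have e1 := (hS _ a1).2 (fun i => by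
    rw [map_add, Pi.add_apply]
    rcases dis i with h | h
    · exact Or.inr h
    · rw [h, add_zero]
      exact (ho i).imp id And.left)
  rw [show R + S1 + S = R + S + S1 by abel] at e1
  unfold O4X.blk
  unfold O4X.Lds at ht
  rw [Units.val_mul, Units.val_mul]
  linear_combination ((eta S : RO ℤ) * (eta S1 : RO ℤ) * D.coeff (R + S + S1)) * ht +
    (((t0 : RO ℤ) - (1 + LaurentPolynomial.T 1 - LaurentPolynomial.T (-1))) * (eta S : RO ℤ)) * e0 +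
    ((t1 : RO ℤ) * (eta S1 : RO ℤ)) * e1

/-- The constant coefficient of the double closing. -/
theorem blk_zero (hMco : McoS) (hD : DD phi D) {S S1 : L} {t0 t1 : (RO ℤ)ˣ} (ht : O4X.Lds t0 t1)
    (hM : Mut D S S1 (eta S) (eta S1)) :
    O4X.blk D S S1 (eta S * t0) (eta S1 * t1) 0 = D.coeff 0 +
      (1 + LaurentPolynomial.T 1 - LaurentPolynomial.T (-1)) *
        ((eta S : RO ℤ) * D.coeff S) := by
  obtain ⟨-, h1, h2, -⟩ := hMco ℤ P L phi D S S1 (eta S) (eta S1) hD.inj hD.bin hM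
  unfold O4X.blk
  unfold O4X.Lds at ht
  rw [Units.val_mul, Units.val_mul, zero_add, zero_add]
  linear_combination (-((eta S : RO ℤ) * D.coeff S)) * ht + (t1 : RO ℤ) * h1 +
    ((t0 : RO ℤ) * (t1 : RO ℤ)) * h2

end

section

/-- The order of `u'`. -/
theorem u_ord {p G A B : ℤ[X]} {x gr : RO ℤ} (hB : B.coeff 0 = 1) (hp : p.coeff 0 ≠ 0)
    (hG : G.coeff 0 ≠ 0) (hx : x = toLaurent (X * A) + toLaurent B * gr)
    (h : toLaurent p * x = toLaurent G)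
    (hg : gr = 0 ∨ ∃ (s : ℤˣ) (m : ℤ) (g : ℤ[X]), g.coeff 0 = 1 ∧
      gr = LaurentPolynomial.C (s : ℤ) * LaurentPolynomial.T m * toLaurent g) :
    ∃ (s : ℤˣ) (g : ℤ[X]), g.coeff 0 = 1 ∧ gr = LaurentPolynomial.C (s : ℤ) * toLaurent g ∧
      G.coeff 0 = p.coeff 0 * s := by
  rcases hg with hg | ⟨s, m, g, hg0, hg⟩
  · exfalso
    apply hG
    rw [hx, hg, mul_zero, add_zero, ← map_mul] at h
    rw [← toLaurent_injective h]
    simp
  · rcases lt_trichotomy m 0 with hm | hm | hm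
    · exfalso
      obtain ⟨b, hb⟩ := Int.eq_ofNat_of_zero_le (show 0 ≤ -m by omega)
      have hb1 : b ≠ 0 := by
        rintro rfl
        simp at hb
        omega
      have e1 : (LaurentPolynomial.T 1 ^ b * LaurentPolynomial.T m : RO ℤ) = 1 := by
        rw [LaurentPolynomial.T_pow, ← LaurentPolynomial.T_add, ← LaurentPolynomial.T_zero]
        congr 1
        have : ((b : ℕ) : ℤ) = -m := hb.symm
        rw [mul_one, this]
        ring
      have h1 : (toLaurent (p * (X ^ (b + 1) * A + C (s : ℤ) * B * g)) : RO ℤ) =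
          toLaurent (X ^ b * G) := by
        rw [map_mul toLaurent (X ^ b), ← h, hx, hg]
        simp only [map_mul, map_add, map_pow, toLaurent_X, toLaurent_C]
        linear_combination (-(toLaurent p * toLaurent B * LaurentPolynomial.C (s : ℤ) *
          toLaurent g) : RO ℤ) * e1
      have h2 := congrArg (fun y : ℤ[X] => y.coeff 0) (toLaurent_injective h1)
      simp only [mul_coeff_zero, coeff_add, coeff_X_pow, coeff_C_zero, hB, hg0, mul_one] at h2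
      rw [if_neg (by omega), if_neg (by omega), zero_mul, zero_mul, zero_add] at h2
      rcases mul_eq_zero.mp h2 with h3 | h3
      · exact hp h3
      · exact s.ne_zero h3
    · subst hm
      rw [LaurentPolynomial.T_zero, mul_one] at hg
      refine ⟨s, g, hg0, hg, ?_⟩
      have h1 : (toLaurent (p * (X * A + C (s : ℤ) * B * g)) : RO ℤ) = toLaurent G := by
        rw [← h, hx, hg]
        simp only [map_mul, map_add, toLaurent_X, toLaurent_C]
        ring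
      rw [← toLaurent_injective h1]
      simp only [mul_coeff_zero, coeff_add, coeff_X_zero, coeff_C_zero, hB, hg0, mul_one,
        zero_mul, zero_add]
    · exfalso
      obtain ⟨b, hb⟩ := Int.eq_ofNat_of_zero_le (show 0 ≤ m - 1 by omega)
      have e1 : (LaurentPolynomial.T m : RO ℤ) = LaurentPolynomial.T 1 ^ (b + 1) := by
        rw [LaurentPolynomial.T_pow]
        congr 1
        have : ((b : ℕ) : ℤ) = m - 1 := hb.symm
        rw [mul_one]
        push_cast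
        rw [this]
        ring
      apply hG
      have h1 : (toLaurent (p * (X * A + C (s : ℤ) * X ^ (b + 1) * B * g)) : RO ℤ) =
          toLaurent G := by
        rw [← h, hx, hg, e1]
        simp only [map_mul, map_add, map_pow, toLaurent_X, toLaurent_C]
        ring
      rw [← toLaurent_injective h1]
      simp [mul_coeff_zero, coeff_add]

/-- The normal form of an element of class `V(N)` with a positive lead. -/
theorem cv_nf {N : ℕ} {x : RO ℤ} (h : ClassV (N : ℝ) x) : ∃ (w : (RO ℤ)ˣ) (p : ℤ[X]),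
    (w : RO ℤ) * x = toLaurent p ∧ p.coeff 0 = N := by
  obtain ⟨n, p, hp, h1, -, -⟩ := H78.classV_nf h
  obtain ⟨v, hv⟩ := LaurentPolynomial.isUnit_T (R := ℤ) (-n)
  have h2 : (v : RO ℤ) * x = toLaurent p := by
    rw [hv, hp, ← mul_assoc, ← LaurentPolynomial.T_add, neg_add_cancel,
      LaurentPolynomial.T_zero, one_mul]
  have h3 : p.coeff 0 = N ∨ p.coeff 0 = -N := by
    have : |p.coeff 0| = (N : ℤ) := by exact_mod_cast h1
    exact (abs_eq (by omega : (0 : ℤ) ≤ N)).mp this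
  rcases h3 with h3 | h3
  · exact ⟨v, p, h2, h3⟩
  · refine ⟨-v, -p, ?_, ?_⟩
    · rw [Units.val_neg, neg_mul, h2, map_neg]
    · rw [coeff_neg, h3, neg_neg]

variable {Q : Type} [Fintype Q] [DecidableEq Q] {K : Type} [AddCommGroup K] [Module.Free ℤ K]
  [Module.Finite ℤ K] {psi : K →+ (Q → ℤ)} {H : AO ℤ K} {r : ZMod 3 → K}
  {e : ZMod 3 → (RO ℤ)ˣ} {mu : ZMod 3 → K →+ ℤ}

/-- (R4) A CLOSED TRIPLE IN `V'' = c H`: the order of `u'` is zero, and `H` is terminal, or z-free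
with `H_0 = j`, `H_r = ± 1` up to a unit. -/
theorem r4_core (hG1 : G1pS) (hR : ResWDS) (hRS : ResStS) (hEv : EvS) (hEvm : EvmS)
    (hFcl : FclS) (hCno : Cno.CnoS) (hMfc : MfcS) (hMp : MpaS)
    (hFD : FDS) (hE2 : E2S) (hVZ : VZS) (hU : UnitRS) (hMV : MVS)
    (hE1 : E1S) (hM1 : M1S) (hMm : MmulS) (hG0 : G0S) (hC0 : Coeff0S) (hW : WWfS)
    (hRF : RayFacS) (hQst : QstS) (hQra : QraS) (hMin : MinS) (hB5 : B5aS) (hRk : RkS)
    (hKm : KmuS) (hQc : Qc3S) (hDv : Dv3S) (hNd : Nd3vS) (hLMN : LMNS) (hUS : RkUSS)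
    (hD2 : D2S) (hF1 : F1S) (hF2 : F2S) (hMco : McoS) (hSm : SmallS) (hEvz : EvzS)
    (hKvx : KvxS) (hUA : UnitAS)
    (T : Tri psi H r e mu) (hD : DD psi H) (hray : ∀ i, Ray H (r i)) (him : ImT psi r) {j : ℕ}
    (hj : 3 ≤ j) (hr : Module.finrank ℤ K + 1 = 2 * j) (hcv : ClassV (j : ℝ) (H.coeff 0))
    {c : RO ℤ} (hc : c ≠ 0) {Vh : ℤ[X]} (hV0 : Vh.coeff 0 = j)
    (h0 : c * H.coeff 0 = -toLaurent (X * Vh)) {u' gr : RO ℤ} {A B : ℤ[X]}
    (hu : (e 0 : RO ℤ) * (c * H.coeff (r 0)) = LaurentPolynomial.T 1 * u')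
    (hB : B.coeff 0 = 1) (hx : u' = toLaurent (X * A) + toLaurent B * gr)
    (hg : gr = 0 ∨ ∃ (s : ℤˣ) (m : ℤ) (g : ℤ[X]), g.coeff 0 = 1 ∧
      gr = LaurentPolynomial.C (s : ℤ) * LaurentPolynomial.T m * toLaurent g) :
    ∃ (s : ℤˣ) (g : ℤ[X]), g.coeff 0 = 1 ∧ gr = LaurentPolynomial.C (s : ℤ) * toLaurent g ∧
      (KO57.TerC psi H r e mu ∨ (ZFree H ∧ toLaurent Vh = LaurentPolynomial.C ((s : ℤ) * j) * u' ∧
        ∃ w : (RO ℤ)ˣ, (w : RO ℤ) * H.coeff 0 = toLaurent (C (j : ℤ)) ∧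
          ∀ l, (w : RO ℤ) * ((e l : RO ℤ) * H.coeff (r l)) = -LaurentPolynomial.C (s : ℤ))) := by
  obtain ⟨w, p, hp, hp0⟩ := cv_nf hcv
  have hj0 : (j : ℤ) ≠ 0 := by omega
  have hw := w.ne_zero
  have hpne : p.coeff 0 ≠ 0 := by rw [hp0]; exact hj0
  have hT1 : (LaurentPolynomial.T 1 : RO ℤ) ≠ 0 := (LaurentPolynomial.isUnit_T _).ne_zero
  have hcp : c * toLaurent p = -((w : RO ℤ) * (LaurentPolynomial.T 1 * toLaurent Vh)) := by
    rw [map_mul, toLaurent_X] at h0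
    linear_combination (w : RO ℤ) * h0 - c * hp
  have hnr : 5 ≤ Module.finrank ℤ K := by omega
  have fr0 : Fr psi r mu 0 := by
    refine ⟨fun i q => Or.inl ?_, fun i => map_zero _⟩
    rw [map_zero]
    rfl
  have hall : ∀ l, (e l : RO ℤ) * H.coeff (r l) = (e 0 : RO ℤ) * H.coeff (r 0) := by
    intro l
    have h2 := T.all_eq hF1 hD.inj hD.bin fr0 0 l
    rw [zero_add, zero_add] at h2
    rw [h2]
  -- the value with a given coefficient
  have key : ∀ {y : ℤ[X]}, (w : RO ℤ) * ((e 0 : RO ℤ) * H.coeff (r 0)) = -toLaurent y →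
      toLaurent p * u' = toLaurent (Vh * y) := by
    intro y hy
    have h1 : c * (-toLaurent y) = (w : RO ℤ) * (LaurentPolynomial.T 1 * u') := by
      rw [← hy, ← hu]
      ring
    have h2 : ((w : RO ℤ) * LaurentPolynomial.T 1 * c) * (toLaurent p * u') =
        ((w : RO ℤ) * LaurentPolynomial.T 1 * c) * toLaurent (Vh * y) := by
      rw [map_mul]
      linear_combination (-(c * toLaurent p)) * h1 - (c * toLaurent y) * hcp
    exact mul_left_cancel₀ (mul_ne_zero (mul_ne_zero hw hT1) hc) h2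
  rcases KO90.m1 hF1 hMin hC0 hW hG0 hRk hKm hFD hE1 hMV hSm hEvz hKvx hE2 hVZ hU hM1 hMfc T hD
      hray him hj hr hcv hp hp0 with ⟨g, hgr, hg1⟩ | ⟨hpC, hgr, hz⟩
  · -- order zero
    have hk := key hgr
    have hVg : (Vh * g).coeff 0 ≠ 0 := by
      rw [mul_coeff_zero, hV0]
      exact mul_ne_zero hj0 (by omega)
    obtain ⟨s, g', hg'0, hg', hs⟩ := u_ord hB hpne hVg hx hk hg
    rw [mul_coeff_zero, hV0, hp0] at hs
    have hs1 : g.coeff 0 = s := mul_left_cancel₀ hj0 hs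
    have hs2 : s = 1 := by
      rcases Int.units_eq_one_or s with h1 | h1
      · exact h1
      · rw [h1, Units.val_neg, Units.val_one] at hs1
        omega
    subst hs2
    rw [Units.val_one] at hs1
    refine ⟨1, g', hg'0, hg', ?_⟩
    rcases Tri.nsm_or hF1 hUA hU hRk hSm T hD hnr hray with hns | hter
    · rcases tri_t2 hG1 hR hRS hEv hEvm hFcl hCno hMfc hMp hFD hE2 hVZ hU hMV hE1 hM1 hMm hG0 hC0
        hW hRF hQst hQra hMin hB5 hRk hKm hQc hDv hNd hLMN hUS hD2 hF1 hF2 hMco T hD hray him hj hr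
        hcv hp hp0 hgr hs1 hns with hter | ⟨hpC, hgg, hz⟩
      · exact Or.inl hter
      · right
        refine ⟨hz, ?_, w, by rw [hp, hpC], fun l => ?_⟩
        · rw [hgg, mul_one, hpC, toLaurent_C] at hk
          rw [Units.val_one, one_mul, hk]
        · rw [hall, hgr, hgg, map_one, Units.val_one, map_one]
    · exact Or.inl hter
  · -- the value `-1`
    have hgr' : (w : RO ℤ) * ((e 0 : RO ℤ) * H.coeff (r 0)) = -toLaurent (-1 : ℤ[X]) := by
      rw [hgr, map_neg, map_one, neg_neg]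
    have hk := key hgr'
    have hVg : (Vh * (-1 : ℤ[X])).coeff 0 ≠ 0 := by
      rw [mul_coeff_zero, hV0]
      exact mul_ne_zero hj0 (by simp)
    obtain ⟨s, g', hg'0, hg', hs⟩ := u_ord hB hpne hVg hx hk hg
    rw [mul_coeff_zero, hV0, hp0] at hs
    have hs1 : (-1 : ℤ) = s := by
      have h1 := mul_left_cancel₀ hj0 hs
      rw [← h1]
      simp
    have hs2 : s = -1 := by
      rcases Int.units_eq_one_or s with h1 | h1
      · rw [h1, Units.val_one] at hs1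
        omega
      · exact h1
    subst hs2
    refine ⟨-1, g', hg'0, hg', Or.inr ⟨hz, ?_, w, by rw [hp, hpC], fun l => ?_⟩⟩
    · rw [hpC, toLaurent_C, map_mul, map_neg, map_one] at hk
      rw [Units.val_neg, Units.val_one, neg_one_mul, map_neg]
      linear_combination hk
    · rw [hall, hgr, Units.val_neg, Units.val_one, map_neg, map_one, neg_neg]

end

section

variable {P L : Type} [Fintype P] [DecidableEq P] [AddCommGroup L] [Module.Free ℤ L]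
  [Module.Finite ℤ L] {phi : L →+ (P → ℤ)} {D : AO ℤ L} {q f f' : ℤ[X]} {a : ℝ} {j : ℕ}
  {eta : L → (RO ℤ)ˣ} {k : ℕ} {Z : ZMod (k + 3) → L} {mu : ZMod (k + 3) → L →+ ℤ}
  {Z' : ZMod 3 → L} {mu' : ZMod 3 → L →+ ℤ}

/-- The coefficient of `V''` at a ray of the second cycle is not zero (PX). -/
theorem alp_v_ne (hM1 : M1S) (hMm : MmulS) (hMV : MVS) (hE1 : E1S) (hE2 : E2S) (hPc : PCZS)
    (hClp : ClpS) (hC0 : Coeff0S) (hG0 : G0S) (hI1 : Inj1S) (hRk : RkS) (hFD : FDS)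
    (hWW : WWfS) (hRF : RayFacS) (hMug : MugS) (hMco : McoS) (hCu : H61.CuspS) (hSf : SfzS)
    (hTr : Nr.TrezS) (hTsa : TsaS) (hI3 : Io3S) (hMfc : MfcS) (hCa : Ca5S) (hGlc : GlcS)
    (hFou : FouS) (hDti : DtiS) (hNbr : NbrS) (hF1 : F1S) (hF2 : F2S) (hKm : KmuS)
    (hFsp : FspS) (hVco : VcoS) (hRy : RaySpanS) (hVf : KvfS) (hVv : KvvS) (hT : TsgS)
    (hNd : Nd3vS) (hNr : Nr3S) (hB : BpS)
    (A : Alp phi D q f f' a j eta k 0 Z mu Z' mu') (i : ZMod (k + 3)) (l : ZMod 3)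
    (d0 : ∀ p, phi (Z i) p = 0 ∨ phi (Z' l) p = 0)
    (d1 : ∀ p, phi (Z (i + 1)) p = 0 ∨ phi (Z' l) p = 0) (Y : Dp phi (Z i) (Z (i + 1)))
    {x : Ker Y.k1} (hx : ((x : Ker (co phi Y.i0)) : L) = Z' l) :
    (dc Y (eta (Z i) * tA) (eta (Z (i + 1)) * tC) D).coeff x ≠ 0 := by
  intro h0
  have hD := A.w.ko.min.fp.dd
  have dis : ∀ p, phi (Z i) p = 0 ∨ phi (Z (i + 1)) p = 0 := A.c.dis i (i + 1) (KO29.ne_succ i)
  have hb : O4X.blk D (Z i) (Z (i + 1)) (eta (Z i) * tA) (eta (Z (i + 1)) * tC) (Z' l) = 0 := by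
    rw [← h0, E4.dc_coeff hD.bin dis, H47.dco, hx]
    rfl
  have ho : Out phi (Z i) (Z (i + 1)) (Z' l) := by
    intro p
    rcases d0 p with h1 | h1
    · rcases d1 p with h2 | h2
      · exact Or.inr ⟨h1, h2⟩
      · exact Or.inl h2
    · exact Or.inl h1
  obtain ⟨r, hr⟩ := O4X.t00_blk hF1 hD O4X.lds_AC (A.c.mtl i) dis ho (A.c'.mtl l).r0
    (A.nu i l _) (A.nu (i + 1) l _) hb
  exact KO.H40.px_comp hM1 hMm hMV hE1 hE2 hPc hClp hC0 hG0 hI1 hRk hFD hWW hRF hMug hMco hCu hSf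
    hTr hTsa hI3 hMfc hCa hGlc hFou hDti hNbr hF1 hF2 hKm hFsp hVco hRy hVf hVv hT hNd hNr hB
    A.w A.u A.n A.w' A.u' A.n' ⟨i, rfl⟩ ⟨i + 1, rfl⟩ (A.c.mtl i) ⟨l, rfl⟩ hr
    (by rintro ⟨l', hl'⟩; exact A.ne i l' hl'.symm)

/-- (R4, V'') THE SECOND CYCLE IN `V'' = c H`: the order of `gR` is zero, and `H` is terminal, or
z-free with `H_0 = j`, `H_r = ± 1` up to a unit. -/
theorem r4v (hG1 : G1pS) (hR : ResWDS) (hRS : ResStS) (hEv : EvS) (hEvm : EvmS)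
    (hFcl : FclS) (hCno : Cno.CnoS) (hMp : MpaS) (hVZ : VZS) (hU : UnitRS)
    (hQst : QstS) (hQra : QraS) (hMin : MinS) (hB5 : B5aS) (hQc : Qc3S) (hDv : Dv3S)
    (hLMN : LMNS) (hUS : RkUSS) (hD2 : D2S) (hSm : SmallS) (hEvz : EvzS) (hKvx : KvxS)
    (hUA : UnitAS)
    (hM1 : M1S) (hMm : MmulS) (hMV : MVS) (hE1 : E1S) (hE2 : E2S) (hPc : PCZS)
    (hClp : ClpS) (hC0 : Coeff0S) (hG0 : G0S) (hI1 : Inj1S) (hRk : RkS) (hFD : FDS)
    (hWW : WWfS) (hRF : RayFacS) (hMug : MugS) (hMco : McoS) (hCu : H61.CuspS) (hSf : SfzS)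
    (hTr : Nr.TrezS) (hTsa : TsaS) (hI3 : Io3S) (hMfc : MfcS) (hCa : Ca5S) (hGlc : GlcS)
    (hFou : FouS) (hDti : DtiS) (hNbr : NbrS) (hF1 : F1S) (hF2 : F2S) (hKm : KmuS)
    (hFsp : FspS) (hVco : VcoS) (hRy : RaySpanS) (hVf : KvfS) (hVv : KvvS) (hT : TsgS)
    (hNd : Nd3vS) (hNr : Nr3S) (hB : BpS)
    (A : Alp phi D q f f' a j eta k 0 Z mu Z' mu')
    (hd : ∀ i l p, phi (Z i) p = 0 ∨ phi (Z' l) p = 0) (hj : 3 ≤ j) (i : ZMod (k + 3))
    (Y : Dp phi (Z i) (Z (i + 1))) {c : RO ℤ} {H : AO ℤ (Ker Y.k1)} {E : ℤ[X]}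
    (hE0 : E.coeff 0 = j + 1) (hc : ClassV 1 c)
    (hV : dc Y (eta (Z i) * tA) (eta (Z (i + 1)) * tC) D = cst c * H) (hDH : DD (psd Y) H)
    (hcl : ClassV (j : ℝ) (H.coeff 0)) (h0 : c * H.coeff 0 = -toLaurent (X * (E - (1 + X) * f)))
    (hrk : Module.finrank ℤ (Ker Y.k1) + 1 = 2 * j)
    (hg : KO29.gR D eta f' (Z i) (Z' 0) = 0 ∨ ∃ (s : ℤˣ) (m : ℤ) (g : ℤ[X]), g.coeff 0 = 1 ∧
      KO29.gR D eta f' (Z i) (Z' 0) =
        LaurentPolynomial.C (s : ℤ) * LaurentPolynomial.T m * toLaurent g) :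
    Tri (psd Y) H (fun l => pr2 Y (Z' l)) (fun l => eta (Z' l)) (fun l => rs2 Y (mu' l)) ∧
      (∀ l, Ray H (pr2 Y (Z' l))) ∧ ImT (psd Y) (fun l => pr2 Y (Z' l)) ∧
      ∃ (s : ℤˣ) (g : ℤ[X]), g.coeff 0 = 1 ∧
        KO29.gR D eta f' (Z i) (Z' 0) = LaurentPolynomial.C (s : ℤ) * toLaurent g ∧
        (KO57.TerC (psd Y) H (fun l => pr2 Y (Z' l)) (fun l => eta (Z' l))
          (fun l => rs2 Y (mu' l)) ∨
        (ZFree H ∧ toLaurent (E - (1 + X) * f) = LaurentPolynomial.C ((s : ℤ) * j) *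
            (toLaurent (X * (1 + X) * f') +
              toLaurent (1 - X - X ^ 2) * KO29.gR D eta f' (Z i) (Z' 0)) ∧
          ∃ w : (RO ℤ)ˣ, (w : RO ℤ) * H.coeff 0 = toLaurent (C (j : ℤ)) ∧
            ∀ l, (w : RO ℤ) * ((eta (Z' l) : RO ℤ) * H.coeff (pr2 Y (Z' l))) =
              -LaurentPolynomial.C (s : ℤ))) := by
  have fp := A.w.ko.min.fp
  have hD := fp.dd
  have h2 : 2 ≤ Module.finrank ℤ L := by have := A.w.ko.rk; omega
  have hc0 : c ≠ 0 := by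
    rintro rfl
    obtain ⟨n, p, hp, h1, h3, -⟩ := H78.classV_nf hc
    have h4 := (mul_eq_zero.mp hp.symm).resolve_left (LaurentPolynomial.isUnit_T n).ne_zero
    rw [toLaurent_eq_zero] at h4
    rw [h4, coeff_zero] at h3
    exact h3 rfl
  have p0 : phi (Z i) Y.i0 = 1 := Y.h0
  have p1 : phi (Z (i + 1)) Y.i1 = 1 := by
    have h1 := Y.hk Y.T
    rw [Y.h1, Y.eT] at h1
    exact h1.symm
  have r0 : ∀ l, phi (Z' l) Y.i0 = 0 := fun l => (hd i l Y.i0).resolve_left (by omega)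
  have r1 : ∀ l, phi (Z' l) Y.i1 = 0 := fun l => (hd (i + 1) l Y.i1).resolve_left (by omega)
  have hpr : ∀ l, (((pr2 Y (Z' l) : Ker Y.k1) : Ker (co phi Y.i0)) : L) = Z' l := fun l =>
    (pr2_of (O := ℤ) Y (r0 l) (r1 l)).1
  have hne : ∀ l, (dc Y (eta (Z i) * tA) (eta (Z (i + 1)) * tC) D).coeff (pr2 Y (Z' l)) ≠ 0 :=
    fun l => alp_v_ne hM1 hMm hMV hE1 hE2 hPc hClp hC0 hG0 hI1 hRk hFD hWW hRF hMug hMco hCu hSf
      hTr hTsa hI3 hMfc hCa hGlc hFou hDti hNbr hF1 hF2 hKm hFsp hVco hRy hVf hVv hT hNd hNr hB A i l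
      (hd i l) (hd (i + 1) l) Y (hpr l)
  obtain ⟨t1, t2, t3⟩ := (prr_a hE2 A i).con hFsp hRy hE2 fp h2 Y hc0 hV hDH hne
  have hld : (fun l => ld2 Y (eta (Z i) * tA) (eta (Z (i + 1)) * tC) (eta (Z' l)) (Z' l)) =
      fun l => eta (Z' l) := by
    funext l
    exact (pr2_of (O := ℤ) Y (r0 l) (r1 l)).2 _ _ _
  rw [hld] at t1
  have hval := KO29.alp_val hF1 A i 0 (hd i 0) (hd (i + 1) 0) Y (hpr 0)
  rw [hV, cst_co] at hval
  have hV0 : (E - (1 + X) * f : ℤ[X]).coeff 0 = (j : ℤ) := by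
    rw [coeff_sub, hE0, mul_coeff_zero, A.u]
    simp
  refine ⟨t1, t2, t3, ?_⟩
  exact r4_core hG1 hR hRS hEv hEvm hFcl hCno hMfc hMp hFD hE2 hVZ hU hMV hE1 hM1 hMm hG0 hC0
    hWW hRF hQst hQra hMin hB5 hRk hKm hQc hDv hNd hLMN hUS hD2 hF1 hF2 hMco hSm hEvz hKvx hUA
    t1 hDH t2 t3 hj hrk hcl hc0 hV0 h0 (A := (1 + X) * f') (B := 1 - X - X ^ 2) hval (by simp)
    (by rw [← mul_assoc]) hg

end

end Pool.Agent.B5.KO.H71
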