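import Pool.Agent.Lib.MP_b5021c_nt.IfaceKO

/-!
# MP_b5021c_nt, all `θ`, K odd, leaf O4, `l = 3`: the normal form at a closed triple

`Tri phi G r e mu`: three disjoint exponents `r i` of `G` with the loads `e i`; the exponents of the
closing of `r i` are killed by `mu i`.  Then `G = A + B S`, `S = ∑ e_i w^(r_i) - ∑ e_i e_j w^(r_i + r_j)`.
-/

set_option linter.unusedSectionVars false

namespace Pool.Agent.B5.KO.H71

open scoped LaurentPolynomial

section

variable {O : Type} [CommRing O] [IsDomain O] [IsPrincipalIdealRing O] [Coef O] {P : Type}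
  [Fintype P] [DecidableEq P] {L : Type} [AddCommGroup L] [Module.Free ℤ L] [Module.Finite ℤ L]

/-- A CLOSED TRIPLE: three disjoint binary exponents with the functionals `mu`; the exponents of
the closing of `r i` at the load `e i` are killed by `mu i`. -/
structure Tri {O : Type} [CommRing O] {P : Type} [Fintype P] [DecidableEq P] {L : Type}
    [AddCommGroup L] (phi : L →+ (P → ℤ)) (G : AO O L) (r : ZMod 3 → L) (e : ZMod 3 → (RO O)ˣ)
    (mu : ZMod 3 → L →+ ℤ) : Prop where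
  bin : ∀ i, Bin phi (r i)
  dis : ∀ i j, i ≠ j → ∀ q, phi (r i) q = 0 ∨ phi (r j) q = 0
  slf : ∀ i, mu i (r i) = 0
  nxt : ∀ i, mu i (r (i + 1)) = 1
  prv : ∀ i, mu i (r (i - 1)) = -1
  sum : ∀ a, mu 0 a + mu 1 a + mu 2 a = 0
  us : ∀ i, ∀ a ∈ US (e i) (r i) G, mu i a = 0
  val : ∀ i, ∀ a ∈ supp G, mu i a = 0 ∨ mu i a = 1 ∨ mu i a = -1

theorem z3a (i : ZMod 3) : i + 1 + 1 = i - 1 := by revert i; decide
theorem z3b (i : ZMod 3) : i - 1 - 1 = i + 1 := by revert i; decide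
theorem z3c (i : ZMod 3) : i + 1 - 1 = i := by revert i; decide
theorem z3d (i : ZMod 3) : i - 1 + 1 = i := by revert i; decide
theorem z3e (i : ZMod 3) : i ≠ i + 1 := by revert i; decide
theorem z3f (i : ZMod 3) : i ≠ i - 1 := by revert i; decide
theorem z3g (i : ZMod 3) : i + 1 ≠ i - 1 := by revert i; decide
theorem z3v (i : ZMod 3) : i = 0 ∨ i = 1 ∨ i = 2 := by revert i; decide
theorem z3h (i j : ZMod 3) : j = i ∨ j = i + 1 ∨ j = i - 1 := by revert i j; decide

/-- `u` is disjoint from the triple and killed by the functionals. -/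
def Fr {P L : Type} [AddCommGroup L] (phi : L →+ (P → ℤ)) (r : ZMod 3 → L)
    (mu : ZMod 3 → L →+ ℤ) (u : L) : Prop :=
  (∀ i q, phi u q = 0 ∨ phi (r i) q = 0) ∧ ∀ i, mu i u = 0

variable {phi : L →+ (P → ℤ)} {G : AO O L} {r : ZMod 3 → L} {e : ZMod 3 → (RO O)ˣ}
  {mu : ZMod 3 → L →+ ℤ}

namespace Tri

theorem sum3 (h : Tri phi G r e mu) (i : ZMod 3) (a : L) :
    mu i a + mu (i + 1) a + mu (i - 1) a = 0 := by
  have h1 := h.sum a
  have h2 : ∀ f : ZMod 3 → ℤ, ∀ i : ZMod 3, f i + f (i + 1) + f (i - 1) = f 0 + f 1 + f 2 := by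
    intro f i
    fin_cases i
    · change f 0 + f 1 + f 2 = _
      rfl
    · change f 1 + f 2 + f 0 = _
      ring
    · change f 2 + f 0 + f 1 = _
      ring
  rw [h2 (fun i => mu i a) i]
  exact h1

theorem prv' (h : Tri phi G r e mu) (i : ZMod 3) : mu (i + 1) (r i) = -1 := by
  have := h.prv (i + 1)
  rwa [z3c] at this

theorem nxt' (h : Tri phi G r e mu) (i : ZMod 3) : mu (i - 1) (r i) = 1 := by
  have := h.nxt (i - 1)
  rwa [z3d] at this

theorem nz (h : Tri phi G r e mu) (i : ZMod 3) : r i ≠ 0 := by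
  intro h0
  have := h.nxt' i
  rw [h0, map_zero] at this
  exact absurd this (by norm_num)

/-- A port of `r i`. -/
theorem port (h : Tri phi G r e mu) (hI : Function.Injective phi) (i : ZMod 3) :
    ∃ q, phi (r i) q = 1 := by
  by_contra hcon
  push Not at hcon
  apply h.nz i
  apply hI
  rw [map_zero]
  ext q
  exact (h.bin i q).resolve_right (hcon q)

/-- The flip of `i` into `a`. -/
theorem fa (h : Tri phi G r e mu) (hF1 : F1S) (hI : Function.Injective phi)
    (hb : ∀ a ∈ supp G, Bin phi a) {i : ZMod 3} {a : L} (hm : mu i a ≠ 0)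
    (hd : ∀ q, phi a q = 0 ∨ phi (r i) q = 0) :
    G.coeff a + (e i : RO O) * G.coeff (a + r i) = 0 :=
  (hF1 O P L phi G (r i) (e i) hI hb (h.bin i) (h.nz i) a (fun ha => hm (h.us i a ha))).2 hd

/-- An exponent with `mu i a ≠ 0` contains `r i` or is disjoint from it. -/
theorem pure (h : Tri phi G r e mu) (hF1 : F1S) (hI : Function.Injective phi)
    (hb : ∀ a ∈ supp G, Bin phi a) {i : ZMod 3} {a : L} (ha : a ∈ supp G) (hm : mu i a ≠ 0) :
    (∀ q, phi a q = 0 ∨ phi (r i) q = 0) ∨ ∀ q, phi (r i) q = 1 → phi a q = 1 := by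
  by_contra hcon
  push Not at hcon
  obtain ⟨⟨q, h1, h2⟩, q', h3, h4⟩ := hcon
  have h5 := (hF1 O P L phi G (r i) (e i) hI hb (h.bin i) (h.nz i) a
    (fun ha => hm (h.us i a ha))).1 ⟨q, (hb a ha q).resolve_left h1, (h.bin i q).resolve_left h2⟩
    ⟨q', (hb a ha q').resolve_right h4, h3⟩
  exact ha h5

/-- The flip of `i` out of `a`. -/
theorem fs (h : Tri phi G r e mu) (hF1 : F1S) (hI : Function.Injective phi)
    (hb : ∀ a ∈ supp G, Bin phi a) {i : ZMod 3} {a : L} (hm : mu i a ≠ 0)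
    (hd : ∀ q, phi (r i) q = 1 → phi a q = 1) :
    G.coeff (a - r i) + (e i : RO O) * G.coeff a = 0 := by
  have h1 := h.fa hF1 hI hb (i := i) (a := a - r i) (by rw [map_sub, h.slf, sub_zero]; exact hm)
    (by
      intro q
      rcases h.bin i q with h2 | h2
      · exact Or.inr h2
      · left
        rw [map_sub, Pi.sub_apply, h2, hd q h2, sub_self])
  rwa [sub_add_cancel] at h1

/-- adding `r i` keeps the support if `mu i ≠ 0`. -/
theorem sa (h : Tri phi G r e mu) (hF1 : F1S) (hI : Function.Injective phi)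
    (hb : ∀ a ∈ supp G, Bin phi a) {i : ZMod 3} {a : L} (ha : a ∈ supp G) (hm : mu i a ≠ 0)
    (hd : ∀ q, phi a q = 0 ∨ phi (r i) q = 0) : a + r i ∈ supp G := by
  intro h0
  have h1 := h.fa hF1 hI hb hm hd
  change G.coeff (a + r i) = 0 at h0
  rw [h0, mul_zero, add_zero] at h1
  exact ha h1

theorem ss (h : Tri phi G r e mu) (hF1 : F1S) (hI : Function.Injective phi)
    (hb : ∀ a ∈ supp G, Bin phi a) {i : ZMod 3} {a : L} (ha : a ∈ supp G) (hm : mu i a ≠ 0)
    (hd : ∀ q, phi (r i) q = 1 → phi a q = 1) : a - r i ∈ supp G := by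
  intro h0
  have h1 := h.fs hF1 hI hb hm hd
  change G.coeff (a - r i) = 0 at h0
  rw [h0, zero_add] at h1
  exact ha ((mul_eq_zero.mp h1).resolve_left (e i).ne_zero)

/-- The values at `a + r i`. -/
theorem va (h : Tri phi G r e mu) (i : ZMod 3) (a : L) :
    mu i (a + r i) = mu i a ∧ mu (i + 1) (a + r i) = mu (i + 1) a - 1 ∧
      mu (i - 1) (a + r i) = mu (i - 1) a + 1 := by
  refine ⟨?_, ?_, ?_⟩
  · rw [map_add, h.slf, add_zero]
  · rw [map_add, h.prv']; ring
  · rw [map_add, h.nxt']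

theorem vs (h : Tri phi G r e mu) (i : ZMod 3) (a : L) :
    mu i (a - r i) = mu i a ∧ mu (i + 1) (a - r i) = mu (i + 1) a + 1 ∧
      mu (i - 1) (a - r i) = mu (i - 1) a - 1 := by
  refine ⟨?_, ?_, ?_⟩
  · rw [map_sub, h.slf, sub_zero]
  · rw [map_sub, h.prv']; ring
  · rw [map_sub, h.nxt']

/-- An exponent with `mu ≠ 0`: one `mu i` is zero, the others are `1, -1`. -/
theorem shape (h : Tri phi G r e mu) {a : L} (ha : a ∈ supp G) (hm : ∃ i, mu i a ≠ 0) :
    ∃ i, mu i a = 0 ∧ ((mu (i + 1) a = 1 ∧ mu (i - 1) a = -1) ∨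
      (mu (i + 1) a = -1 ∧ mu (i - 1) a = 1)) := by
  obtain ⟨i, hi⟩ := hm
  have h1 := h.sum3 i a
  have v0 := h.val i a ha
  have v1 := h.val (i + 1) a ha
  have v2 := h.val (i - 1) a ha
  have hcase : mu (i + 1) a = 0 ∨ mu (i - 1) a = 0 := by omega
  rcases hcase with h2 | h2
  · refine ⟨i + 1, h2, ?_⟩
    rw [z3a, z3c]
    omega
  · refine ⟨i - 1, h2, ?_⟩
    rw [z3d, z3b]
    omega

/-- First type: `mu i a = 0`, `mu (i+1) a = -1`, `mu (i-1) a = 1`: `a = r i + u`. -/
theorem ty1 (h : Tri phi G r e mu) (hF1 : F1S) (hI : Function.Injective phi)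
    (hb : ∀ a ∈ supp G, Bin phi a) {i : ZMod 3} {a : L} (ha : a ∈ supp G) (h0 : mu i a = 0)
    (h1 : mu (i + 1) a = -1) (h2 : mu (i - 1) a = 1) : Fr phi r mu (a - r i) := by
  -- `a` is disjoint from `r (i+1)`
  have d1 : ∀ q, phi a q = 0 ∨ phi (r (i + 1)) q = 0 := by
    rcases h.pure hF1 hI hb ha (i := i + 1) (by rw [h1]; norm_num) with h3 | h3
    · exact h3
    · exfalso
      have h4 := h.ss hF1 hI hb ha (by rw [h1]; norm_num) h3
      have h5 := (h.vs (i + 1) a).2.1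
      rw [z3a, h2] at h5
      rcases h.val (i - 1) _ h4 with h6 | h6 | h6 <;> omega
  have d2 : ∀ q, phi a q = 0 ∨ phi (r (i - 1)) q = 0 := by
    rcases h.pure hF1 hI hb ha (i := i - 1) (by rw [h2]; norm_num) with h3 | h3
    · exact h3
    · exfalso
      have h4 := h.ss hF1 hI hb ha (by rw [h2]; norm_num) h3
      have h5 := (h.vs (i - 1) a).2.2
      rw [z3b, h1] at h5
      rcases h.val (i + 1) _ h4 with h6 | h6 | h6 <;> omega
  -- `a + r (i+1)`
  have h3 := h.sa hF1 hI hb ha (by rw [h1]; norm_num) d1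
  have h4 := h.va (i + 1) a
  rw [z3c, z3a] at h4
  obtain ⟨h5, h6, h7⟩ := h4
  have hpa : ∀ q, phi (r i) q = 1 → phi (a + r (i + 1)) q = phi a q := by
    intro q hq
    rw [map_add, Pi.add_apply, (h.dis i (i + 1) (z3e i) q).resolve_left (by rw [hq]; norm_num),
      add_zero]
  have d0 : ∀ q, phi (r i) q = 1 → phi a q = 1 := by
    rcases h.pure hF1 hI hb h3 (i := i) (by rw [h7, h0]; norm_num) with h8 | h8
    · exfalso
      have h9 := h.sa hF1 hI hb h3 (i := i) (by rw [h7, h0]; norm_num) h8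
      have h10 := (h.va i (a + r (i + 1))).2.1
      rw [h5, h1] at h10
      rcases h.val (i + 1) _ h9 with h11 | h11 | h11 <;> omega
    · intro q hq
      rw [← hpa q hq]
      exact h8 q hq
  refine ⟨fun j q => ?_, fun j => ?_⟩
  · by_cases hj : phi (r j) q = 0
    · exact Or.inr hj
    left
    rw [map_sub, Pi.sub_apply]
    rcases z3h i j with rfl | rfl | rfl
    · have hq := (h.bin j q).resolve_left hj
      rw [d0 q hq, hq, sub_self]
    · rw [(d1 q).resolve_right hj, (h.dis i (i + 1) (z3e i) q).resolve_right hj, sub_zero]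
    · rw [(d2 q).resolve_right hj, (h.dis i (i - 1) (z3f i) q).resolve_right hj, sub_zero]
  · obtain ⟨k1, k2, k3⟩ := h.vs i a
    rcases z3h i j with rfl | rfl | rfl
    · rw [k1, h0]
    · rw [k2, h1]; norm_num
    · rw [k3, h2]; norm_num

/-- Second type: `mu i a = 0`, `mu (i+1) a = 1`, `mu (i-1) a = -1`: `a = r (i+1) + r (i-1) + u`. -/
theorem ty2 (h : Tri phi G r e mu) (hF1 : F1S) (hI : Function.Injective phi)
    (hb : ∀ a ∈ supp G, Bin phi a) {i : ZMod 3} {a : L} (ha : a ∈ supp G) (h0 : mu i a = 0)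
    (h1 : mu (i + 1) a = 1) (h2 : mu (i - 1) a = -1) :
    Fr phi r mu (a - r (i + 1) - r (i - 1)) := by
  have d1 : ∀ q, phi (r (i + 1)) q = 1 → phi a q = 1 := by
    rcases h.pure hF1 hI hb ha (i := i + 1) (by rw [h1]; norm_num) with h3 | h3
    · exfalso
      have h4 := h.sa hF1 hI hb ha (by rw [h1]; norm_num) h3
      have h5 := (h.va (i + 1) a).2.1
      rw [z3a, h2] at h5
      rcases h.val (i - 1) _ h4 with h6 | h6 | h6 <;> omega
    · exact h3
  have h3 := h.ss hF1 hI hb ha (by rw [h1]; norm_num) d1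
  have h4 := h.vs (i + 1) a
  rw [z3c, z3a, h0, h1, h2] at h4
  obtain ⟨h5, h6, h7⟩ := h4
  -- `a - r (i+1)` has the first type at `i - 1`
  have h8 := h.ty1 hF1 hI hb (i := i - 1) h3 (by rw [h6]; norm_num) (by rw [z3d, h7]; norm_num)
    (by rw [z3b, h5])
  exact h8

/-- (N1) THE NORMAL FORM. -/
theorem nf (h : Tri phi G r e mu) (hF1 : F1S) (hI : Function.Injective phi)
    (hb : ∀ a ∈ supp G, Bin phi a) {a : L} (ha : a ∈ supp G) :
    (∀ i, mu i a = 0) ∨ (∃ i u, Fr phi r mu u ∧ a = u + r i) ∨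
      ∃ i u, Fr phi r mu u ∧ a = u + r (i + 1) + r (i - 1) := by
  by_cases hm : ∃ i, mu i a ≠ 0
  · right
    obtain ⟨i, h0, ⟨h1, h2⟩ | ⟨h1, h2⟩⟩ := h.shape ha hm
    · right
      refine ⟨i, a - r (i + 1) - r (i - 1), h.ty2 hF1 hI hb ha h0 h1 h2, by abel⟩
    · left
      exact ⟨i, a - r i, h.ty1 hF1 hI hb ha h0 h1 h2, by abel⟩
  · left
    intro i
    by_contra hi
    exact hm ⟨i, hi⟩

/-- The values of a free exponent plus rays. -/
theorem fr_v (h : Tri phi G r e mu) {u : L} (hu : Fr phi r mu u) (i : ZMod 3) :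
    mu i (u + r i) = 0 ∧ mu (i + 1) (u + r i) = -1 ∧ mu (i - 1) (u + r i) = 1 := by
  obtain ⟨h1, h2, h3⟩ := h.va i u
  rw [hu.2 i] at h1
  rw [hu.2 (i + 1)] at h2
  rw [hu.2 (i - 1)] at h3
  exact ⟨h1, by rw [h2]; norm_num, by rw [h3]; norm_num⟩

theorem fr_d (h : Tri phi G r e mu) {u : L} (hu : Fr phi r mu u) {i j : ZMod 3} (hij : i ≠ j) :
    ∀ q, phi (u + r i) q = 0 ∨ phi (r j) q = 0 := by
  intro q
  by_cases hj : phi (r j) q = 0
  · exact Or.inr hj
  left
  rw [map_add, Pi.add_apply, (hu.1 j q).resolve_right hj, (h.dis i j hij q).resolve_right hj,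
    add_zero]

/-- (N2) the coefficients of singles and pairs. -/
theorem sgl (h : Tri phi G r e mu) (hF1 : F1S) (hI : Function.Injective phi)
    (hb : ∀ a ∈ supp G, Bin phi a) {u : L} (hu : Fr phi r mu u) (i : ZMod 3) :
    (e i : RO O) * G.coeff (u + r i) = (e (i + 1) : RO O) * G.coeff (u + r (i + 1)) ∧
      (e i : RO O) * (e (i + 1) : RO O) * G.coeff (u + r i + r (i + 1)) =
        -((e i : RO O) * G.coeff (u + r i)) := by
  have h1 := h.fa hF1 hI hb (i := i + 1) (a := u + r i)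
    (by rw [(h.fr_v hu i).2.1]; norm_num) (h.fr_d hu (z3e i))
  have h2 := h.fa hF1 hI hb (i := i) (a := u + r (i + 1))
    (by
      have := (h.fr_v hu (i + 1)).2.2
      rw [z3c] at this
      rw [this]; norm_num) (h.fr_d hu (z3e i).symm)
  rw [add_right_comm] at h2
  constructor
  · linear_combination (e i : RO O) * h1 - (e (i + 1) : RO O) * h2
  · linear_combination (e i : RO O) * h1

theorem all_eq (h : Tri phi G r e mu) (hF1 : F1S) (hI : Function.Injective phi)
    (hb : ∀ a ∈ supp G, Bin phi a) {u : L} (hu : Fr phi r mu u) (i j : ZMod 3) :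
    (e i : RO O) * G.coeff (u + r i) = (e j : RO O) * G.coeff (u + r j) := by
  rcases z3h i j with rfl | rfl | rfl
  · rfl
  · exact (h.sgl hF1 hI hb hu i).1
  · have h1 := (h.sgl hF1 hI hb hu (i - 1)).1
    rw [z3d] at h1
    exact h1.symm

theorem pair (h : Tri phi G r e mu) (hF1 : F1S) (hI : Function.Injective phi)
    (hb : ∀ a ∈ supp G, Bin phi a) {u : L} (hu : Fr phi r mu u) {i j : ZMod 3} (hij : i ≠ j)
    (k : ZMod 3) : (e i : RO O) * (e j : RO O) * G.coeff (u + r i + r j) =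
      -((e k : RO O) * G.coeff (u + r k)) := by
  rcases z3h i j with rfl | rfl | rfl
  · exact absurd rfl hij
  · rw [(h.sgl hF1 hI hb hu i).2, h.all_eq hF1 hI hb hu i k]
  · have h1 := (h.sgl hF1 hI hb hu (i - 1)).2
    rw [z3d] at h1
    rw [h.all_eq hF1 hI hb hu k (i - 1), ← h1, add_right_comm]
    ring

end Tri

end

end Pool.Agent.B5.KO.H71
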