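import Pool.Agent.Lib.MP_b5021c_nt.KO.H71.Cv2
import Pool.Agent.Lib.MP_b5021c_nt.KO.H21.HurF

/-!
# MP_b5021c_nt, all `θ`, K odd, leaf O4, ALPHA, rows R4 and R6: the second cycle in `V''` is z-free
-/

set_option linter.unusedSectionVars false

namespace Pool.Agent.B5.KO.H71

open scoped LaurentPolynomial
open Polynomial
open Pool.Agent.B5.KO57 Pool.Agent.B5.KO67
open Pool.Agent.B5.KE
open Pool.Agent.B5.KO.H96 (Alp)

section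

variable {P L : Type} [Fintype P] [DecidableEq P] [AddCommGroup L] [Module.Free ℤ L]
  [Module.Finite ℤ L] {phi : L →+ (P → ℤ)} {D : AO ℤ L} {q f f' : ℤ[X]} {a : ℝ} {j : ℕ}
  {eta : L → (RO ℤ)ˣ} {k : ℕ} {Z : ZMod (k + 3) → L} {mu : ZMod (k + 3) → L →+ ℤ}
  {Z' : ZMod 3 → L} {mu' : ZMod 3 → L →+ ℤ}

/-- (R6, `V''`) in the surface of `r4v`. -/
theorem r6v (hTrm : TrmS) (hPsz : Nr.PszRS) (hPmf : PmfS) (hSnr : Nr.SnrS) (hEvR : EvRS)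
    (hE2 : E2S) (hF1 : F1S) (hSf : SfzS) (hMV : MVS) (hMm : MmulS) (hE1 : E1S) (hPc : PCZS)
    (hClp : ClpS) (hFD : FDS) (hMu : MultiS) (hSS : StSpecS) (hCn : CnfS)
    (A : Alp phi D q f f' a j eta k 0 Z mu Z' mu')
    (hd : ∀ i l p, phi (Z i) p = 0 ∨ phi (Z' l) p = 0) (i : ZMod (k + 3))
    (Y : Dp phi (Z i) (Z (i + 1))) {c : RO ℤ} {H : AO ℤ (Ker Y.k1)}
    (hV : dc Y (eta (Z i) * tA) (eta (Z (i + 1)) * tC) D = cst c * H) (hDH : DD (psd Y) H)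
    {nu : ZMod 3 → Ker Y.k1 →+ ℤ}
    (T : Tri (psd Y) H (fun l => pr2 Y (Z' l)) (fun l => eta (Z' l)) nu)
    (h : KO57.TerC (psd Y) H (fun l => pr2 Y (Z' l)) (fun l => eta (Z' l)) nu) : False := by
  have p0 : phi (Z i) Y.i0 = 1 := Y.h0
  have p1 : phi (Z (i + 1)) Y.i1 = 1 := by
    have h1 := Y.hk Y.T
    rw [Y.h1, Y.eT] at h1
    exact h1.symm
  have r0 : ∀ l, phi (Z' l) Y.i0 = 0 := fun l => (hd i l Y.i0).resolve_left (by omega)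
  have r1 : ∀ l, phi (Z' l) Y.i1 = 0 := fun l => (hd (i + 1) l Y.i1).resolve_left (by omega)
  have k0 : ∀ l, co phi Y.i0 (Z' l) = 0 := r0
  have k1 : ∀ l, Y.k1 (prj (co phi Y.i0) (Z i) Y.h0 (Z' l)) = 0 := by
    intro l
    rw [Y.hk, prj_coe, k0, zero_smul, sub_zero]
    exact r1 l
  refine KO21.r6_v hTrm hPsz hPmf hSnr hEvR hE2 hF1 hSf hMV hMm hE1 hPc hClp hFD hMu hSS hCn A hd i
    (s := eta (Z i) * tA) (t := eta (Z (i + 1)) * tC) rfl rfl Y.eT (h1 := Y.h1) hV hDH.inj hDH.bin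
    (r1 := fun l => prj (co phi Y.i0) (Z i) Y.h0 (Z' l)) (e1 := fun l => eta (Z' l)) T ?_ ?_ h
  · intro l
    refine ⟨0, ?_, ?_⟩
    · change ((prj (co phi Y.i0) (Z i) Y.h0 (Z' l) : Ker (co phi Y.i0)) : L) = _
      rw [prj_coe, k0]
    · rw [neg_zero, zpow_zero, mul_one]
  · intro l
    refine ⟨0, ?_, ?_⟩
    · change ((pr2 Y (Z' l) : Ker Y.k1) : Ker (co phi Y.i0)) = _
      rw [pr2_coe, k1]
    · rw [neg_zero, zpow_zero, mul_one]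

/-- (R4 + R6, `V''`) THE SECOND CYCLE IN `V'' = c H`: the order of `gR` is zero, `H` is z-free with
`H_0 = j`, `H_r = ± 1` up to a unit. -/
theorem r4z (hTrm : TrmS) (hPsz : Nr.PszRS) (hPmf : PmfS) (hSnr : Nr.SnrS) (hEvR : EvRS)
    (hMu : MultiS) (hSS : StSpecS) (hCn : CnfS)
    (hG1 : G1pS) (hR : ResWDS) (hRS : ResStS) (hEv : EvS) (hEvm : EvmS)
    (hFcl : FclS) (hCno : Cno.CnoS) (hMp : MpaS) (hVZ : VZS) (hU : UnitRS)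
    (hQst : QstS) (hQra : QraS) (hMin : MinS) (hB5 : B5aS) (hQc : Qc3S) (hDv : Dv3S)
    (hLMN : LMNS) (hUS : RkUSS) (hD2 : D2S) (hSm : SmallS) (hEvz : EvzS) (hKvx : KvxS)
    (hUA : UnitAS)
    (hM1 : M1S) (hMm : MmulS) (hMV : MVS) (hE1 : E1S) (hE2 : E2S) (hPc : PCZS)
    (hClp : ClpS) (hC0 : Coeff0S) (hG0 : G0S) (hI1 : Inj1S) (hRk : RkS) (hFD : FDS)
    (hWW : WWfS) (hRF : RayFacS) (hMug : MugS) (hMco : McoS) (hCu : H61.CuspS) (hSf : SfzS)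
    (hTr : Nr.TrezS) (hTsa : TsaS) (hI3 : Io3S) (hMfc : MfcS) (hCa : Ca5S) (hGlc : GlcS)
    (hFou : FouS) (hDti : DtiS) (hNbr : NbrS) (hF1 : F1S) (hF2 : F2S) (hKm : KmuS)
    (hFsp : FspS) (hVco : VcoS) (hRy : RaySpanS) (hVf : KvfS) (hVv : KvvS) (hT : TsgS)
    (hNd : Nd3vS) (hNr : Nr3S) (hB : BpS)
    (A : Alp phi D q f f' a j eta k 0 Z mu Z' mu')
    (hd : ∀ i l p, phi (Z i) p = 0 ∨ phi (Z' l) p = 0) (hj : 3 ≤ j) (i : ZMod (k + 3))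
    (Y : Dp phi (Z i) (Z (i + 1))) {c : RO ℤ} {H : AO ℤ (Ker Y.k1)} {E : ℤ[X]}
    (hE0 : E.coeff 0 = j + 1) (hc : ClassV 1 c)
    (hV : dc Y (eta (Z i) * tA) (eta (Z (i + 1)) * tC) D = cst c * H) (hDH : DD (psd Y) H)
    (hcl : ClassV (j : ℝ) (H.coeff 0)) (h0 : c * H.coeff 0 = -toLaurent (X * (E - (1 + X) * f)))
    (hrk : Module.finrank ℤ (Ker Y.k1) + 1 = 2 * j)
    (hg : KO29.gR D eta f' (Z i) (Z' 0) = 0 ∨ ∃ (s : ℤˣ) (m : ℤ) (g : ℤ[X]), g.coeff 0 = 1 ∧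
      KO29.gR D eta f' (Z i) (Z' 0) =
        LaurentPolynomial.C (s : ℤ) * LaurentPolynomial.T m * toLaurent g) :
    Tri (psd Y) H (fun l => pr2 Y (Z' l)) (fun l => eta (Z' l)) (fun l => rs2 Y (mu' l)) ∧
      (∀ l, Ray H (pr2 Y (Z' l))) ∧ ImT (psd Y) (fun l => pr2 Y (Z' l)) ∧ ZFree H ∧
      ∃ (s : ℤˣ) (g : ℤ[X]), g.coeff 0 = 1 ∧
        KO29.gR D eta f' (Z i) (Z' 0) = LaurentPolynomial.C (s : ℤ) * toLaurent g ∧
        toLaurent (E - (1 + X) * f) = LaurentPolynomial.C ((s : ℤ) * j) *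
            (toLaurent (X * (1 + X) * f') +
              toLaurent (1 - X - X ^ 2) * KO29.gR D eta f' (Z i) (Z' 0)) ∧
          ∃ w : (RO ℤ)ˣ, (w : RO ℤ) * H.coeff 0 = toLaurent (C (j : ℤ)) ∧
            ∀ l, (w : RO ℤ) * ((eta (Z' l) : RO ℤ) * H.coeff (pr2 Y (Z' l))) =
              -LaurentPolynomial.C (s : ℤ) := by
  obtain ⟨h1, h2, h3, s, g, hg0, hgg, h4⟩ := r4v hG1 hR hRS hEv hEvm hFcl hCno hMp hVZ hU hQst
    hQra hMin hB5 hQc hDv hLMN hUS hD2 hSm hEvz hKvx hUA hM1 hMm hMV hE1 hE2 hPc hClp hC0 hG0 hI1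
    hRk hFD hWW hRF hMug hMco hCu hSf hTr hTsa hI3 hMfc hCa hGlc hFou hDti hNbr hF1 hF2 hKm hFsp
    hVco hRy hVf hVv hT hNd hNr hB A hd hj i Y hE0 hc hV hDH hcl h0 hrk hg
  rcases h4 with h4 | ⟨h4, h5, h6⟩
  · exact (r6v hTrm hPsz hPmf hSnr hEvR hE2 hF1 hSf hMV hMm hE1 hPc hClp hFD hMu hSS hCn A hd i Y
      hV hDH h1 h4).elim
  · exact ⟨h1, h2, h3, h4, s, g, hg0, hgg, h5, h6⟩

end

end Pool.Agent.B5.KO.H71
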