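import Pool.Agent.Lib.MP_b5021c_nt.KO.H71.MnaB
import Pool.Agent.Lib.MP_b5021c_nt.KO.H71.Cv3
import Pool.Agent.Lib.MP_b5021c_nt.KO.H57.Ga
import Pool.Agent.Lib.MP_b5021c_nt.KO.H62.Ufc
import Pool.Agent.Lib.MP_b5021c_nt.KO.H52.Uav
import Pool.Agent.Lib.MP_b5021c_nt.KO.H62.Oal

/-!
# MP_b5021c_nt, all `θ`, K odd, leaf O4, ALPHA: `MnAS` (rows R2, R4, R5, R6)
-/

set_option linter.unusedSectionVars false

namespace Pool.Agent.B5.KO.H71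

open scoped LaurentPolynomial
open Polynomial
open Pool.Agent.B5.KO57 (EaD alp_ea)
open Pool.Agent.B5.KO67 (psd upper)
open Pool.Agent.B5.KE
open Pool.Agent.B5.KV67 (TT1 tA_val)
open Pool.Agent.B5.KO.H96 (Alp)
open Pool.Agent.B5.KO29 (gR alp_dbl)
open Pool.Agent.B5.H61 (CuspS)
open Pool.Agent.B5.Nr (TrezS)

section

variable {P L : Type} [Fintype P] [DecidableEq P] [AddCommGroup L] [Module.Free ℤ L]
  [Module.Finite ℤ L] {phi : L →+ (P → ℤ)} {D : AO ℤ L} {q f f' : ℤ[X]} {a : ℝ} {j : ℕ}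
  {eta : L → (RO ℤ)ˣ} {k : ℕ} {Z : ZMod (k + 3) → L} {mu : ZMod (k + 3) → L →+ ℤ}
  {Z' : ZMod 3 → L} {mu' : ZMod 3 → L →+ ℤ}

/-- `gR` does not depend on the ray of the second cycle. -/
theorem gR_all (hF1 : F1S) (hE2 : E2S) (A : Alp phi D q f f' a j eta k 0 Z mu Z' mu')
    (hd : ∀ i l p, phi (Z i) p = 0 ∨ phi (Z' l) p = 0) (i : ZMod (k + 3)) (l l' : ZMod 3) :
    gR D eta f' (Z i) (Z' l) = gR D eta f' (Z i) (Z' l') := by
  have hD := A.w.ko.min.fp.dd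
  have hT := KO.H96.Alp.tri' hE2 A
  have h1 := hT.all_eq hF1 hD.inj hD.bin (u := Z i)
    ⟨fun n p => hd i n p, fun n => A.z' i n⟩ l l'
  unfold gR
  rw [h1]

/-- The numerical data of a pair of neighbours in case ALPHA. -/
theorem alp_num (hMV : MVS) (hMm : MmulS) (hE1 : E1S) (hPc : PCZS) (hClp : ClpS) (hFD : FDS)
    (hSf : SfzS) (hI3 : Io3S) (hMfc : MfcS) (hCa : Ca5S) (hGlc : GlcS) (hFou : FouS)
    (hDti : DtiS) (hCu : CuspS) (hMco : McoS) (A : Alp phi D q f f' a j eta k 0 Z mu Z' mu')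
    (i : ZMod (k + 3)) {E : ℤ[X]} (hE : f - q = X * E) :
    (∀ z : ℂ, ‖z‖ ≤ 1 → aeval z E ≠ 0) ∧ 0 < (aeval (1 / ((j : ℝ) + 1)) q : ℝ) ∧
      (eta (Z i) : RO ℤ) * D.coeff (Z i) = toLaurent (X * f) ∧
      (eta (Z (i + 1)) : RO ℤ) * D.coeff (Z (i + 1)) = toLaurent (X * f) ∧
      (eta (Z i) : RO ℤ) * (eta (Z (i + 1)) : RO ℤ) * D.coeff (Z i + Z (i + 1)) =
        -toLaurent (X * f) := by
  have fp := A.w.ko.min.fp
  have hD := fp.dd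
  have h2 : 2 ≤ Module.finrank ℤ L := by have := A.w.ko.rk; have := A.w.ko.j2; omega
  obtain ⟨e, he, hRn⟩ := A.w.rn (Z i) ⟨i, rfl⟩
  have hM := A.c.mtl i
  have hM' : Mut D (Z i) (Z (i + 1)) (ld e 1) (eta (Z (i + 1))) := by rw [← he]; exact hM
  obtain ⟨-, hzero, -⟩ := upper hMV hMm hE1 hPc hClp hFD hSf hI3 hMfc hCa hGlc hFou hDti A.w A.u
    ⟨i, rfl⟩ he hRn
  obtain ⟨E', hE', -, -, hop⟩ := typa hRn.loc A.u hRn.ne
  have hEE : E = E' := by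
    have h3 : (X : ℤ[X]) * E = X * E' := by rw [← hE, hE']
    exact mul_left_cancel₀ X_ne_zero h3
  subst hEE
  have hcusp : ∀ z : ℂ, ‖z‖ = 1 → (aeval z (q + X * f) : ℂ) ≠ 0 := fun z hz =>
    cusp_m1 hCu hD h2 hRn hM' hzero hz
  have hEz := KV67.Ez_of hMfc hD h2 hRn hM' hE hop hcusp
  obtain ⟨-, hA1, hA11, -⟩ := hMco ℤ P L phi D _ _ _ _ hD.inj hD.bin hM
  have hS : (eta (Z i) : RO ℤ) * D.coeff (Z i) = toLaurent (X * f) := by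
    have h5 := ld_S hRn 1
    rw [pow_one] at h5
    rw [he]
    exact h5
  refine ⟨hEz, ?_, hS, by rw [hA1, hS], by rw [hA11, hS]⟩
  have hjr : (0 : ℝ) < (j : ℝ) + 1 := by positivity
  have hx0 : (0 : ℝ) ≤ 1 / ((j : ℝ) + 1) := by positivity
  refine hRn.loc.qpos hx0 ?_
  have h5 := A.w.ko.lt
  rw [div_lt_iff₀ hjr]
  linarith

end

/-- `MnAS`: `gR = 0` or an order different from one is impossible. -/
theorem mnas (hDcm : DcmS) (hSub : SubzS) (hPr : PrimS) (hGen : GenS) (hG4 : G4S)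
    (hMono : MonoS) (hcr : CrssS) (hsz : SzcS)
    (hRn : RnkS) (hO5 : H67.O5aS)
    (hTrm : TrmS) (hPsz : Nr.PszRS) (hPmf : PmfS) (hSnr : Nr.SnrS) (hEvR : EvRS)
    (hMu : MultiS) (hSS : StSpecS) (hCn : CnfS)
    (hG1 : G1pS) (hR : ResWDS) (hRS : ResStS) (hEv : EvS) (hEvm : EvmS)
    (hFcl : FclS) (hCno : Cno.CnoS) (hMp : MpaS) (hVZ : VZS) (hU : UnitRS)
    (hQst : QstS) (hQra : QraS) (hMin : MinS) (hB5 : B5aS) (hQc : Qc3S) (hDv : Dv3S)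
    (hLMN : LMNS) (hUS : RkUSS) (hD2 : D2S) (hSm : SmallS) (hEvz : EvzS) (hKvx : KvxS)
    (hUA : UnitAS)
    (hM1 : M1S) (hMm : MmulS) (hMV : MVS) (hE1 : E1S) (hE2 : E2S) (hPc : PCZS)
    (hClp : ClpS) (hC0 : Coeff0S) (hG0 : G0S) (hI1 : Inj1S) (hRk : RkS) (hFD : FDS)
    (hWW : WWfS) (hRF : RayFacS) (hMug : MugS) (hMco : McoS) (hCu : CuspS) (hSf : SfzS)
    (hTr : TrezS) (hTsa : TsaS) (hI3 : Io3S) (hMfc : MfcS) (hCa : Ca5S) (hGlc : GlcS)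
    (hFou : FouS) (hDti : DtiS) (hNbr : NbrS) (hF1 : F1S) (hF2 : F2S) (hKm : KmuS)
    (hFsp : FspS) (hVco : VcoS) (hRy : RaySpanS) (hVf : KvfS) (hVv : KvvS) (hT : TsgS)
    (hNd : Nd3vS) (hNr : Nr3S) (hB : BpS) : KO62.MnAS := by
  intro P L _ _ _ _ _ phi D q f f' a j eta k Z mu Z' mu' hk A hd hj i hdf l hg
  have fp := A.w.ko.min.fp
  have hD := fp.dd
  have h2 : 2 ≤ Module.finrank ℤ L := by have := A.w.ko.rk; omega
  obtain ⟨-, -, -, -, hray, -⟩ := hE2 ℤ P L phi D hD h2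
  obtain ⟨Y, c1, G, hEA⟩ := alp_ea hMm hMV hE1 hClp hC0 hG0 hI1 hRk hFD hWW hRF hMug hMco hTr hTsa
    hFsp hRy hE2 hF1 A i
  obtain ⟨c, H, E, hE, hE0, hc, hV, hDH, hcv, hH0, hfr⟩ := alp_dbl hMV hMm hE1 hE2 hPc hClp hC0 hG0
    hI1 hRk hFD hWW hRF hMug hMco hCu hSf hTr hTsa hI3 hMfc hCa hGlc hFou hDti hRn hO5 hF1 hRy A i
    l (hd i l) (hd (i + 1) l) hdf hg Y
  have hg' : gR D eta f' (Z i) (Z' 0) = 0 ∨ ∃ (s : ℤˣ) (m : ℤ) (g : ℤ[X]), g.coeff 0 = 1 ∧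
      gR D eta f' (Z i) (Z' 0) =
        LaurentPolynomial.C (s : ℤ) * LaurentPolynomial.T m * toLaurent g := by
    rw [gR_all hF1 hE2 A hd i 0 l]
    rcases hg with h1 | ⟨s, m, g, h1, -, h3⟩
    · exact Or.inl h1
    · exact Or.inr ⟨s, m, g, h1, h3⟩
  obtain ⟨-, hrays, -, hZ, -⟩ := r4z hTrm hPsz hPmf hSnr hEvR hMu hSS hCn hG1 hR hRS hEv hEvm hFcl
    hCno hMp hVZ hU hQst hQra hMin hB5 hQc hDv hLMN hUS hD2 hSm hEvz hKvx hUA hM1 hMm hMV hE1 hE2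
    hPc hClp hC0 hG0 hI1 hRk hFD hWW hRF hMug hMco hCu hSf hTr hTsa hI3 hMfc hCa hGlc hFou hDti
    hNbr hF1 hF2 hKm hFsp hVco hRy hVf hVv hT hNd hNr hB A hd hj i Y hE0 hc hV hDH hcv hH0 hfr hg'
  obtain ⟨hEz, hqpos, hS0, hS1, hS01⟩ := alp_num hMV hMm hE1 hPc hClp hFD hSf hI3 hMfc hCa hGlc
    hFou hDti hCu hMco A i hE
  -- the content of `E^A` is a unit
  obtain ⟨cu, hcu⟩ := KV67.c_unit hM1 hMV hEA.cv hEA.v0 hE hEz
  subst hcu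
  have hH00 : H.coeff 0 ≠ 0 := ((hMV ℤ).1 _ _ hcv).1
  have hw : Wdep H := ⟨0, hH00, _, (hrays 0).1, (hrays 0).2.1.symm⟩
  have hV0 : (E - (1 + X) * f : ℤ[X]).coeff 0 = (j : ℤ) := by
    rw [coeff_sub, hE0, mul_coeff_zero, A.u]
    simp
  have hne : E ≠ (1 + X) * f := by
    intro h5
    rw [h5, sub_self, coeff_zero] at hV0
    omega
  have hGT : (eta (Z (i + 1)) : RO ℤ) * ((cu : RO ℤ) * G.coeff Y.T) =
      toLaurent (X * f) + LaurentPolynomial.T (-1) * toLaurent (X * f) := by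
    rw [← cst_co, ← hEA.cl, H47.cl_coeff_bin (co phi Y.i0) (Z i) Y.h0 _ D
      (fun y hy => hD.bin y hy Y.i0), Y.eT, Units.val_mul, tA_val, add_comm (Z (i + 1)) (Z i)]
    linear_combination hS1 - (LaurentPolynomial.T (-1) : RO ℤ) * hS01
  have g0 : ((tA * cu : (RO ℤ)ˣ) : RO ℤ) * G.coeff 0 = toLaurent E := by
    have h5 := hEA.v0
    have h6 : q - f = -(X * E) := by rw [← hE]; ring
    rw [h6, map_neg, map_mul, toLaurent_X] at h5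
    rw [Units.val_mul, tA_val]
    linear_combination (-(LaurentPolynomial.T (-1)) : RO ℤ) * h5 + (toLaurent E : RO ℤ) * TT1
  have g1 : ((tA * cu : (RO ℤ)ˣ) : RO ℤ) * (((eta (Z (i + 1)) * tC : (RO ℤ)ˣ) : RO ℤ) *
      G.coeff Y.T) = -toLaurent ((1 + X) * f) := by
    rw [Units.val_mul, Units.val_mul, tA_val, KO.H40.tC_val]
    rw [map_mul, toLaurent_X] at hGT
    rw [map_mul, map_add, map_one, toLaurent_X]
    linear_combination (-(LaurentPolynomial.T (-1) * LaurentPolynomial.T 1) : RO ℤ) * hGT -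
      (toLaurent f * (1 + LaurentPolynomial.T 1) + LaurentPolynomial.T (-1) *
        LaurentPolynomial.T 1 * toLaurent f) * TT1
  have hfr2 : Module.finrank ℤ (Ker (co phi Y.i0)) = 2 * j := hEA.fr
  obtain ⟨i0, h0, T, eT, i1, k1, hk', h1⟩ := Y
  have hk1 : co (phO phi (Z i) i0) i1 = k1 := hEA.k1
  subst hk1
  obtain ⟨hcu', hzfd⟩ := uend (KO23.end_ hcr hsz hE2 hG0 hMV hM1) hFD hSm hG0 hUA hMin hMm hMV hRk
    hF1 hU hD hray hk A.c i (t0 := tA) (t1 := tC) (i0 := i0) (h0 := h0)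
    (psi := phO phi (Z i) i0) (fun x p => rfl) hEA.cl hEA.dd (by rw [hfr2]; omega) eT (h1 := h1)
    hEA.rT hV hDH hc hZ (N := (j : ℝ)) (by exact_mod_cast (by omega : 1 < j)) hcv hw g0 g1
    (fun z hz => hEz z hz.le) hne
  refine KO62.ufo_false (KO52.uavo hDcm hSub hPr hG0 hRk hE2 hFD hSm hUA hMin hMm hGen)
    (KO62.Ufw.ufwo hRk hE2 hPc hFD hSm hG4 hMono hE1 hMV hMm) hEA.dd hEA.rT hzfd.zfg hj ?_ hfr2
    (A.w.ko.ih (2 * j - 1) (by omega)) g0 g1 hE0 A.u hcu' rfl hE.symm hqpos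
  have h5 := hEA.cls
  push_cast at h5
  exact h5

end Pool.Agent.B5.KO.H71
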