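import Pool.Agent.Lib.MP_b5021c_nt.KO.H71.Nf
import Pool.Agent.Lib.MP_b5021c_nt.BP.H12.T2f
import Pool.Agent.Lib.MP_b5021c_nt.KV.H09.Vsr

/-!
# MP_b5021c_nt, all `θ`, K odd, leaf O4, `l = 3`: the double closing of a closed triple at
`e^(i pi/3)` is full; its coefficients
-/

set_option linter.unusedSectionVars false

namespace Pool.Agent.B5.KO.H71

open scoped LaurentPolynomial
open Pool.Agent.B5.BPR Pool.Agent.B5.BP12
open Pool.Agent.MP_b5021c_nt (Eis)
open Pool.Agent.MP_b5021c_nt.Ire (bc)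
open Pool.Agent.B5.H25.Bch
open Pool.Agent.B5.BP90 (Et)

section

variable {O : Type} [CommRing O] [IsDomain O] [IsPrincipalIdealRing O] [Coef O] {P : Type}
  [Fintype P] [DecidableEq P] {L : Type} [AddCommGroup L] [Module.Free ℤ L] [Module.Finite ℤ L]
  {phi : L →+ (P → ℤ)} {G : AO O L} {r : ZMod 3 → L} {e : ZMod 3 → (RO O)ˣ}
  {mu : ZMod 3 → L →+ ℤ}

namespace Tri

/-- The class of `x` modulo `r 0`, `r 1`: a member with `mu ≠ 0` gives a free exponent. -/
theorem cls (h : Tri phi G r e mu) (hF1 : F1S) (hI : Function.Injective phi)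
    (hb : ∀ a ∈ supp G, Bin phi a) {x : L} {i0 i1 : P} (h0 : phi (r 0) i0 = 1)
    (h1 : phi (r 1) i1 = 1) (hx0 : phi x i0 = 0) (hx1 : phi x i1 = 0) {s t : ℤ}
    (hs : x + s • r 0 + t • r 1 ∈ supp G) (hm : ∃ i, mu i (x + s • r 0 + t • r 1) ≠ 0) :
    Fr phi r mu x ∨ Fr phi r mu (x - r 2) := by
  have d01 : ∀ q, phi (r 0) q = 1 → phi (r 1) q = 0 := fun q hq =>
    (h.dis 0 1 (by decide) q).resolve_left (by rw [hq]; norm_num)
  have d10 : ∀ q, phi (r 1) q = 1 → phi (r 0) q = 0 := fun q hq =>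
    (h.dis 0 1 (by decide) q).resolve_right (by rw [hq]; norm_num)
  have d20 : ∀ q, phi (r 0) q = 1 → phi (r 2) q = 0 := fun q hq =>
    (h.dis 0 2 (by decide) q).resolve_left (by rw [hq]; norm_num)
  have d21 : ∀ q, phi (r 1) q = 1 → phi (r 2) q = 0 := fun q hq =>
    (h.dis 1 2 (by decide) q).resolve_left (by rw [hq]; norm_num)
  -- the ports
  have p0 : phi (x + s • r 0 + t • r 1) i0 = s := by
    simp only [map_add, map_zsmul, Pi.add_apply, Pi.smul_apply, hx0, h0, d01 i0 h0, smul_eq_mul]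
    ring
  have p1 : phi (x + s • r 0 + t • r 1) i1 = t := by
    simp only [map_add, map_zsmul, Pi.add_apply, Pi.smul_apply, hx1, h1, d10 i1 h1, smul_eq_mul]
    ring
  have key : ∀ u : L, Fr phi r mu u → ∀ a b c : ℤ, x + s • r 0 + t • r 1 =
      u + a • r 0 + b • r 1 + c • r 2 → x = u + c • r 2 := by
    intro u hu a b c hxu
    have q0 := congrArg (fun y => phi y i0) hxu
    have q1 := congrArg (fun y => phi y i1) hxu
    simp only [p0, p1] at q0 q1
    have u0 : phi u i0 = 0 := (hu.1 0 i0).resolve_right (by rw [h0]; norm_num)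
    have u1 : phi u i1 = 0 := (hu.1 1 i1).resolve_right (by rw [h1]; norm_num)
    simp only [map_add, map_zsmul, Pi.add_apply, Pi.smul_apply, u0, h0, d01 i0 h0, d20 i0 h0,
      smul_eq_mul] at q0
    simp only [map_add, map_zsmul, Pi.add_apply, Pi.smul_apply, u1, h1, d10 i1 h1, d21 i1 h1,
      smul_eq_mul] at q1
    have e0 : s = a := by linarith
    have e1 : t = b := by linarith
    subst e0
    subst e1
    have h5 : x = (x + s • r 0 + t • r 1) - s • r 0 - t • r 1 := by abel
    rw [h5, hxu]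
    abel
  rcases h.nf hF1 hI hb hs with h2 | ⟨i, u, hu, hi⟩ | ⟨i, u, hu, hi⟩
  · obtain ⟨i, hi⟩ := hm
    exact absurd (h2 i) hi
  · rcases z3v i with rfl | rfl | rfl
    · left
      have := key u hu 1 0 0 (by rw [hi, one_smul, zero_smul, zero_smul, add_zero, add_zero])
      rw [this, zero_smul, add_zero]; exact hu
    · left
      have := key u hu 0 1 0 (by rw [hi, one_smul, zero_smul, zero_smul, add_zero, add_zero])
      rw [this, zero_smul, add_zero]; exact hu
    · right
      have := key u hu 0 0 1 (by rw [hi, one_smul, zero_smul, zero_smul, add_zero, add_zero])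
      rw [this, one_smul, add_sub_cancel_right]; exact hu
  · rcases z3v i with rfl | rfl | rfl
    · right
      rw [show (0 : ZMod 3) + 1 = 1 by decide, show (0 : ZMod 3) - 1 = 2 by decide] at hi
      have := key u hu 0 1 1 (by rw [hi, one_smul, zero_smul, one_smul, add_zero])
      rw [this, one_smul, add_sub_cancel_right]; exact hu
    · right
      rw [show (1 : ZMod 3) + 1 = 2 by decide, show (1 : ZMod 3) - 1 = 0 by decide] at hi
      have := key u hu 1 0 1 (by rw [hi, one_smul, zero_smul, one_smul, add_zero]; abel)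
      rw [this, one_smul, add_sub_cancel_right]; exact hu
    · left
      rw [show (2 : ZMod 3) + 1 = 0 by decide, show (2 : ZMod 3) - 1 = 1 by decide] at hi
      have := key u hu 1 1 0 (by rw [hi, one_smul, one_smul, zero_smul, add_zero])
      rw [this, zero_smul, add_zero]; exact hu

/-- Two members of a class with `mu = 0` are equal. -/
theorem uniq (h : Tri phi G r e mu) {x : L} {s t s' t' : ℤ}
    (h1 : ∀ i, mu i (x + s • r 0 + t • r 1) = 0) (h2 : ∀ i, mu i (x + s' • r 0 + t' • r 1) = 0) :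
    s = s' ∧ t = t' := by
  have a1 : mu 1 (r 0) = -1 := h.prv' 0
  have a2 : mu 1 (r 1) = 0 := h.slf 1
  have a3 : mu 0 (r 0) = 0 := h.slf 0
  have a4 : mu 0 (r 1) = 1 := h.nxt 0
  have b1 := h1 0
  have b2 := h1 1
  have b3 := h2 0
  have b4 := h2 1
  simp only [map_add, map_zsmul, a1, a2, a3, a4, smul_eq_mul] at b1 b2 b3 b4
  constructor <;> linarith

end Tri

end

section

variable {P : Type} [Fintype P] [DecidableEq P] {L : Type} [AddCommGroup L] [Module.Free ℤ L]
  [Module.Finite ℤ L] {phi : L →+ (P → ℤ)} {G : AO ℤ L} {r : ZMod 3 → L} {e : ZMod 3 → (RO ℤ)ˣ}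
  {mu : ZMod 3 → L →+ ℤ}

/-- Representation of a non partial exponent. -/
theorem rep {S0 S1 a : L} (hb0 : Bin phi S0) (hb1 : Bin phi S1)
    (hdis : ∀ q, phi S0 q = 0 ∨ phi S1 q = 0) (ha : Bin phi a) (h0 : ¬ Part phi S0 a)
    (h1 : ¬ Part phi S1 a) {i0 i1 : P} (hi0 : phi S0 i0 = 1) (hi1 : phi S1 i1 = 1) :
    ∃ x : L, Out phi S0 S1 x ∧ a = x + phi a i0 • S0 + phi a i1 • S1 := by
  refine ⟨a - phi a i0 • S0 - phi a i1 • S1, ?_, by abel⟩
  have key : ∀ {S : L} {i : P}, Bin phi S → phi S i = 1 → ¬ Part phi S a → ∀ q, phi S q = 1 →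
      phi a q = phi a i := by
    intro S i hS hi hp q hq
    rcases ha q with h2 | h2 <;> rcases ha i with h3 | h3
    · rw [h2, h3]
    · exact absurd ⟨⟨i, h3, hi⟩, q, h2, hq⟩ hp
    · exact absurd ⟨⟨q, h2, hq⟩, i, h3, hi⟩ hp
    · rw [h2, h3]
  intro q
  rcases hb0 q with h2 | h2
  · rcases hb1 q with h3 | h3
    · exact Or.inr ⟨h2, h3⟩
    · left
      simp only [map_sub, map_zsmul, Pi.sub_apply, Pi.smul_apply, h2, h3, key hb1 hi1 h1 q h3,
        smul_eq_mul]
      ring
  · left
    have h3 : phi S1 q = 0 := (hdis q).resolve_left (by rw [h2]; norm_num)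
    simp only [map_sub, map_zsmul, Pi.sub_apply, Pi.smul_apply, h2, h3, key hb0 hi0 h0 q h2,
      smul_eq_mul]
    ring

/-- (N5) THE DOUBLE CLOSING AT `e^(i pi/3)` IS FULL. -/
theorem Tri.t2f (h : Tri phi G r e mu) (hF1 : F1S) (hD : DD phi G) :
    T2f phi G (r 0) (r 1) (e 0) (e 1) := by
  have hI := hD.inj
  have hb := hD.bin
  intro nu hk
  by_contra hnu
  -- an exponent with `nu ≠ 0`
  obtain ⟨a, ha, hna⟩ : ∃ a ∈ supp G, nu a ≠ 0 := by
    by_contra hcon
    push Not at hcon
    exact hnu (KV.H09.eq_zero_of_supp hD.spn hcon)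
  obtain ⟨i0, hi0⟩ := h.port hI 0
  obtain ⟨i1, hi1⟩ := h.port hI 1
  have p0 : ¬ Part phi (r 0) a := fun hp => hna (hk.part a ha (Or.inl hp))
  have p1 : ¬ Part phi (r 1) a := fun hp => hna (hk.part a ha (Or.inr hp))
  obtain ⟨x, hx, hax⟩ := rep (h.bin 0) (h.bin 1) (h.dis 0 1 (by decide)) (hb a ha) p0 p1 hi0 hi1
  have hnx : nu x ≠ 0 := by
    intro h0
    apply hna
    rw [hax, map_add, map_add, map_zsmul, map_zsmul, hk.s0, hk.s1, h0]
    simp
  obtain ⟨c1, c2⟩ := hk.free x hx hnx
  have hx0 : phi x i0 = 0 := by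
    rcases hx i0 with h2 | h2
    · exact h2
    · rw [h2.1] at hi0; exact absurd hi0 (by norm_num)
  have hx1 : phi x i1 = 0 := by
    rcases hx i1 with h2 | h2
    · exact h2
    · rw [h2.2] at hi1; exact absurd hi1 (by norm_num)
  -- all four coefficients vanish
  have hall : G.coeff x = 0 ∧ G.coeff (x + r 0) = 0 ∧ G.coeff (x + r 1) = 0 ∧
      G.coeff (x + r 0 + r 1) = 0 := by
    have u0 := (e 0).ne_zero
    have u1 := (e 1).ne_zero
    have u2 := (e 2).ne_zero
    have fin : ∀ B : RO ℤ, B = 0 → (e 0 : RO ℤ) * G.coeff (x + r 0) = B ∨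
        (e 0 : RO ℤ) * (e 2 : RO ℤ) * G.coeff (x + r 0) = B → (e 1 : RO ℤ) * G.coeff (x + r 1) = B ∨
        (e 1 : RO ℤ) * (e 2 : RO ℤ) * G.coeff (x + r 1) = B →
        G.coeff x = 0 ∧ G.coeff (x + r 0) = 0 ∧ G.coeff (x + r 1) = 0 ∧
          G.coeff (x + r 0 + r 1) = 0 := by
      rintro B rfl k0 k1
      have g0 : G.coeff (x + r 0) = 0 := by
        rcases k0 with k | k
        · exact (mul_eq_zero.mp k).resolve_left u0
        · exact (mul_eq_zero.mp k).resolve_left (mul_ne_zero u0 u2)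
      have g1 : G.coeff (x + r 1) = 0 := by
        rcases k1 with k | k
        · exact (mul_eq_zero.mp k).resolve_left u1
        · exact (mul_eq_zero.mp k).resolve_left (mul_ne_zero u1 u2)
      rw [g0, g1, mul_zero, mul_zero, zero_add, zero_add] at c2
      have g2 := (mul_eq_zero.mp c2).resolve_left (mul_ne_zero u0 u1)
      rw [g2, mul_zero] at c1
      exact ⟨c1.symm, g0, g1, g2⟩
    by_cases hex : Fr phi r mu x ∨ Fr phi r mu (x - r 2)
    · rcases hex with hu | hu
      · have k0 := h.all_eq hF1 hI hb hu 0 1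
        have k2 := h.pair hF1 hI hb hu (i := 0) (j := 1) (by decide) 0
        refine fin ((e 0 : RO ℤ) * G.coeff (x + r 0)) ?_ (Or.inl rfl) (Or.inl k0.symm)
        linear_combination c2 - k2 + k0
      · obtain ⟨u, rfl⟩ : ∃ u, x = u + r 2 := ⟨x - r 2, by abel⟩
        rw [add_sub_cancel_right] at hu
        have k0 := h.pair hF1 hI hb hu (i := 2) (j := 0) (by decide) 2
        have k1 := h.pair hF1 hI hb hu (i := 2) (j := 1) (by decide) 2
        refine fin ((e 0 : RO ℤ) * (e 2 : RO ℤ) * G.coeff (u + r 2 + r 0)) ?_ (Or.inr rfl)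
          (Or.inr (by linear_combination k1 - k0))
        linear_combination (e 2 : RO ℤ) * c2 - (e 2 : RO ℤ) * c1 - k1
    · -- at most one member
      push Not at hex
      have hz : ∀ s t : ℤ, G.coeff (x + s • r 0 + t • r 1) ≠ 0 →
          ∀ i, mu i (x + s • r 0 + t • r 1) = 0 := by
        intro s t hst
        by_contra hcon
        push Not at hcon
        rcases h.cls hF1 hI hb hi0 hi1 hx0 hx1 hst hcon with h2 | h2
        · exact hex.1 h2
        · exact hex.2 h2
      have e00 : x = x + (0 : ℤ) • r 0 + (0 : ℤ) • r 1 := by simp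
      have e10 : x + r 0 = x + (1 : ℤ) • r 0 + (0 : ℤ) • r 1 := by simp
      have e01 : x + r 1 = x + (0 : ℤ) • r 0 + (1 : ℤ) • r 1 := by simp
      have e11 : x + r 0 + r 1 = x + (1 : ℤ) • r 0 + (1 : ℤ) • r 1 := by simp
      have g2 : G.coeff (x + r 0 + r 1) = 0 := by
        by_contra hne
        have hne' : G.coeff x ≠ 0 := by
          rw [← c1]
          exact mul_ne_zero (mul_ne_zero u0 u1) hne
        rw [e11] at hne
        rw [e00] at hne'
        have := (h.uniq (hz 1 1 hne) (hz 0 0 hne')).1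
        exact absurd this (by norm_num)
      rw [g2, mul_zero] at c1 c2
      have g0 : G.coeff (x + r 0) = 0 := by
        by_contra hne
        have hne' : G.coeff (x + r 1) ≠ 0 := by
          intro h0
          rw [h0, mul_zero, add_zero, add_zero] at c2
          exact hne ((mul_eq_zero.mp c2).resolve_left u0)
        rw [e10] at hne
        rw [e01] at hne'
        have := (h.uniq (hz 1 0 hne) (hz 0 1 hne')).1
        exact absurd this (by norm_num)
      rw [g0, mul_zero, zero_add, add_zero] at c2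
      exact ⟨c1.symm, g0, (mul_eq_zero.mp c2).resolve_left u1, g2⟩
  obtain ⟨g00, g10, g01, g11⟩ := hall
  apply ha
  rw [hax]
  rcases hb a ha i0 with h2 | h2 <;> rcases hb a ha i1 with h3 | h3 <;> rw [h2, h3]
  · rw [zero_smul, zero_smul, add_zero, add_zero]; exact g00
  · rw [zero_smul, one_smul, add_zero]; exact g01
  · rw [one_smul, zero_smul, add_zero]; exact g10
  · rw [one_smul, one_smul]; exact g11

end

end Pool.Agent.B5.KO.H71
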