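import Pool.Agent.Lib.MP_b5021c_nt.KO.H71.Ncl
import Pool.Agent.Lib.MP_b5021c_nt.KO.H57.Fam
import Pool.Agent.Lib.MP_b5021c_nt.KO.H57.T2w
import Pool.Agent.Lib.MP_b5021c_nt.KO.H67.Imd

/-!
# MP_b5021c_nt, all `θ`, K odd, leaf O4, ALPHA, row R4: a closed triple after a double closing
-/

set_option linter.unusedSectionVars false

namespace Pool.Agent.B5.KO.H71

open scoped LaurentPolynomial
open Pool.Agent.B5.KO57 Pool.Agent.B5.KO67

section

variable {O : Type} [CommRing O] [IsDomain O] [IsPrincipalIdealRing O] [Coef O] {P : Type}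
  [Fintype P] [DecidableEq P] {L : Type} [AddCommGroup L] [Module.Free ℤ L] [Module.Finite ℤ L]
  {phi : L →+ (P → ℤ)} {D : AO O L} {S S1 : L}

/-- The class of an exponent in the double kernel. -/
noncomputable def pr2 (Y : Dp phi S S1) (x : L) : Ker Y.k1 :=
  prj Y.k1 Y.T Y.h1 (prj (co phi Y.i0) S Y.h0 x)

/-- The load of a class in the double kernel. -/
noncomputable def ld2 (Y : Dp phi S S1) (u0 u1 e : (RO O)ˣ) (x : L) : (RO O)ˣ :=
  e * u0 ^ (-(co phi Y.i0 x)) * u1 ^ (-(Y.k1 (prj (co phi Y.i0) S Y.h0 x)))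

/-- A functional on the double kernel. -/
def rs2 (Y : Dp phi S S1) (nu : L →+ ℤ) : Ker Y.k1 →+ ℤ :=
  (nu.comp (incl (Ker (co phi Y.i0)))).comp (incl (Ker Y.k1))

theorem pr2_coe (Y : Dp phi S S1) (x : L) : ((pr2 Y x : Ker Y.k1) : Ker (co phi Y.i0)) =
    prj (co phi Y.i0) S Y.h0 x - Y.k1 (prj (co phi Y.i0) S Y.h0 x) • Y.T := prj_coe _ _ _ _

theorem pr2_coe' (Y : Dp phi S S1) (x : L) :
    (((pr2 Y x : Ker Y.k1) : Ker (co phi Y.i0)) : L) =
      x - co phi Y.i0 x • S - Y.k1 (prj (co phi Y.i0) S Y.h0 x) • S1 := by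
  rw [pr2_coe]
  have h1 : (((prj (co phi Y.i0) S Y.h0 x - Y.k1 (prj (co phi Y.i0) S Y.h0 x) • Y.T) :
      Ker (co phi Y.i0)) : L) = ((prj (co phi Y.i0) S Y.h0 x : Ker (co phi Y.i0)) : L) -
        Y.k1 (prj (co phi Y.i0) S Y.h0 x) • ((Y.T : Ker (co phi Y.i0)) : L) := rfl
  rw [h1, Y.eT, prj_coe]

/-- The class of an exponent without the ports `i0`, `i1`. -/
theorem pr2_of (Y : Dp phi S S1) {x : L} (h0 : phi x Y.i0 = 0) (h1 : phi x Y.i1 = 0) :
    (((pr2 Y x : Ker Y.k1) : Ker (co phi Y.i0)) : L) = x ∧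
      ∀ (u0 u1 e : (RO O)ˣ), ld2 Y u0 u1 e x = e := by
  have k0 : co phi Y.i0 x = 0 := h0
  have k1 : Y.k1 (prj (co phi Y.i0) S Y.h0 x) = 0 := by
    rw [Y.hk, prj_coe, k0, zero_smul, sub_zero]
    exact h1
  constructor
  · rw [pr2_coe', k0, k1, zero_smul, zero_smul, sub_zero, sub_zero]
  · intro u0 u1 e
    unfold ld2
    rw [k0, k1, neg_zero, zpow_zero, zpow_zero, mul_one, mul_one]

theorem rs2_pr2 (Y : Dp phi S S1) {nu : L →+ ℤ} (h0 : nu S = 0) (h1 : nu S1 = 0) (x : L) :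
    rs2 Y nu (pr2 Y x) = nu x := by
  change nu (((pr2 Y x : Ker Y.k1) : Ker (co phi Y.i0)) : L) = nu x
  rw [pr2_coe', map_sub, map_sub, map_zsmul, map_zsmul, h0, h1, smul_zero, smul_zero, sub_zero,
    sub_zero]

/-- The functional of the second port in the marking of the first kernel. -/
theorem k1_eq (Y : Dp phi S S1) (h : phi S Y.i1 = 0) : Y.k1 = co (phO phi S Y.i0) Y.i1 := by
  ext a
  rw [Y.hk]
  change _ = if phi S Y.i1 = 0 then phi (a : L) Y.i1 else 0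
  rw [if_pos h]

/-- A CLOSED TRIPLE AFTER A DOUBLE CLOSING. -/
theorem Tri.dcl {r : ZMod 3 → L} {e : ZMod 3 → (RO O)ˣ} {mu : ZMod 3 → L →+ ℤ}
    (h : Tri phi D r e mu) (Y : Dp phi S S1) (hS : ∀ i, mu i S = 0) (hS1 : ∀ i, mu i S1 = 0)
    (dis : ∀ p, phi S p = 0 ∨ phi S1 p = 0) (u0 u1 : (RO O)ˣ) :
    Tri (psd Y) (dc Y u0 u1 D) (fun l => pr2 Y (r l)) (fun l => ld2 Y u0 u1 (e l) (r l))
      (fun l => rs2 Y (mu l)) := by
  obtain ⟨i0, h0, T, eT, i1, k1, hk, h1⟩ := Y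
  have hS1p : phi S1 i1 = 1 := by rw [← eT, ← hk]; exact h1
  have hSi1 : phi S i1 = 0 := (dis i1).resolve_right (by rw [hS1p]; norm_num)
  have hk1 : k1 = co (phO phi S i0) i1 :=
    k1_eq (⟨i0, h0, T, eT, i1, k1, hk, h1⟩ : Dp phi S S1) hSi1
  subst hk1
  have t1 := h.close (S := S) (i0 := i0) h0 hS u0
  have t2 := t1.close (S := T) (i0 := i1) h1 (fun i => by
    change mu i (T : L) = 0
    rw [eT]
    exact hS1 i) u1
  have hpsi : psd (⟨i0, h0, T, eT, i1, co (phO phi S i0) i1, hk, h1⟩ : Dp phi S S1) =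
      phO (phO phi S i0) T i1 := psd_eq phi i0 h0 T eT i1 hk h1
  rw [hpsi]
  exact t2

/-- FAMILIES OF RAYS AFTER A DOUBLE CLOSING. -/
theorem _root_.Pool.Agent.B5.KO57.Fam.dcl {n : ℕ} {v : Fin (n + 2) → L} {nu : Fin (n + 2) → L →+ ℤ}
    (h : Fam phi D v nu) (Y : Dp phi (v 0) (v 1))
    (dis : ∀ p, phi (v 0) p = 0 ∨ phi (v 1) p = 0) (u0 u1 : (RO O)ˣ) :
    Fam (psd Y) (dc Y u0 u1 D) (fun i : Fin n => pr2 Y (v i.succ.succ))
      (fun i : Fin n => rs2 Y (nu i.succ.succ)) := by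
  obtain ⟨i0, h0, T, eT, i1, k1, hk, h1⟩ := Y
  have hS1p : phi (v 1) i1 = 1 := by rw [← eT, ← hk]; exact h1
  have hSi1 : phi (v 0) i1 = 0 := (dis i1).resolve_right (by rw [hS1p]; norm_num)
  have hk1 : k1 = co (phO phi (v 0) i0) i1 :=
    k1_eq (⟨i0, h0, T, eT, i1, k1, hk, h1⟩ : Dp phi (v 0) (v 1)) hSi1
  subst hk1
  have t1 := h.close (i0 := i0) h0 u0
  -- `prj (v 1) = T`
  have hT : prj (co phi i0) (v 0) h0 (v 1) = T := by
    apply Subtype.ext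
    rw [prj_coe, eT]
    have h2 : co phi i0 (v 1) = 0 := by
      have h3 : co phi i0 (T : L) = 0 := T.2
      rwa [eT] at h3
    rw [h2, zero_smul, sub_zero]
  have hpsi : psd (⟨i0, h0, T, eT, i1, co (phO phi (v 0) i0) i1, hk, h1⟩ : Dp phi (v 0) (v 1)) =
      phO (phO phi (v 0) i0) T i1 := psd_eq phi i0 h0 T eT i1 hk h1
  rw [hpsi]
  subst hT
  exact t1.close (i0 := i1) h1 u1

end

section

variable {P : Type} [Fintype P] [DecidableEq P] {L : Type} [AddCommGroup L] [Module.Free ℤ L]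
  [Module.Finite ℤ L] {phi : L →+ (P → ℤ)} {D : AO ℤ L} {S S1 : L} {Z' : ZMod 3 → L}
  {e' : ZMod 3 → (RO ℤ)ˣ} {mu' : ZMod 3 → L →+ ℤ} {n0 n1 : L →+ ℤ}

/-- A pair of rays beside a closed triple of rays, with dual functionals. -/
structure Prr {P L : Type} [Fintype P] [DecidableEq P] [AddCommGroup L] (phi : L →+ (P → ℤ))
    (D : AO ℤ L) (S S1 : L) (Z' : ZMod 3 → L) (e' : ZMod 3 → (RO ℤ)ˣ)
    (mu' : ZMod 3 → L →+ ℤ) (n0 n1 : L →+ ℤ) : Prop where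
  r0 : Ray D S
  r1 : Ray D S1
  dis : ∀ p, phi S p = 0 ∨ phi S1 p = 0
  tri : Tri phi D Z' e' mu'
  ray : ∀ l, Ray D (Z' l)
  m0 : ∀ l, mu' l S = 0
  m1 : ∀ l, mu' l S1 = 0
  n00 : n0 S = -1
  n01 : n0 S1 = 0
  n0z : ∀ l, n0 (Z' l) = 0
  n11 : n1 S1 = -1
  n10 : n1 S = 0
  n1z : ∀ l, n1 (Z' l) = 0
  p0 : ∀ T, Ray D T → T ≠ S → 0 ≤ n0 T
  p1 : ∀ T, Ray D T → T ≠ S1 → 0 ≤ n1 T
  oth : ∀ l T, Ray D T → T ≠ Z' (l + 1) → T ≠ Z' (l - 1) → mu' l T = 0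

/-- The family `S`, `S1`, `Z' l`, `Z' (l + 1)`. -/
theorem Prr.fam (h : Prr phi D S S1 Z' e' mu' n0 n1) (hF : FspS) (hRS : RaySpanS) (hE : E2S)
    (fp : FP phi D) (h2 : 2 ≤ Module.finrank ℤ L) (l : ZMod 3) :
    Fam phi D ![S, S1, Z' l, Z' (l + 1)] ![n0, n1, mu' (l + 1), -mu' l] := by
  have a1 : mu' (l + 1) (Z' l) = -1 := h.tri.prv' l
  have a2 : mu' (l + 1) (Z' (l + 1)) = 0 := h.tri.slf (l + 1)
  have a3 : mu' l (Z' (l + 1)) = 1 := h.tri.nxt l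
  have a4 : mu' l (Z' l) = 0 := h.tri.slf l
  refine mk_fam hF hRS hE fp h2 ?_ ?_ ?_ ?_
  · intro i
    fin_cases i
    · exact h.r0
    · exact h.r1
    · exact h.ray l
    · exact h.ray (l + 1)
  · intro i
    fin_cases i
    · exact h.n00
    · exact h.n11
    · exact a1
    · change -(mu' l (Z' (l + 1))) = -1
      rw [a3]
  · intro i j hij
    fin_cases i <;> fin_cases j
    · exact absurd rfl hij
    · exact h.n01
    · exact h.n0z l
    · exact h.n0z (l + 1)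
    · exact h.n10
    · exact absurd rfl hij
    · exact h.n1z l
    · exact h.n1z (l + 1)
    · exact h.m0 (l + 1)
    · exact h.m1 (l + 1)
    · exact absurd rfl hij
    · exact a2
    · change -(mu' l S) = 0
      rw [h.m0 l, neg_zero]
    · change -(mu' l S1) = 0
      rw [h.m1 l, neg_zero]
    · change -(mu' l (Z' l)) = 0
      rw [a4, neg_zero]
    · exact absurd rfl hij
  · intro i T hT hne
    fin_cases i
    · exact h.p0 T hT hne
    · exact h.p1 T hT hne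
    · change 0 ≤ mu' (l + 1) T
      by_cases h1 : T = Z' (l + 1 + 1)
      · rw [h1, h.tri.nxt]
        norm_num
      · rw [h.oth (l + 1) T hT h1 (by rw [z3c]; exact hne)]
    · change 0 ≤ -(mu' l T)
      by_cases h1 : T = Z' (l - 1)
      · rw [h1, h.tri.prv]
        norm_num
      · rw [h.oth l T hT hne h1, neg_zero]

/-- (R4) THE CONTACT: the triple beside a closed pair in `V'' = c H`. -/
theorem Prr.con (h : Prr phi D S S1 Z' e' mu' n0 n1) (hF : FspS) (hRS : RaySpanS) (hE : E2S)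
    (fp : FP phi D) (h2 : 2 ≤ Module.finrank ℤ L) (Y : Dp phi S S1) {u0 u1 : (RO ℤ)ˣ}
    {c : RO ℤ} (hc : c ≠ 0) {H : AO ℤ (Ker Y.k1)} (hV : dc Y u0 u1 D = cst c * H)
    (hD : DD (psd Y) H) (hne : ∀ l, (dc Y u0 u1 D).coeff (pr2 Y (Z' l)) ≠ 0) :
    Tri (psd Y) H (fun l => pr2 Y (Z' l)) (fun l => ld2 Y u0 u1 (e' l) (Z' l))
      (fun l => rs2 Y (mu' l)) ∧ (∀ l, Ray H (pr2 Y (Z' l))) ∧
      ImT (psd Y) (fun l => pr2 Y (Z' l)) := by
  have hs : supp (dc Y u0 u1 D) = supp H := by rw [hV]; exact cst_supp hc H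
  have t1 := h.tri.dcl Y h.m0 h.m1 h.dis u0 u1
  rw [hV] at t1
  have t2 := (Tri.cst_iff hc).mp t1
  have hfam : ∀ l, Fam (psd Y) H ![pr2 Y (Z' l), pr2 Y (Z' (l + 1))]
      ![rs2 Y (mu' (l + 1)), rs2 Y (-mu' l)] := by
    intro l
    have f1 := (h.fam hF hRS hE fp h2 l).dcl (n := 2) Y h.dis u0 u1
    have f2 := f1.congr hs.symm
    have e1 : (fun i : Fin 2 => pr2 Y ((![S, S1, Z' l, Z' (l + 1)] : Fin 4 → L) i.succ.succ)) =
        ![pr2 Y (Z' l), pr2 Y (Z' (l + 1))] := by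
      funext i
      fin_cases i <;> rfl
    have e2 : (fun i : Fin 2 => rs2 Y
        ((![n0, n1, mu' (l + 1), -mu' l] : Fin 4 → L →+ ℤ) i.succ.succ)) =
        ![rs2 Y (mu' (l + 1)), rs2 Y (-mu' l)] := by
      funext i
      fin_cases i <;> rfl
    rw [← e1, ← e2]
    exact f2
  refine ⟨t2, fun l => ?_, ?_⟩
  · refine (hfam l).ray hD.inj hD.bin (i := 0) ?_
    have h3 := hne l
    rw [hV, cst_co] at h3
    exact right_ne_zero_of_mul h3
  · have key : ∀ l, ∀ b : Ker Y.k1, (∀ p, psd Y (pr2 Y (Z' l)) p = 0 →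
        psd Y (pr2 Y (Z' (l + 1))) p = 0 → psd Y b p = 0) →
        ∃ x y : ℤ, b = x • pr2 Y (Z' l) + y • pr2 Y (Z' (l + 1)) := by
      intro l b hb
      have h3 := (hfam l).prt Finset.univ ⟨0, Finset.mem_univ _⟩ b (fun q hq =>
        hb q (hq 0 (Finset.mem_univ _)) (hq 1 (Finset.mem_univ _)))
      rw [Fin.sum_univ_two] at h3
      exact ⟨_, _, h3⟩
    intro i k hik b hb
    rcases z3h i k with h3 | h3 | h3
    · exact absurd h3.symm hik
    · subst h3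
      exact key i b hb
    · have h4 : i = k + 1 := by rw [h3, z3d]
      subst h4
      obtain ⟨x, y, hxy⟩ := key k b (fun p q1 q2 => hb p q2 q1)
      exact ⟨y, x, by rw [hxy, add_comm]⟩

end

end Pool.Agent.B5.KO.H71
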