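import Pool.Agent.Lib.MP_b5021c_nt.KO.H71.Cv2
import Pool.Agent.Lib.MP_b5021c_nt.KO.H23.End

/-!
# MP_b5021c_nt, all `θ`, K odd, leaf O4, ALPHA: the identity of the row END (cycles of length 3, 4)
-/

set_option linter.unusedSectionVars false

namespace Pool.Agent.B5.KO.H71

open scoped LaurentPolynomial
open Polynomial
open Pool.Agent.B5.KE

section

variable {P : Type} [Fintype P] [DecidableEq P] {L : Type} [AddCommGroup L] [Module.Free ℤ L]
  [Module.Finite ℤ L] {phi : L →+ (P → ℤ)} {D : AO ℤ L} {eta : L → (RO ℤ)ˣ}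

/-- A functional which is zero on all rays is zero. -/
theorem nu_rays (hray : rk {b | Ray D b} = Module.finrank ℤ L) {nu : L →+ ℤ}
    (hR : ∀ T, Ray D T → nu T = 0) (a : L) : nu a = 0 := by
  have h1 : Submodule.span ℤ {b | Ray D b} ≤ LinearMap.ker nu.toIntLinearMap := by
    rw [Submodule.span_le]
    intro b hb
    exact hR b hb
  have h2 : Module.finrank ℤ L ≤ Module.finrank ℤ (LinearMap.ker nu.toIntLinearMap) := by
    rw [← hray]
    exact Submodule.finrank_mono h1
  have h3 := Submodule.finrank_quotient_add_finrank (LinearMap.ker nu.toIntLinearMap)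
  have h3' : Module.finrank ℤ (L ⧸ LinearMap.ker nu.toIntLinearMap) =
      Module.finrank ℤ (LinearMap.range nu.toIntLinearMap) :=
    LinearEquiv.finrank_eq (LinearMap.quotKerEquivRange nu.toIntLinearMap)
  have h4 : Module.finrank ℤ (LinearMap.range nu.toIntLinearMap) = 0 := by omega
  have h5 : LinearMap.range nu.toIntLinearMap = ⊥ := Submodule.finrank_eq_zero.mp h4
  have h6 : nu.toIntLinearMap a ∈ LinearMap.range nu.toIntLinearMap := ⟨a, rfl⟩
  rw [h5] at h6
  exact h6

/-- The functionals of three consecutive rays of a cycle of length three or four. -/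
theorem cyc_rel {k : ℕ} (hk : k ≤ 1) {Z : ZMod (k + 3) → L} {mu : ZMod (k + 3) → L →+ ℤ}
    (hray : rk {b | Ray D b} = Module.finrank ℤ L) (h : Cyc phi D eta k Z mu)
    (i : ZMod (k + 3)) : ∃ al : ℤ, (∀ a, mu (i - 1) a + mu (i + 1) a + al * mu i a = 0) ∧
      mu (i - 1) (Z (i + 1)) = -al := by
  have hslf : ∀ n, mu n (Z n) = 0 := fun n => cyc_sf h n
  rcases (by omega : k = 0 ∨ k = 1) with rfl | rfl
  · have e1 : ∀ i : ZMod (0 + 3), i + 1 + 1 = i - 1 := by decide
    have e2 : ∀ i : ZMod (0 + 3), i - 1 - 1 = i + 1 := by decide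
    refine ⟨1, fun a => ?_, ?_⟩
    · refine nu_rays hray (nu := mu (i - 1) + mu (i + 1) + (1 : ℤ) • mu i) (fun T hT => ?_) a
      change mu (i - 1) T + mu (i + 1) T + (1 : ℤ) • mu i T = 0
      rw [one_smul]
      by_cases h0 : T = Z i
      · have a1 : mu (i - 1) (Z i) = 1 := by
          have := h.nxt (i - 1)
          rwa [sub_add_cancel] at this
        have a2 : mu (i + 1) (Z i) = -1 := by
          have := h.prv (i + 1)
          rwa [add_sub_cancel_right] at this
        rw [h0, a1, a2, hslf]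
        norm_num
      by_cases h1 : T = Z (i + 1)
      · have a1 : mu (i - 1) (Z (i + 1)) = -1 := by
          have := h.prv (i - 1)
          rwa [e2] at this
        rw [h1, a1, hslf, h.nxt]
        norm_num
      by_cases h2 : T = Z (i - 1)
      · have a1 : mu (i + 1) (Z (i - 1)) = 1 := by
          have := h.nxt (i + 1)
          rwa [e1] at this
        rw [h2, a1, hslf, h.prv]
        norm_num
      · rw [h.oth i T hT h1 h2, h.oth (i + 1) T hT (by rw [e1]; exact h2)
          (by rw [add_sub_cancel_right]; exact h0), h.oth (i - 1) T hT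
          (by rw [sub_add_cancel]; exact h0) (by rw [e2]; exact h1)]
        norm_num
    · have := h.prv (i - 1)
      rwa [e2] at this
  · have e1 : ∀ i : ZMod (1 + 3), i - 1 - 1 = i + 1 + 1 := by decide
    have n1 : ∀ i : ZMod (1 + 3), i + 1 ≠ i - 1 + 1 := by decide
    have n2 : ∀ i : ZMod (1 + 3), i + 1 ≠ i - 1 - 1 := by decide
    have n3 : ∀ i : ZMod (1 + 3), i - 1 ≠ i + 1 + 1 := by decide
    have n4 : ∀ i : ZMod (1 + 3), i - 1 ≠ i + 1 - 1 := by decide
    have a0 : mu (i - 1) (Z (i + 1)) = 0 := h.oth (i - 1) _ (h.mtl i).r1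
      (fun h5 => n1 i (h.inj h5)) (fun h5 => n2 i (h.inj h5))
    refine ⟨0, fun a => ?_, by rw [a0, neg_zero]⟩
    rw [zero_mul, add_zero]
    refine nu_rays hray (nu := mu (i - 1) + mu (i + 1)) (fun T hT => ?_) a
    change mu (i - 1) T + mu (i + 1) T = 0
    by_cases h0 : T = Z i
    · have a1 : mu (i - 1) (Z i) = 1 := by
        have := h.nxt (i - 1)
        rwa [sub_add_cancel] at this
      have a2 : mu (i + 1) (Z i) = -1 := by
        have := h.prv (i + 1)
        rwa [add_sub_cancel_right] at this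
      rw [h0, a1, a2]
      norm_num
    by_cases h1 : T = Z (i + 1 + 1)
    · have a1 : mu (i - 1) (Z (i + 1 + 1)) = -1 := by
        have := h.prv (i - 1)
        rwa [e1] at this
      rw [h1, a1, h.nxt]
      norm_num
    · rw [h.oth (i + 1) T hT h1 (by rw [add_sub_cancel_right]; exact h0), h.oth (i - 1) T hT
        (by rw [sub_add_cancel]; exact h0) (by rw [e1]; exact h1)]
      norm_num

/-- THE FLIP at a ray, for an exponent without a given port of the ray. -/
theorem flp (hF1 : F1S) (hD : DD phi D) {S : L} {e : (RO ℤ)ˣ} (hS : S ∈ supp D) (hS0 : S ≠ 0)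
    {p : P} (hp : phi S p = 1) {x : L} (hx : x ∉ US e S D) (hxp : phi x p = 0) :
    D.coeff x + (e : RO ℤ) * D.coeff (x + S) = 0 := by
  have hf := hF1 ℤ P L phi D S e hD.inj hD.bin (hD.bin S hS) hS0
  by_cases hdis : ∀ i, phi x i = 0 ∨ phi S i = 0
  · exact (hf x hx).2 hdis
  · push Not at hdis
    obtain ⟨i, h1, h2⟩ := hdis
    have hSi : phi S i = 1 := (hD.bin S hS i).resolve_left h2
    have h3 : D.coeff x = 0 := by
      by_contra hne
      exact hne ((hf x hx).1 ⟨i, (hD.bin x hne i).resolve_left h1, hSi⟩ ⟨p, hxp, hp⟩)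
    have h4 : D.coeff (x + S) = 0 := by
      by_contra hne
      have h5 : x + S ∉ US e S D := fun h6 => hx (by
        have := Submodule.sub_mem _ h6 (H47.S_mem e S D)
        rwa [add_sub_cancel_right] at this)
      have h6 : phi (x + S) p = 1 := by rw [map_add, Pi.add_apply, hxp, hp, zero_add]
      have h7 : phi (x + S) i = 0 := by
        rcases hD.bin _ hne i with h8 | h8
        · exact h8
        · exfalso
          rw [map_add, Pi.add_apply, hSi] at h8
          exact h1 (by linarith)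
      exact hne ((hf _ h5).1 ⟨p, h6, hp⟩ ⟨i, h7, hSi⟩)
    rw [h3, h4, mul_zero, add_zero]

/-- (END) THE IDENTITY OF THE CLASSES. -/
theorem end_id (hF1 : F1S) (hD : DD phi D) (hray : rk {b | Ray D b} = Module.finrank ℤ L)
    {k : ℕ} (hk : k ≤ 1) {Z : ZMod (k + 3) → L} {mu : ZMod (k + 3) → L →+ ℤ}
    (h : Cyc phi D eta k Z mu) (i : ZMod (k + 3)) (t0 t1 : RO ℤ) {p0 p1 pm : P}
    (hp0 : phi (Z i) p0 = 1) (hp1 : phi (Z (i + 1)) p1 = 1) (hpm : phi (Z (i - 1)) pm = 1)
    {b : L} (hb0 : phi b p0 = 0) (hb1 : phi b p1 = 0) (hbm : phi b pm = 0)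
    {E V : L → RO ℤ} (hE : ∀ x, E x = D.coeff x + (eta (Z i) : RO ℤ) * t0 * D.coeff (x + Z i))
    (hV : ∀ x, V x = E x + (eta (Z (i + 1)) : RO ℤ) * t1 * E (x + Z (i + 1))) :
    E b + t1 * (eta (Z (i - 1)) : RO ℤ) * E (b + Z (i - 1)) = V b ∨
      E b + t1 * (eta (Z (i - 1)) : RO ℤ) * E (b + Z (i - 1)) =
        t1 * (eta (Z (i - 1)) : RO ℤ) * V (b + Z (i - 1)) ∨
      E b + t1 * (eta (Z (i - 1)) : RO ℤ) * E (b + Z (i - 1)) = 0 := by
  obtain ⟨al, hal, hZ1⟩ := cyc_rel hk hray h i
  have hslf : ∀ n, mu n (Z n) = 0 := fun n => cyc_sf h n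
  -- the values of the functionals
  have m01 : mu i (Z (i + 1)) = 1 := h.nxt i
  have m0m : mu i (Z (i - 1)) = -1 := h.prv i
  have m00 : mu i (Z i) = 0 := hslf i
  have m10 : mu (i + 1) (Z i) = -1 := by
    have := h.prv (i + 1)
    rwa [add_sub_cancel_right] at this
  have mm0 : mu (i - 1) (Z i) = 1 := by
    have := h.nxt (i - 1)
    rwa [sub_add_cancel] at this
  -- disjointness
  have ne1 : i ≠ i + 1 := KO29.ne_succ i
  have nem : i - 1 ≠ i := by
    have := KO29.ne_succ (i - 1)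
    rwa [sub_add_cancel] at this
  have ne1m : i - 1 ≠ i + 1 := by
    intro h5
    have h6 := congrArg (fun n => n + 1) h5
    simp only [sub_add_cancel] at h6
    have h7 : ∀ (k : ℕ), k ≤ 1 → ∀ i : ZMod (k + 3), i ≠ i + 1 + 1 := by
      intro k hk
      rcases (by omega : k = 0 ∨ k = 1) with rfl | rfl
      · decide
      · decide
    exact h7 k hk i h6
  have z {m n : ZMod (k + 3)} {p : P} (hmn : m ≠ n) (hp : phi (Z n) p = 1) : phi (Z m) p = 0 :=
    (h.dis m n hmn p).resolve_right (by rw [hp]; norm_num)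
  have z1_0 : phi (Z (i + 1)) p0 = 0 := z ne1.symm hp0
  have zm_0 : phi (Z (i - 1)) p0 = 0 := z nem hp0
  have z0_1 : phi (Z i) p1 = 0 := z ne1 hp1
  have zm_1 : phi (Z (i - 1)) p1 = 0 := z ne1m hp1
  have z0_m : phi (Z i) pm = 0 := z nem.symm hpm
  have z1_m : phi (Z (i + 1)) pm = 0 := z ne1m.symm hpm
  -- the flips
  have sp : ∀ n, Z n ∈ supp D ∧ Z n ≠ 0 := fun n => ⟨(h.mtl n).r0.1, (h.mtl n).r0.2.1⟩
  have F0 : ∀ x, mu i x ≠ 0 → phi x p0 = 0 →
      D.coeff x + (eta (Z i) : RO ℤ) * D.coeff (x + Z i) = 0 := fun x hx hp =>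
    flp hF1 hD (sp i).1 (sp i).2 hp0 (fun h5 => hx ((h.ker i x).mp h5)) hp
  have F1 : ∀ x, mu (i + 1) x ≠ 0 → phi x p1 = 0 →
      D.coeff x + (eta (Z (i + 1)) : RO ℤ) * D.coeff (x + Z (i + 1)) = 0 := fun x hx hp =>
    flp hF1 hD (sp _).1 (sp _).2 hp1 (fun h5 => hx ((h.ker _ x).mp h5)) hp
  have Fm : ∀ x, mu (i - 1) x ≠ 0 → phi x pm = 0 →
      D.coeff x + (eta (Z (i - 1)) : RO ℤ) * D.coeff (x + Z (i - 1)) = 0 := fun x hx hp =>
    flp hF1 hD (sp _).1 (sp _).2 hpm (fun h5 => hx ((h.ker _ x).mp h5)) hp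
  have V0 : ∀ x, mu i x ≠ 0 → mu i x ≠ 1 → mu i x ≠ -1 → D.coeff x = 0 := by
    intro x h1 h2 h3
    by_contra hne
    rcases h.val i x hne with h4 | h4 | h4
    · exact h1 h4
    · exact h2 h4
    · exact h3 h4
  have e0 := (eta (Z i)).ne_zero
  have e1 := (eta (Z (i + 1))).ne_zero
  have em := (eta (Z (i - 1))).ne_zero
  -- the exponents
  have s1 : b + Z i + Z (i + 1) = b + Z (i + 1) + Z i := by abel
  have s2 : b + Z i + Z (i - 1) = b + Z (i - 1) + Z i := by abel
  have s3 : b + Z (i + 1) + Z i + Z (i - 1) = b + Z (i - 1) + Z (i + 1) + Z i := by abel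
  have s4 : b + Z (i + 1) + Z (i - 1) = b + Z (i - 1) + Z (i + 1) := by abel
  have hrel := hal b
  by_cases c0 : mu i b = 0
  · -- `mu i b = 0`
    left
    have g1 := F0 (b + Z (i + 1)) (by rw [map_add, c0, m01]; norm_num)
      (by rw [map_add, Pi.add_apply, hb0, z1_0, add_zero])
    have gm := F0 (b + Z (i - 1)) (by rw [map_add, c0, m0m]; norm_num)
      (by rw [map_add, Pi.add_apply, hb0, zm_0, add_zero])
    rw [c0, mul_zero, add_zero] at hrel
    have key : (eta (Z (i - 1)) : RO ℤ) * D.coeff (b + Z (i - 1)) =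
        (eta (Z (i + 1)) : RO ℤ) * D.coeff (b + Z (i + 1)) := by
      by_cases c1 : mu (i + 1) b = 1
      · have k1 := F1 b (by rw [c1]; norm_num) hb1
        have k2 := Fm b (by omega) hbm
        linear_combination k2 - k1
      · have k1 := F1 (b + Z i) (by rw [map_add, m10]; omega)
          (by rw [map_add, Pi.add_apply, hb1, z0_1, add_zero])
        have k2 := Fm (b + Z i) (by rw [map_add, mm0]; omega)
          (by rw [map_add, Pi.add_apply, hbm, z0_m, add_zero])
        rw [s1] at k1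
        rw [s2] at k2
        refine mul_left_cancel₀ e0 ?_
        linear_combination (eta (Z (i - 1)) : RO ℤ) * gm * (eta (Z i) : RO ℤ) -
          (eta (Z i) : RO ℤ) * (eta (Z (i + 1)) : RO ℤ) * g1 +
          (eta (Z i) : RO ℤ) * (eta (Z i) : RO ℤ) * (k1 - k2)
    rw [hV, hE b, hE (b + Z (i - 1)), hE (b + Z (i + 1))]
    linear_combination (t1 * (1 - t0)) * key + (t1 * t0 * (eta (Z (i - 1)) : RO ℤ)) * gm -
      (t1 * t0 * (eta (Z (i + 1)) : RO ℤ)) * g1
  -- from a flip
  have fz : ∀ {x y : L} {e : (RO ℤ)ˣ}, D.coeff x + (e : RO ℤ) * D.coeff y = 0 →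
      D.coeff x = 0 → D.coeff y = 0 := by
    intro x y e h1 h2
    rw [h2, zero_add] at h1
    exact (mul_eq_zero.mp h1).resolve_left e.ne_zero
  have fz' : ∀ {x y : L} {e : (RO ℤ)ˣ}, D.coeff x + (e : RO ℤ) * D.coeff y = 0 →
      D.coeff y = 0 → D.coeff x = 0 := by
    intro x y e h1 h2
    rwa [h2, mul_zero, add_zero] at h1
  have a0 := F0 b c0 hb0
  by_cases c1 : mu i b = 1
  · right
    left
    have d1 : D.coeff (b + Z (i + 1)) = 0 := V0 _ (by rw [map_add, c1, m01]; norm_num)
      (by rw [map_add, c1, m01]; norm_num) (by rw [map_add, c1, m01]; norm_num)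
    have d2 : D.coeff (b + Z (i + 1) + Z i) = 0 := V0 _
      (by rw [map_add, map_add, c1, m01, m00]; norm_num)
      (by rw [map_add, map_add, c1, m01, m00]; norm_num)
      (by rw [map_add, map_add, c1, m01, m00]; norm_num)
    have d3 : D.coeff b = 0 := by
      by_cases c2 : mu (i + 1) b = 0
      · have k1 := F1 (b + Z i) (by rw [map_add, c2, m10]; norm_num)
          (by rw [map_add, Pi.add_apply, hb1, z0_1, add_zero])
        rw [s1] at k1
        exact fz' a0 (fz' k1 d2)
      · exact fz' (F1 b c2 hb1) d1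
    have d4 : D.coeff (b + Z i) = 0 := fz a0 d3
    have k3 := F0 (b + Z (i - 1) + Z (i + 1)) (by rw [map_add, map_add, c1, m0m, m01]; norm_num)
      (by rw [map_add, map_add, Pi.add_apply, Pi.add_apply, hb0, zm_0, z1_0, add_zero, add_zero])
    have d5 : D.coeff (b + Z (i - 1) + Z (i + 1)) = 0 := by
      by_cases c2 : mu (i - 1) (b + Z (i + 1)) = 0
      · have k1 := Fm (b + Z (i + 1) + Z i) (by rw [map_add, c2, mm0]; norm_num)
          (by rw [map_add, map_add, Pi.add_apply, Pi.add_apply, hbm, z1_m, z0_m, add_zero,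
            add_zero])
        rw [s3] at k1
        exact fz' k3 (fz k1 d2)
      · have k1 := Fm (b + Z (i + 1)) c2
          (by rw [map_add, Pi.add_apply, hbm, z1_m, add_zero])
        rw [s4] at k1
        exact fz k1 d1
    have d6 : D.coeff (b + Z (i - 1) + Z (i + 1) + Z i) = 0 := fz k3 d5
    rw [hV, hE b, hE (b + Z (i - 1) + Z (i + 1)), d3, d4, d5, d6]
    ring
  · right
    right
    have d3 : D.coeff b = 0 := by
      by_cases c2 : mu i b = -1
      · have d1 : D.coeff (b + Z (i - 1)) = 0 := V0 _ (by rw [map_add, c2, m0m]; norm_num)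
          (by rw [map_add, c2, m0m]; norm_num) (by rw [map_add, c2, m0m]; norm_num)
        have d2 : D.coeff (b + Z (i - 1) + Z i) = 0 := V0 _
          (by rw [map_add, map_add, c2, m0m, m00]; norm_num)
          (by rw [map_add, map_add, c2, m0m, m00]; norm_num)
          (by rw [map_add, map_add, c2, m0m, m00]; norm_num)
        by_cases c3 : mu (i - 1) b = 0
        · have k1 := Fm (b + Z i) (by rw [map_add, c3, mm0]; norm_num)
            (by rw [map_add, Pi.add_apply, hbm, z0_m, add_zero])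
          rw [s2] at k1
          exact fz' a0 (fz' k1 d2)
        · exact fz' (Fm b c3 hbm) d1
      · exact V0 b c0 c1 c2
    have d4 : D.coeff (b + Z i) = 0 := fz a0 d3
    have k3 := F0 (b + Z (i - 1)) (by rw [map_add, m0m]; omega)
      (by rw [map_add, Pi.add_apply, hb0, zm_0, add_zero])
    have d5 : D.coeff (b + Z (i - 1)) = 0 := by
      by_cases c3 : mu (i - 1) b = 0
      · have k1 := Fm (b + Z i) (by rw [map_add, c3, mm0]; norm_num)
          (by rw [map_add, Pi.add_apply, hbm, z0_m, add_zero])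
        rw [s2] at k1
        exact fz' k3 (fz k1 d4)
      · exact fz (Fm b c3 hbm) d3
    have d6 : D.coeff (b + Z (i - 1) + Z i) = 0 := fz k3 d5
    rw [hE b, hE (b + Z (i - 1)), d3, d4, d5, d6]
    ring

end

end Pool.Agent.B5.KO.H71
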