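import Pool.Agent.Lib.MP_b5021c_nt.KO.H71.Mna

/-!
# MP_b5021c_nt, all `θ`, K odd, leaf O4, ALPHA: the content of a z-free `V''` is a unit (END)
-/

set_option linter.unusedSectionVars false

namespace Pool.Agent.B5.KO.H71

open scoped LaurentPolynomial
open Polynomial
open Pool.Agent.B5.KE

section

theorem gp_co {R : Type} [Semiring R] {K : Type} [AddCommGroup K] (lam : K →+ ℤ) (c : ℤ)
    (G : AddMonoidAlgebra R K) (a : K) :
    (gpart lam c G).coeff a = if lam a = c then G.coeff a else 0 := by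
  unfold gpart
  rw [AddMonoidAlgebra.coeff_ofCoeff]
  exact Finsupp.filter_apply _ _ _

theorem cst_ml {O : Type} [CommRing O] {K : Type} [AddCommGroup K] (a b : RO O) :
    (cst a : AO O K) * cst b = cst (a * b) := by
  unfold cst
  rw [AddMonoidAlgebra.single_mul_single, add_zero]

theorem cst_on {O : Type} [CommRing O] {K : Type} [AddCommGroup K] :
    (cst (1 : RO O) : AO O K) = 1 := by
  unfold cst
  exact AddMonoidAlgebra.one_def.symm

/-- Divisibility by `1 - w^T / ε`. -/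
theorem bin_fac {K : Type} [AddCommGroup K] (Q : CA K) (T : K) (mu : K →+ ℤ) (hT : mu T = 1)
    (hs : ∀ a, Q.coeff a ≠ 0 → mu a = 0 ∨ mu a = 1) {ε : ℂ} (hε : ε ≠ 0)
    (h : ∀ b, mu b = 0 → Q.coeff b + ε * Q.coeff (b + T) = 0) :
    ∃ F : CA K, Q = (1 - AddMonoidAlgebra.single T ε⁻¹) * F := by
  refine ⟨gpart mu 0 Q, ?_⟩
  apply AddMonoidAlgebra.ext
  apply Finsupp.ext
  intro a
  rw [KO23.co_bin, gp_co, gp_co]
  by_cases h0 : mu a = 0
  · rw [if_pos h0, if_neg (by rw [map_sub, h0, hT]; norm_num), mul_zero, sub_zero]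
  · by_cases h1 : mu a = 1
    · rw [if_neg h0, if_pos (by rw [map_sub, h1, hT]; norm_num)]
      have h3 := h (a - T) (by rw [map_sub, h1, hT]; norm_num)
      rw [sub_add_cancel] at h3
      have h4 : ε⁻¹ * ε = 1 := inv_mul_cancel₀ hε
      linear_combination ε⁻¹ * h3 - Q.coeff a * h4
    · have h2 : Q.coeff a = 0 := by
        by_contra hne
        rcases hs a hne with h3 | h3
        · exact h0 h3
        · exact h1 h3
      rw [if_neg h0, if_neg (by rw [map_sub, hT]; omega), h2]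
      ring

variable {P : Type} [Fintype P] [DecidableEq P] {L : Type} [AddCommGroup L] [Module.Free ℤ L]
  [Module.Finite ℤ L] {phi : L →+ (P → ℤ)} {D : AO ℤ L} {eta : L → (RO ℤ)ˣ}

/-- (END) THE CONTENT IS A UNIT. -/
theorem uend (hEnd : EndS) (hFD : FDS) (hSm : SmallS) (hG0 : G0S) (hU : UnitAS) (hMin : MinS)
    (hMm : MmulS) (hMV : MVS) (hRk : RkS) (hF1 : F1S) (hUR : UnitRS)
    (hD : DD phi D) (hray : rk {b | Ray D b} = Module.finrank ℤ L)
    {k : ℕ} (hk : k ≤ 1) {Z : ZMod (k + 3) → L} {mu : ZMod (k + 3) → L →+ ℤ}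
    (h : Cyc phi D eta k Z mu) (i : ZMod (k + 3)) {t0 t1 : (RO ℤ)ˣ} {i0 : P}
    {h0 : co phi i0 (Z i) = 1} {psi : Ker (co phi i0) →+ (P → ℤ)}
    (hps : ∀ x p, psi x p = if phi (Z i) p = 0 then phi (x : L) p else 0)
    {cu : (RO ℤ)ˣ} {G : AO ℤ (Ker (co phi i0))}
    (hcl : cl (co phi i0) (Z i) h0 (eta (Z i) * t0) D = cst (cu : RO ℤ) * G)
    (hDG : DD psi G) (h2 : 2 ≤ Module.finrank ℤ (Ker (co phi i0)))
    {T1 : Ker (co phi i0)} (hT1 : (T1 : L) = Z (i + 1)) {i1 : P}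
    {h1 : co psi i1 T1 = 1} (rT : Ray G T1) {c : RO ℤ}
    {H : AO ℤ (Ker (co psi i1))}
    (hcl2 : cl (co psi i1) T1 h1 (eta (Z (i + 1)) * t1)
      (cl (co phi i0) (Z i) h0 (eta (Z i) * t0) D) = cst c * H)
    {ps2 : Ker (co psi i1) →+ (P → ℤ)} (hDH : DD ps2 H) (hc : ClassV 1 c) (hZ : ZFree H) {N : ℝ}
    (hN : 1 < N) (hcv : ClassV N (H.coeff 0)) (hw : Wdep H) {u0 : (RO ℤ)ˣ} {p0 p1 : ℤ[X]}
    (g0 : (u0 : RO ℤ) * G.coeff 0 = toLaurent p0)
    (g1 : (u0 : RO ℤ) * (((eta (Z (i + 1)) * t1 : (RO ℤ)ˣ) : RO ℤ) * G.coeff T1) =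
      -toLaurent p1) (hp0 : ∀ z : ℂ, ‖z‖ < 1 → aeval z p0 ≠ 0) (hne : p0 ≠ p1) :
    IsUnit (((cu⁻¹ : (RO ℤ)ˣ) : RO ℤ) * c) ∧
      Zfd psi G T1 i1 h1 (eta (Z (i + 1)) * t1)
        (((cu⁻¹ : (RO ℤ)ˣ) : RO ℤ) * c) 1 (fun _ => H) := by
  classical
  have hslf : ∀ n, mu n (Z n) = 0 := fun n => cyc_sf h n
  -- disjointness
  have ne1 : i ≠ i + 1 := KO29.ne_succ i
  have nem : i - 1 ≠ i := by
    have := KO29.ne_succ (i - 1)
    rwa [sub_add_cancel] at this
  have ne1m : i - 1 ≠ i + 1 := by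
    intro h5
    have h6 := congrArg (fun n => n + 1) h5
    simp only [sub_add_cancel] at h6
    have h7 : ∀ (k : ℕ), k ≤ 1 → ∀ i : ZMod (k + 3), i ≠ i + 1 + 1 := by
      intro k hk
      rcases (by omega : k = 0 ∨ k = 1) with rfl | rfl
      · decide
      · decide
    exact h7 k hk i h6
  have z {m n : ZMod (k + 3)} {p : P} (hmn : m ≠ n) (hp : phi (Z n) p = 1) : phi (Z m) p = 0 :=
    (h.dis m n hmn p).resolve_right (by rw [hp]; norm_num)
  have q0 : phi (Z i) i0 = 1 := h0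
  have pa : ∀ (x : Ker (co phi i0)) (p : P), phi (Z i) p = 0 → psi x p = phi (x : L) p := by
    intro x p hp
    rw [hps, if_pos hp]
  have q1' : (if phi (Z i) i1 = 0 then phi (T1 : L) i1 else 0) = 1 := by
    rw [← hps]
    exact h1
  have z01 : phi (Z i) i1 = 0 := by
    by_contra hne'
    rw [if_neg hne'] at q1'
    exact zero_ne_one q1'
  have q1 : phi (Z (i + 1)) i1 = 1 := by rw [if_pos z01, hT1] at q1'; exact q1'
  obtain ⟨pm, hpm⟩ : ∃ pm, phi (Z (i - 1)) pm = 1 := by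
    by_contra hcon
    push Not at hcon
    apply (h.mtl (i - 1)).r0.2.1
    apply hD.inj
    rw [map_zero]
    funext p
    exact (hD.bin _ (h.mtl (i - 1)).r0.1 p).resolve_right (hcon p)
  have z0m : phi (Z i) pm = 0 := z nem.symm hpm
  -- the ray `Z (i - 1)` in the double kernel
  have zm0 : co phi i0 (Z (i - 1)) = 0 := z nem q0
  have zm1 : phi (Z (i - 1)) i1 = 0 := z ne1m q1
  obtain ⟨T, hT⟩ : ∃ T : Ker (co psi i1), ((T : Ker (co phi i0)) : L) = Z (i - 1) :=
    ⟨⟨⟨Z (i - 1), zm0⟩, by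
      change psi ⟨Z (i - 1), zm0⟩ i1 = 0
      rw [pa _ _ z01]
      exact zm1⟩, rfl⟩
  -- coefficients
  set E : L → RO ℤ := fun x => D.coeff x + (eta (Z i) : RO ℤ) * (t0 : RO ℤ) *
    D.coeff (x + Z i) with hEdef
  set V : L → RO ℤ := fun x => E x + (eta (Z (i + 1)) : RO ℤ) * (t1 : RO ℤ) *
    E (x + Z (i + 1)) with hVdef
  have hEc : ∀ x : Ker (co phi i0), (cu : RO ℤ) * G.coeff x = E (x : L) := by
    intro x
    rw [← cst_co, ← hcl, H47.cl_coeff_bin (co phi i0) (Z i) h0 _ D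
      (fun y hy => hD.bin y hy i0), Units.val_mul]
  have hsG : supp (cl (co phi i0) (Z i) h0 (eta (Z i) * t0) D) = supp G := by
    rw [hcl]
    exact cst_supp cu.ne_zero G
  have hVc : ∀ x : Ker (co psi i1), c * H.coeff x = V ((x : Ker (co phi i0)) : L) := by
    intro x
    rw [← cst_co, ← hcl2, H47.cl_coeff_bin (co psi i1) T1 h1 _ _
      (fun y hy => hDG.bin y (by rw [hsG] at hy; exact hy) i1), hcl, cst_co, cst_co, hEc, hEc,
      Units.val_mul]
    have e1 : (((x : Ker (co phi i0)) + T1 : Ker (co phi i0)) : L) =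
        ((x : Ker (co phi i0)) : L) + Z (i + 1) := by rw [Submodule.coe_add, hT1]
    rw [e1]
  have hc0 : c ≠ 0 := ((hMV ℤ).1 _ _ hc).1
  have hc' : ClassV 1 (((cu⁻¹ : (RO ℤ)ˣ) : RO ℤ) * c) := KO90.classV_cst hUR _ hc
  have hclG : cl (co psi i1) T1 h1 (eta (Z (i + 1)) * t1) G =
      cst (((cu⁻¹ : (RO ℤ)ˣ) : RO ℤ) * c) * H := by
    rw [hcl, map_mul, H71.cl_cst] at hcl2
    have e1 : (cst ((cu⁻¹ : (RO ℤ)ˣ) : RO ℤ) : AO ℤ (Ker (co psi i1))) * cst (cu : RO ℤ) = 1 := by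
      rw [cst_ml, Units.inv_mul, cst_on]
    rw [← cst_ml]
    linear_combination (cst ((cu⁻¹ : (RO ℤ)ˣ) : RO ℤ)) * hcl2 -
      cl (co psi i1) T1 h1 (eta (Z (i + 1)) * t1) G * e1
  have hne0 : G.coeff 0 + ((eta (Z (i + 1)) * t1 : (RO ℤ)ˣ) : RO ℤ) * G.coeff T1 ≠ 0 := by
    intro h5
    have h6 : (toLaurent (p0 - p1) : RO ℤ) = 0 := by
      rw [map_sub]
      linear_combination (u0 : RO ℤ) * h5 - g0 - g1
    rw [toLaurent_eq_zero] at h6
    exact hne (sub_eq_zero.mp h6)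
  have hCC : CC psi G T1 i1 (eta (Z (i + 1)) * t1) := ⟨hDG, h2, rT, h1, hne0⟩
  have hfr := finrank_ker hRk h1
  have hzfd : Zfd psi G T1 i1 h1 (eta (Z (i + 1)) * t1) (((cu⁻¹ : (RO ℤ)ˣ) : RO ℤ) * c) 1
      (fun _ => H) := by
    refine ⟨hc', ?_, fun _ => hDH.irr, fun _ => hw, fun _ => ?_, ?_, ?_⟩
    · rw [hclG]
      simp
    · rw [((hMV ℤ).1 _ _ hcv).2]
      exact hN
    · simpa using hZ
    · rw [hclG, cst_supp (mul_ne_zero (Units.ne_zero _) hc0), hDH.spn]
      exact hfr.symm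
  refine ⟨?_, hzfd⟩
  have hns : ∀ (b : Ker (co psi i1)) (e : (RO ℤ)ˣ), b ≠ 0 →
      ¬ (1 - AddMonoidAlgebra.single b (e : RO ℤ)) ∣ H := by
    intro b e hb hdv
    refine KO23.ns_prod hFD hSm hG0 hU hMin hMm hCC hzfd b e hb ?_
    simpa using hdv
  -- the functional
  set nu : Ker (co psi i1) →+ ℤ :=
    ((co phi pm).comp (incl (Ker (co phi i0)))).comp (incl (Ker (co psi i1))) with hnu
  have hnuv : ∀ x, nu x = phi ((x : Ker (co phi i0)) : L) pm := fun x => rfl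
  have hnuT : nu T = 1 := by rw [hnuv, hT, hpm]
  refine hEnd P (Ker (co phi i0)) psi G T1 i1 h1 (eta (Z (i + 1)) * t1) _ H p0 p1 u0 T nu hDG h2
    rT hclG hc' hZ hns g0 g1 hp0 hne hnuT ?_ ?_
  · intro a ha
    have h5 : psi (a : Ker (co phi i0)) pm = 0 ∨ psi (a : Ker (co phi i0)) pm = 1 := by
      have h6 : c * H.coeff a ≠ 0 := mul_ne_zero hc0 ha
      rw [← cst_co, ← hcl2, H47.cl_coeff_bin (co psi i1) T1 h1 _ _
        (fun y hy => hDG.bin y (by rw [hsG] at hy; exact hy) i1)] at h6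
      by_cases h7 : (cl (co phi i0) (Z i) h0 (eta (Z i) * t0) D).coeff (a : Ker (co phi i0)) = 0
      · rw [h7, zero_add] at h6
        have h8 : (a : Ker (co phi i0)) + T1 ∈ supp G := by
          rw [← hsG]
          exact right_ne_zero_of_mul h6
        have h9 := hDG.bin _ h8 pm
        have h10 : psi T1 pm = 0 := by
          rw [pa _ _ z0m, hT1]
          exact z ne1m.symm hpm
        rw [map_add, Pi.add_apply, h10, add_zero] at h9
        exact h9
      · have h8 : (a : Ker (co phi i0)) ∈ supp G := by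
          rw [← hsG]
          exact h7
        exact hDG.bin _ h8 pm
    rw [pa _ _ z0m] at h5
    exact h5
  · intro z0 hz0
    have hcz : evR z0 c = 0 := by
      rw [map_mul] at hz0
      refine (mul_eq_zero.mp hz0).resolve_left ?_
      intro h5
      have h6 := H36.norm_evR_unit z0 _ (cu⁻¹).isUnit
      rw [h5, norm_zero] at h6
      exact zero_ne_one h6
    have hVz : ∀ x : Ker (co psi i1), evR z0 (V ((x : Ker (co phi i0)) : L)) = 0 := by
      intro x
      rw [← hVc, map_mul, hcz, zero_mul]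
    set ep : (RO ℤ)ˣ := t1 * eta (Z (i - 1)) with hep
    have hepn : ‖evR z0 (ep : RO ℤ)‖ = 1 := H36.norm_evR_unit z0 _ ep.isUnit
    have hep0 : evR z0 (ep : RO ℤ) ≠ 0 := by
      intro h5
      rw [h5, norm_zero] at hepn
      exact zero_ne_one hepn
    have hcun : evR z0 ((cu⁻¹ : (RO ℤ)ˣ) : RO ℤ) * evR z0 (cu : RO ℤ) = 1 := by
      rw [← map_mul, Units.inv_mul, map_one]
    obtain ⟨F, hF⟩ := bin_fac (spec z0 (res (Ker (co psi i1)) G)) T nu hnuT (by
      intro a ha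
      rw [spec_coeff, res_coeff] at ha
      have h5 : (a : Ker (co phi i0)) ∈ supp G := by
        intro h6
        rw [h6, map_zero] at ha
        exact ha rfl
      have h6 := hDG.bin _ h5 pm
      rw [pa _ _ z0m] at h6
      exact h6) hep0 (by
      intro b hb
      rw [spec_coeff, spec_coeff, res_coeff, res_coeff]
      have e1 : (((b + T : Ker (co psi i1)) : Ker (co phi i0)) : L) =
          ((b : Ker (co phi i0)) : L) + Z (i - 1) := by
        rw [← hT]
        rfl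
      have b0 : phi ((b : Ker (co phi i0)) : L) i0 = 0 := (b : Ker (co phi i0)).2
      have b1 : phi ((b : Ker (co phi i0)) : L) i1 = 0 := by
        rw [← pa _ _ z01]
        exact b.2
      have key : evR z0 (E ((b : Ker (co phi i0)) : L) + (ep : RO ℤ) *
          E (((b : Ker (co phi i0)) : L) + Z (i - 1))) = 0 := by
        have h5 := end_id hF1 hD hray hk h i (t0 : RO ℤ) (t1 : RO ℤ) q0 q1 hpm b0 b1 hb
          (E := E) (V := V) (fun x => rfl) (fun x => rfl)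
        rw [hep, Units.val_mul]
        rcases h5 with h5 | h5 | h5
        · rw [h5]
          exact hVz b
        · rw [h5, map_mul, ← e1, hVz (b + T), mul_zero]
        · rw [h5, map_zero]
      have k1 : evR z0 (G.coeff (b : Ker (co phi i0))) =
          evR z0 ((cu⁻¹ : (RO ℤ)ˣ) : RO ℤ) * evR z0 (E ((b : Ker (co phi i0)) : L)) := by
        rw [← hEc, map_mul]
        linear_combination (-evR z0 (G.coeff (b : Ker (co phi i0)))) * hcun
      have k2 : evR z0 (G.coeff ((b + T : Ker (co psi i1)) : Ker (co phi i0))) =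
          evR z0 ((cu⁻¹ : (RO ℤ)ˣ) : RO ℤ) *
            evR z0 (E (((b : Ker (co phi i0)) : L) + Z (i - 1))) := by
        rw [← e1, ← hEc, map_mul]
        linear_combination
          (-evR z0 (G.coeff ((b + T : Ker (co psi i1)) : Ker (co phi i0)))) * hcun
      rw [k1, k2]
      rw [map_add, map_mul] at key
      linear_combination evR z0 ((cu⁻¹ : (RO ℤ)ˣ) : RO ℤ) * key)
    refine ⟨(evR z0 (ep : RO ℤ))⁻¹, F, ?_, hF⟩
    rw [norm_inv, hepn, inv_one]

end

end Pool.Agent.B5.KO.H71
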