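import Pool.Agent.Lib.MP_b5021c_nt.KO.H71.Nf
import Pool.Agent.Lib.MP_b5021c_nt.B.H71.Com

/-!
# MP_b5021c_nt, all `θ`, K odd, leaf O4, `l = 3`, row SF: the real forms of the double closing at
`e^(i pi/3)` of a closed triple, and a small factor of it

`B_y = e0 G_(y + r0)`, `E = e0 e1 e2`, `X = r0 + r1 + r2`,
`R_y = G_y - 3 E⁻¹ B_(y-X)`, `I_y = B_y + E⁻¹ B_(y-X)`.
-/

set_option linter.unusedSectionVars false

namespace Pool.Agent.B5.KO.H71

open scoped LaurentPolynomial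
open AddMonoidAlgebra (single)

section

variable {P : Type} [Fintype P] [DecidableEq P] {L : Type} [AddCommGroup L] [Module.Free ℤ L]
  [Module.Finite ℤ L]

/-- The sum of the triple. -/
def X3 {L : Type} [AddCommGroup L] (r : ZMod 3 → L) : L := r 0 + r 1 + r 2

noncomputable def bB {L : Type} [AddCommGroup L] (G : AO ℤ L) (r : ZMod 3 → L)
    (e : ZMod 3 → (RO ℤ)ˣ) (y : L) : RO ℤ := (e 0 : RO ℤ) * G.coeff (y + r 0)

noncomputable def eI (e : ZMod 3 → (RO ℤ)ˣ) : (RO ℤ)ˣ := (e 0 * e 1 * e 2)⁻¹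

noncomputable def rR {L : Type} [AddCommGroup L] (G : AO ℤ L) (r : ZMod 3 → L)
    (e : ZMod 3 → (RO ℤ)ˣ) (y : L) : RO ℤ :=
  G.coeff y - 3 * ((eI e : RO ℤ) * bB G r e (y - X3 r))

noncomputable def rI {L : Type} [AddCommGroup L] (G : AO ℤ L) (r : ZMod 3 → L)
    (e : ZMod 3 → (RO ℤ)ˣ) (y : L) : RO ℤ :=
  bB G r e y + (eI e : RO ℤ) * bB G r e (y - X3 r)

/-- (TERMINAL) in coefficients. -/
structure TerC (phi : L →+ (P → ℤ)) (G : AO ℤ L) (r : ZMod 3 → L) (e : ZMod 3 → (RO ℤ)ˣ)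
    (mu : ZMod 3 → L →+ ℤ) : Prop where
  ex : ∀ a ∈ supp G, (∀ i, mu i a = 0) → Fr phi r mu a ∨ Fr phi r mu (a - X3 r)
  co : ∀ u, Fr phi r mu u →
    G.coeff (u + X3 r) = (eI e : RO ℤ) * (G.coeff u + 3 * bB G r e u)

variable {phi : L →+ (P → ℤ)} {G : AO ℤ L} {r : ZMod 3 → L} {e : ZMod 3 → (RO ℤ)ˣ}
  {mu : ZMod 3 → L →+ ℤ}

theorem eI_mul (e : ZMod 3 → (RO ℤ)ˣ) :
    (eI e : RO ℤ) * ((e 0 : RO ℤ) * (e 1 : RO ℤ) * (e 2 : RO ℤ)) = 1 := by
  unfold eI
  rw [← Units.val_mul, ← Units.val_mul, Units.inv_mul]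

namespace Tri

theorem mX (h : Tri phi G r e mu) (i : ZMod 3) : mu i (X3 r) = 0 := by
  have h0 : mu 0 (X3 r) = 0 := by
    unfold X3
    have a1 := h.slf 0
    have a2 : mu 0 (r 1) = 1 := h.nxt 0
    have a3 : mu 0 (r 2) = -1 := h.prv 0
    rw [map_add, map_add, a1, a2, a3]; norm_num
  have h1 : mu 1 (X3 r) = 0 := by
    unfold X3
    have a1 := h.slf 1
    have a2 : mu 1 (r 2) = 1 := h.nxt 1
    have a3 : mu 1 (r 0) = -1 := h.prv' 0
    rw [map_add, map_add, a1, a2, a3]; norm_num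
  have h2 := h.sum (X3 r)
  rcases z3v i with rfl | rfl | rfl
  · exact h0
  · exact h1
  · rw [h0, h1] at h2; simpa using h2

theorem pX (h : Tri phi G r e mu) (i : ZMod 3) {q : P} (hq : phi (r i) q = 1) :
    phi (X3 r) q = 1 := by
  unfold X3
  have d : ∀ j, j ≠ i → phi (r j) q = 0 := fun j hj =>
    (h.dis j i hj q).resolve_right (by rw [hq]; norm_num)
  rcases z3v i with rfl | rfl | rfl
  · rw [map_add, map_add, Pi.add_apply, Pi.add_apply, hq, d 1 (by decide), d 2 (by decide)]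
    norm_num
  · rw [map_add, map_add, Pi.add_apply, Pi.add_apply, hq, d 0 (by decide), d 2 (by decide)]
    norm_num
  · rw [map_add, map_add, Pi.add_apply, Pi.add_apply, hq, d 0 (by decide), d 1 (by decide)]
    norm_num

theorem pX0 {q : P} (hq : ∀ i, phi (r i) q = 0) : phi (X3 r) q = 0 := by
  unfold X3
  rw [map_add, map_add, Pi.add_apply, Pi.add_apply, hq, hq, hq]
  norm_num

/-- `B_y ≠ 0`: `y` is free. -/
theorem bfr (h : Tri phi G r e mu) (hF1 : F1S) (hD : DD phi G) {y : L}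
    (hy : ∀ i, mu i y = 0) (hb : bB G r e y ≠ 0) : Fr phi r mu y := by
  have h1 : y + r 0 ∈ supp G := by
    intro h0
    apply hb
    change G.coeff (y + r 0) = 0 at h0
    unfold bB
    rw [h0, mul_zero]
  have v := h.va 0 y
  obtain ⟨v0, v1, v2⟩ := v
  rw [hy] at v0 v1 v2
  have h2 := h.ty1 hF1 hD.inj hD.bin h1 v0 (by rw [v1]; norm_num) (by rw [v2]; norm_num)
  rwa [add_sub_cancel_right] at h2

/-- A free exponent plus a multiple of `X` is not free. -/
theorem nfr (h : Tri phi G r e mu) (hD : DD phi G) {u : L} (hu : Fr phi r mu u) {n : ℤ}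
    (hn : n ≠ 0) : ¬ Fr phi r mu (u + n • X3 r) := by
  intro h2
  obtain ⟨q, hq⟩ := h.port hD.inj 0
  have h3 := (hu.1 0 q).resolve_right (by rw [hq]; norm_num)
  have h4 := (h2.1 0 q).resolve_right (by rw [hq]; norm_num)
  rw [map_add, map_zsmul, Pi.add_apply, Pi.smul_apply, h3, h.pX 0 hq, smul_eq_mul, mul_one,
    zero_add] at h4
  exact hn h4

theorem mnX (h : Tri phi G r e mu) {y : L} (hy : ∀ i, mu i y = 0) (n : ℤ) :
    ∀ i, mu i (y + n • X3 r) = 0 := by
  intro i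
  rw [map_add, map_zsmul, h.mX, hy i]
  simp

/-- `B` vanishes at `y` or at `y + n X`. -/
theorem btwo (h : Tri phi G r e mu) (hF1 : F1S) (hD : DD phi G) {y : L}
    (hy : ∀ i, mu i y = 0) {n : ℤ} (hn : n ≠ 0) :
    bB G r e y = 0 ∨ bB G r e (y + n • X3 r) = 0 := by
  by_contra hcon
  push Not at hcon
  exact h.nfr hD (h.bfr hF1 hD hy hcon.1) hn (h.bfr hF1 hD (h.mnX hy n) hcon.2)

theorem bz (h : Tri phi G r e mu) (hF1 : F1S) (hD : DD phi G) {u : L} (hu : Fr phi r mu u)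
    {n : ℤ} (hn : n ≠ 0) : bB G r e (u + n • X3 r) = 0 := by
  by_contra h1
  exact h.nfr hD hu hn (h.bfr hF1 hD (h.mnX hu.2 n) h1)

/-- `I_y = 0`: both terms vanish. -/
theorem iz (h : Tri phi G r e mu) (hF1 : F1S) (hD : DD phi G) {y : L}
    (hy : ∀ i, mu i y = 0) (h0 : rI G r e y = 0) :
    bB G r e y = 0 ∧ bB G r e (y - X3 r) = 0 := by
  have h1 := h.btwo hF1 hD hy (n := -1) (by norm_num)
  have e1 : y + (-1 : ℤ) • X3 r = y - X3 r := by rw [neg_smul, one_smul, sub_eq_add_neg]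
  rw [e1] at h1
  unfold rI at h0
  rcases h1 with h2 | h2
  · rw [h2, zero_add] at h0
    exact ⟨h2, (mul_eq_zero.mp h0).resolve_left (eI e).ne_zero⟩
  · rw [h2, mul_zero, add_zero] at h0
    exact ⟨h0, h2⟩

/-- The coefficient at a free exponent plus a multiple of `X`. -/
theorem gz (h : Tri phi G r e mu) (hD : DD phi G) {u : L} (hu : Fr phi r mu u) {n : ℤ}
    (hn : n ≠ 0) (hn1 : n ≠ 1) : G.coeff (u + n • X3 r) = 0 := by
  by_contra h1
  obtain ⟨q, hq⟩ := h.port hD.inj 0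
  have h2 := hD.bin _ h1 q
  have h3 := (hu.1 0 q).resolve_right (by rw [hq]; norm_num)
  rw [map_add, map_zsmul, Pi.add_apply, Pi.smul_apply, h3, h.pX 0 hq, smul_eq_mul, mul_one,
    zero_add] at h2
  rcases h2 with h2 | h2
  · exact hn h2
  · exact hn1 h2

/-- An exponent with `mu = 0` is free, free plus `X`, or alone in its class modulo `X`. -/
theorem tri3 (h : Tri phi G r e mu) (hD : DD phi G) {y : L} (hy : ∀ i, mu i y = 0)
    (hG : y ∈ supp G) : Fr phi r mu y ∨ Fr phi r mu (y - X3 r) ∨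
      ((∀ n : ℤ, ¬ Fr phi r mu (y + n • X3 r)) ∧ ∀ n : ℤ, n ≠ 0 → G.coeff (y + n • X3 r) = 0) := by
  by_cases h1 : ∃ i q, phi (r i) q = 1 ∧ phi y q = 1
  · by_cases h2 : ∃ i q, phi (r i) q = 1 ∧ phi y q = 0
    · right; right
      obtain ⟨i, q, hq, hy1⟩ := h1
      obtain ⟨i', q', hq', hy0⟩ := h2
      have k1 : ∀ n : ℤ, phi (y + n • X3 r) q = 1 + n := by
        intro n
        rw [map_add, map_zsmul, Pi.add_apply, Pi.smul_apply, hy1, h.pX i hq, smul_eq_mul, mul_one]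
      have k0 : ∀ n : ℤ, phi (y + n • X3 r) q' = n := by
        intro n
        rw [map_add, map_zsmul, Pi.add_apply, Pi.smul_apply, hy0, h.pX i' hq', smul_eq_mul,
          mul_one, zero_add]
      refine ⟨fun n hf => ?_, fun n hn => ?_⟩
      · have a1 := (hf.1 i q).resolve_right (by rw [hq]; norm_num)
        have a2 := (hf.1 i' q').resolve_right (by rw [hq']; norm_num)
        rw [k1] at a1
        rw [k0] at a2
        omega
      · by_contra hne
        have a1 := hD.bin _ hne q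
        have a2 := hD.bin _ hne q'
        rw [k1] at a1
        rw [k0] at a2
        omega
    · right; left
      push Not at h2
      refine ⟨fun i q => ?_, fun i => by rw [map_sub, hy i, h.mX, sub_zero]⟩
      rcases h.bin i q with hq | hq
      · exact Or.inr hq
      · left
        rw [map_sub, Pi.sub_apply, h.pX i hq, (hD.bin y hG q).resolve_left (h2 i q hq), sub_self]
  · left
    push Not at h1
    refine ⟨fun i q => ?_, hy⟩
    rcases h.bin i q with hq | hq
    · exact Or.inr hq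
    · exact Or.inl ((hD.bin y hG q).resolve_right (h1 i q hq))

/-- The chain of the forms `I`. -/
theorem ch0 (h : Tri phi G r e mu) (hF1 : F1S) (hD : DD phi G) {y : L}
    (hy : ∀ i, mu i y = 0) (h1 : rI G r e (y - X3 r) = 0)
    (h2 : rI G r e (y + 2 • X3 r) = 0) : rI G r e (y + X3 r) = (eI e : RO ℤ) * rI G r e y := by
  have m1 : ∀ i, mu i (y - X3 r) = 0 := fun i => by rw [map_sub, hy, h.mX, sub_zero]
  have m2 : ∀ i, mu i (y + 2 • X3 r) = 0 := fun i => by
    rw [map_add, map_nsmul, hy, h.mX, smul_zero, add_zero]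
  obtain ⟨a1, -⟩ := h.iz hF1 hD m1 h1
  obtain ⟨-, a3⟩ := h.iz hF1 hD m2 h2
  have e1 : y + 2 • X3 r - X3 r = y + X3 r := by rw [two_smul]; abel
  rw [e1] at a3
  unfold rI
  rw [a1, a3, add_sub_cancel_right]
  ring

/-- The matrix relation of a non-real small factor; the chain of `R` and `I`. -/
theorem ch (h : Tri phi G r e mu) (hF1 : F1S) (hD : DD phi G) {be : L} (hbm : ∀ i, mu i be = 0)
    {j : P} (hj : ∀ i, phi (r i) j = 0) {a b d : ℤ} {ta : (RO ℤ)ˣ}
    (hR : ∀ y, (∀ i, mu i y = 0) → phi y j = 0 → rR G r e (y + be) =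
      (ta : RO ℤ) * (a * rR G r e y + b * rI G r e y))
    (hI : ∀ y, (∀ i, mu i y = 0) → phi y j = 0 → rI G r e (y + be) =
      (ta : RO ℤ) * (rR G r e y + d * rI G r e y)) {y : L} (hy : ∀ i, mu i y = 0)
    (hyj : phi y j = 0) (h1 : rR G r e (y - X3 r) = 0 ∧ rI G r e (y - X3 r) = 0)
    (h2 : rR G r e (y + 2 • X3 r) = 0 ∧ rI G r e (y + 2 • X3 r) = 0) :
    rR G r e (y + X3 r) = (eI e : RO ℤ) * rR G r e y ∧
      rR G r e (y + be + X3 r) = (eI e : RO ℤ) * rR G r e (y + be) := by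
  have hXj : phi (X3 r) j = 0 := pX0 hj
  have m1 : ∀ i, mu i (y - X3 r) = 0 := fun i => by rw [map_sub, hy, h.mX, sub_zero]
  have m2 : ∀ i, mu i (y + 2 • X3 r) = 0 := fun i => by
    rw [map_add, map_nsmul, hy, h.mX, smul_zero, add_zero]
  have m3 : ∀ i, mu i (y + X3 r) = 0 := fun i => by rw [map_add, hy, h.mX, add_zero]
  have m4 : ∀ i, mu i (y + be) = 0 := fun i => by rw [map_add, hy, hbm, add_zero]
  have j1 : phi (y - X3 r) j = 0 := by rw [map_sub, Pi.sub_apply, hyj, hXj, sub_zero]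
  have j2 : phi (y + 2 • X3 r) j = 0 := by
    rw [map_add, map_nsmul, Pi.add_apply, Pi.smul_apply, hyj, hXj, smul_zero, add_zero]
  have j3 : phi (y + X3 r) j = 0 := by rw [map_add, Pi.add_apply, hyj, hXj, add_zero]
  have b1 := hI _ m1 j1
  have b2 := hI _ m2 j2
  rw [h1.1, h1.2, mul_zero, add_zero, mul_zero] at b1
  rw [h2.1, h2.2, mul_zero, add_zero, mul_zero] at b2
  have c0 := h.ch0 hF1 hD hy h1.2 h2.2
  have e1 : y - X3 r + be = y + be - X3 r := by abel
  have e2 : y + 2 • X3 r + be = y + be + 2 • X3 r := by abel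
  have e3 : y + X3 r + be = y + be + X3 r := by abel
  rw [e1] at b1
  rw [e2] at b2
  have c1 := h.ch0 hF1 hD m4 b1 b2
  have d1 := hI y hy hyj
  have d2 := hI _ m3 j3
  rw [e3] at d2
  have k1 : rR G r e (y + X3 r) = (eI e : RO ℤ) * rR G r e y := by
    have h5 : (ta : RO ℤ) * (rR G r e (y + X3 r) - (eI e : RO ℤ) * rR G r e y) = 0 := by
      linear_combination c1 - d2 + (eI e : RO ℤ) * d1 - (ta : RO ℤ) * (d : RO ℤ) * c0
    have h6 := (mul_eq_zero.mp h5).resolve_left ta.ne_zero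
    linear_combination h6
  refine ⟨k1, ?_⟩
  have d3 := hR y hy hyj
  have d4 := hR _ m3 j3
  rw [e3] at d4
  linear_combination d4 - (eI e : RO ℤ) * d3 + (ta : RO ℤ) * (a : RO ℤ) * k1 +
    (ta : RO ℤ) * (b : RO ℤ) * c0

/-- The chain at every exponent with the value `0` or `1` at the port `j`. -/
theorem chm (h : Tri phi G r e mu) (hF1 : F1S) (hD : DD phi G) {be : L} (hbm : ∀ i, mu i be = 0)
    {j : P} (hj : ∀ i, phi (r i) j = 0) (hbj : phi be j = 1) {a b d : ℤ} (hdet : a * d - b = 1)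
    {ta : (RO ℤ)ˣ}
    (hR : ∀ y, (∀ i, mu i y = 0) → phi y j = 0 → rR G r e (y + be) =
      (ta : RO ℤ) * (a * rR G r e y + b * rI G r e y))
    (hI : ∀ y, (∀ i, mu i y = 0) → phi y j = 0 → rI G r e (y + be) =
      (ta : RO ℤ) * (rR G r e y + d * rI G r e y)) {y : L} (hy : ∀ i, mu i y = 0)
    (hyj : phi y j = 0 ∨ phi y j = 1) (h1 : rR G r e (y - X3 r) = 0 ∧ rI G r e (y - X3 r) = 0)
    (h2 : rR G r e (y + 2 • X3 r) = 0 ∧ rI G r e (y + 2 • X3 r) = 0) :
    rR G r e (y + X3 r) = (eI e : RO ℤ) * rR G r e y := by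
  rcases hyj with hyj | hyj
  · exact (h.ch hF1 hD hbm hj hR hI hy hyj h1 h2).1
  · have hXj : phi (X3 r) j = 0 := pX0 hj
    have m0 : ∀ i, mu i (y - be) = 0 := fun i => by rw [map_sub, hy, hbm, sub_zero]
    have j0 : phi (y - be) j = 0 := by rw [map_sub, Pi.sub_apply, hyj, hbj, sub_self]
    have inv : ∀ z, (∀ i, mu i z = 0) → phi z j = 0 →
        (rR G r e (z + be) = 0 ∧ rI G r e (z + be) = 0) → rR G r e z = 0 ∧ rI G r e z = 0 := by
      rintro z hz hzj ⟨k1, k2⟩
      have k3 := hR z hz hzj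
      have k4 := hI z hz hzj
      rw [k1] at k3
      rw [k2] at k4
      have k5 := (mul_eq_zero.mp k3.symm).resolve_left ta.ne_zero
      have k6 := (mul_eq_zero.mp k4.symm).resolve_left ta.ne_zero
      have hdet' : (a : RO ℤ) * (d : RO ℤ) - (b : RO ℤ) = 1 := by
        have h9 := congrArg (fun n : ℤ => (n : RO ℤ)) hdet
        push_cast at h9
        exact h9
      have k7 : rI G r e z = 0 := by
        linear_combination (a : RO ℤ) * k6 - k5 - rI G r e z * hdet'
      rw [k7, mul_zero, add_zero] at k6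
      exact ⟨k6, k7⟩
    have m1 : ∀ i, mu i (y - be - X3 r) = 0 := fun i => by rw [map_sub, m0, h.mX, sub_zero]
    have m2 : ∀ i, mu i (y - be + 2 • X3 r) = 0 := fun i => by
      rw [map_add, map_nsmul, m0, h.mX, smul_zero, add_zero]
    have j1 : phi (y - be - X3 r) j = 0 := by rw [map_sub, Pi.sub_apply, j0, hXj, sub_zero]
    have j2 : phi (y - be + 2 • X3 r) j = 0 := by
      rw [map_add, map_nsmul, Pi.add_apply, Pi.smul_apply, j0, hXj, smul_zero, add_zero]
    have e1 : y - be - X3 r + be = y - X3 r := by abel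
    have e2 : y - be + 2 • X3 r + be = y + 2 • X3 r := by abel
    have g1 := inv _ m1 j1 (by rw [e1]; exact h1)
    have g2 := inv _ m2 j2 (by rw [e2]; exact h2)
    have g3 := (h.ch hF1 hD hbm hj hR hI m0 j0 g1 g2).2
    rwa [sub_add_cancel] at g3

/-- (SF) A NON-REAL SMALL FACTOR WITH A PORT OUTSIDE THE TRIPLE: TERMINAL. -/
theorem sf_out (h : Tri phi G r e mu) (hF1 : F1S) (hD : DD phi G) {be : L}
    (hbm : ∀ i, mu i be = 0) {j : P} (hj : ∀ i, phi (r i) j = 0) (hbj : phi be j = 1)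
    {a b d : ℤ} (hdet : a * d - b = 1) {ta : (RO ℤ)ˣ}
    (hR : ∀ y, (∀ i, mu i y = 0) → phi y j = 0 → rR G r e (y + be) =
      (ta : RO ℤ) * (a * rR G r e y + b * rI G r e y))
    (hI : ∀ y, (∀ i, mu i y = 0) → phi y j = 0 → rI G r e (y + be) =
      (ta : RO ℤ) * (rR G r e y + d * rI G r e y)) : TerC phi G r e mu := by
  have hXj : phi (X3 r) j = 0 := pX0 hj
  refine ⟨fun y hyG hy => ?_, fun u hu => ?_⟩
  · rcases h.tri3 hD hy hyG with h1 | h1 | ⟨h1, h2⟩
    · exact Or.inl h1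
    · exact Or.inr h1
    exfalso
    have hB : ∀ n : ℤ, bB G r e (y + n • X3 r) = 0 := by
      intro n
      by_contra hb
      exact h1 n (h.bfr hF1 hD (h.mnX hy n) hb)
    have e0 : y = y + (0 : ℤ) • X3 r := by simp
    have e1 : y - X3 r = y + (-1 : ℤ) • X3 r := by rw [neg_smul, one_smul, sub_eq_add_neg]
    have e2 : y - X3 r - X3 r = y + (-2 : ℤ) • X3 r := by
      rw [show (-2 : ℤ) = -1 + -1 by norm_num, add_smul, neg_smul, one_smul]; abel
    have e3 : y + 2 • X3 r = y + (2 : ℤ) • X3 r := by rw [two_smul, two_smul]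
    have e4 : y + 2 • X3 r - X3 r = y + (1 : ℤ) • X3 r := by rw [two_smul, one_smul]; abel
    have e5 : y + X3 r = y + (1 : ℤ) • X3 r := by rw [one_smul]
    have g1 : rR G r e (y - X3 r) = 0 ∧ rI G r e (y - X3 r) = 0 := by
      unfold rR rI
      rw [e2, hB, e1, hB, h2 (-1) (by norm_num)]
      simp
    have g2 : rR G r e (y + 2 • X3 r) = 0 ∧ rI G r e (y + 2 • X3 r) = 0 := by
      unfold rR rI
      rw [e4, hB, e3, hB, h2 2 (by norm_num)]
      simp
    have g3 := h.chm hF1 hD hbm hj hbj hdet hR hI hy (hD.bin y hyG j) g1 g2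
    have g4 : rR G r e (y + X3 r) = 0 := by
      unfold rR
      have e6 : y + X3 r - X3 r = y + (0 : ℤ) • X3 r := by simp
      rw [e6, hB, e5, h2 1 (by norm_num)]
      simp
    have g5 : rR G r e y = G.coeff y := by
      unfold rR
      rw [e1, hB]
      simp
    rw [g4, g5] at g3
    exact hyG ((mul_eq_zero.mp g3.symm).resolve_left (eI e).ne_zero)
  · have f1 : rR G r e (u - X3 r) = 0 ∧ rI G r e (u - X3 r) = 0 := by
      have e1 : u - X3 r = u + (-1 : ℤ) • X3 r := by rw [neg_smul, one_smul, sub_eq_add_neg]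
      have e2 : u - X3 r - X3 r = u + (-2 : ℤ) • X3 r := by
        rw [show (-2 : ℤ) = -1 + -1 by norm_num, add_smul, neg_smul, one_smul]; abel
      unfold rR rI
      rw [e2, h.bz hF1 hD hu (by norm_num), e1, h.bz hF1 hD hu (by norm_num),
        h.gz hD hu (by norm_num) (by norm_num)]
      simp
    have f2 : rR G r e (u + 2 • X3 r) = 0 ∧ rI G r e (u + 2 • X3 r) = 0 := by
      have e3 : u + 2 • X3 r = u + (2 : ℤ) • X3 r := by rw [two_smul, two_smul]
      have e4 : u + 2 • X3 r - X3 r = u + (1 : ℤ) • X3 r := by rw [two_smul, one_smul]; abel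
      unfold rR rI
      rw [e4, h.bz hF1 hD hu (by norm_num), e3, h.bz hF1 hD hu (by norm_num),
        h.gz hD hu (by norm_num) (by norm_num)]
      simp
    have f3 : bB G r e (u - X3 r) = 0 := by
      have e1 : u - X3 r = u + (-1 : ℤ) • X3 r := by rw [neg_smul, one_smul, sub_eq_add_neg]
      rw [e1]
      exact h.bz hF1 hD hu (by norm_num)
    by_cases hcase : phi u j = 0 ∨ phi u j = 1
    · have g := h.chm hF1 hD hbm hj hbj hdet hR hI hu.2 hcase f1 f2
      unfold rR at g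
      rw [f3, add_sub_cancel_right, mul_zero, mul_zero, sub_zero] at g
      linear_combination g
    · have hz : ∀ v : L, phi v j = 0 → G.coeff (u + v) = 0 := by
        intro v hv
        by_contra hne
        have := hD.bin _ hne j
        rw [map_add, Pi.add_apply, hv, add_zero] at this
        exact hcase this
      have z0 : G.coeff u = 0 := by have := hz 0 (by simp); rwa [add_zero] at this
      unfold bB
      rw [hz _ hXj, z0, hz _ (hj 0)]
      ring

end Tri

end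

end Pool.Agent.B5.KO.H71
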