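import Pool.Agent.Lib.MP_b5021c_nt.KO.H71.Sf

/-!
# MP_b5021c_nt, all `θ`, K odd, leaf O4, `l = 3`, row SF: the real unit
-/

set_option linter.unusedSectionVars false

namespace Pool.Agent.B5.KO.H71

open scoped LaurentPolynomial
open AddMonoidAlgebra (single)

section

variable {P : Type} [Fintype P] [DecidableEq P] {L : Type} [AddCommGroup L] [Module.Free ℤ L]
  [Module.Finite ℤ L] {phi : L →+ (P → ℤ)} {G : AO ℤ L} {r : ZMod 3 → L} {e : ZMod 3 → (RO ℤ)ˣ}
  {mu : ZMod 3 → L →+ ℤ}

theorem mul_single_co {O : Type} [CommRing O] (F : AO O L) (t a : L) (c : RO O) :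
    (F * single t c).coeff a = F.coeff (a - t) * c := by
  rw [AddMonoidAlgebra.coeff_mul_single_eq_coeff_mul (a - t)]
  intro m' _
  constructor
  · intro h3
    rw [← h3, add_sub_cancel_right]
  · intro h3
    rw [h3, sub_add_cancel]

theorem single_mul_co {O : Type} [CommRing O] (t a : L) (c : RO O) (F : AO O L) :
    (single t c * F).coeff a = c * F.coeff (a - t) := by
  rw [mul_comm, mul_single_co, mul_comm]

theorem single_ne {O : Type} [CommRing O] {x y : L} {c : RO O}
    (hne : (single x c : AO O L).coeff y ≠ 0) : x = y := by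
  classical
  rw [AddMonoidAlgebra.coeff_single, Finsupp.single_apply] at hne
  by_contra h1
  rw [if_neg h1] at hne
  exact hne rfl

theorem one_add_co {O : Type} [CommRing O] {be : L} (hbe : be ≠ 0) (c : RO O) :
    (1 + single be c : AO O L).coeff 0 = 1 ∧ (1 + single be c : AO O L).coeff be = c := by
  classical
  have e0 : ∀ y, (1 + single be c : AO O L).coeff y =
      (single 0 1 : AO O L).coeff y + (single be c : AO O L).coeff y := by
    intro y
    rw [AddMonoidAlgebra.coeff_add, Finsupp.add_apply]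
    rfl
  rw [e0, e0]
  simp only [AddMonoidAlgebra.coeff_single, Finsupp.single_apply, if_neg hbe, if_neg hbe.symm,
    if_true, add_zero, zero_add, and_self]

namespace Tri

theorem bB0 (hr0 : r 0 ∈ supp G) : bB G r e 0 ≠ 0 := by
  unfold bB
  rw [zero_add]
  exact mul_ne_zero (e 0).ne_zero hr0

/-- `B` vanishes at an exponent with a port of `r i`. -/
theorem bj0 (h : Tri phi G r e mu) (hF1 : F1S) (hD : DD phi G) {y : L} {i : ZMod 3} {j : P}
    (hy : ∀ i, mu i y = 0) (hj : phi (r i) j = 1) (hyj : phi y j ≠ 0) : bB G r e y = 0 := by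
  by_contra hb
  rcases (h.bfr hF1 hD hy hb).1 i j with h1 | h1
  · exact hyj h1
  · rw [hj] at h1; exact absurd h1 (by norm_num)

/-- The forms at an exponent without the port `j` of the triple. -/
theorem inj0 (h : Tri phi G r e mu) (hF1 : F1S) (hD : DD phi G) {be : L}
    (hbm : ∀ i, mu i be = 0) {i : ZMod 3} {j : P} (hj : phi (r i) j = 1) (hbj : phi be j = 1)
    {y : L} (hy : ∀ i, mu i y = 0) (hyj : phi y j = 0) :
    rR G r e y = G.coeff y ∧ rI G r e y = bB G r e y ∧
      rR G r e (y + be) = G.coeff (y + be) - 3 * ((eI e : RO ℤ) * bB G r e (y + (be - X3 r))) ∧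
      rI G r e (y + be) = (eI e : RO ℤ) * bB G r e (y + (be - X3 r)) := by
  have hXj := h.pX i hj
  have k1 : bB G r e (y - X3 r) = 0 := by
    refine h.bj0 hF1 hD (fun i => by rw [map_sub, hy, h.mX, sub_zero]) hj ?_
    rw [map_sub, Pi.sub_apply, hyj, hXj]; norm_num
  have k2 : bB G r e (y + be) = 0 := by
    refine h.bj0 hF1 hD (fun i => by rw [map_add, hy, hbm, add_zero]) hj ?_
    rw [map_add, Pi.add_apply, hyj, hbj]; norm_num
  have e1 : y + be - X3 r = y + (be - X3 r) := by abel
  refine ⟨?_, ?_, ?_, ?_⟩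
  · unfold rR; rw [k1]; ring
  · unfold rI; rw [k1]; ring
  · unfold rR; rw [e1]
  · unfold rI; rw [k2, e1]; ring

/-- (SF) A REAL SMALL FACTOR WITH A PORT OF THE TRIPLE: TERMINAL. -/
theorem sf_ri (h : Tri phi G r e mu) (hF1 : F1S) (hD : DD phi G) (hr0 : r 0 ∈ supp G) {be : L}
    (hbm : ∀ i, mu i be = 0) {i : ZMod 3} {j : P} (hj : phi (r i) j = 1) (hbj : phi be j = 1)
    {ta : (RO ℤ)ˣ}
    (hR : ∀ y, (∀ i, mu i y = 0) → phi y j = 0 → rR G r e (y + be) =
      (ta : RO ℤ) * rR G r e y)
    (hI : ∀ y, (∀ i, mu i y = 0) → phi y j = 0 → rI G r e (y + be) =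
      (ta : RO ℤ) * rI G r e y) : TerC phi G r e mu := by
  have hXj := h.pX i hj
  obtain ⟨de, hde⟩ : ∃ de, de = be - X3 r := ⟨_, rfl⟩
  have hdj : phi de j = 0 := by rw [hde, map_sub, Pi.sub_apply, hbj, hXj, sub_self]
  have hdm : ∀ i, mu i de = 0 := fun i => by rw [hde, map_sub, hbm, h.mX, sub_zero]
  -- the shift of `B`
  have key : ∀ y, (∀ i, mu i y = 0) → phi y j = 0 →
      (eI e : RO ℤ) * bB G r e (y + de) = (ta : RO ℤ) * bB G r e y := by
    intro y hy hyj
    obtain ⟨-, k2, -, k4⟩ := h.inj0 hF1 hD hbm hj hbj hy hyj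
    have k5 := hI y hy hyj
    rw [k2, k4, ← hde] at k5
    exact k5
  have nz : ∀ y, (∀ i, mu i y = 0) → phi y j = 0 → bB G r e y ≠ 0 → bB G r e (y + de) ≠ 0 := by
    intro y hy hyj hb h0
    have := key y hy hyj
    rw [h0, mul_zero] at this
    exact mul_ne_zero ta.ne_zero hb this.symm
  have n0 := bB0 (e := e) hr0
  have n1 := nz 0 (fun i => map_zero _) (by simp) n0
  have n2 := nz (0 + de) (fun i => by rw [map_add, map_zero, hdm, add_zero])
    (by rw [map_add, Pi.add_apply, hdj]; simp) n1
  have mem : ∀ y, bB G r e y ≠ 0 → y + r 0 ∈ supp G := by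
    intro y hb h0
    change G.coeff (y + r 0) = 0 at h0
    apply hb
    unfold bB
    rw [h0, mul_zero]
  have hd0 : de = 0 := by
    apply hD.inj
    rw [map_zero]
    ext q
    have b0 := hD.bin _ (mem _ n0) q
    have b1 := hD.bin _ (mem _ n1) q
    have b2 := hD.bin _ (mem _ n2) q
    simp only [map_add, Pi.add_apply, zero_add] at b0 b1 b2
    change phi de q = 0
    omega
  have hbe : be = X3 r := by rw [hd0] at hde; exact (sub_eq_zero.mp hde.symm)
  have hta : (ta : RO ℤ) = (eI e : RO ℤ) := by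
    have k := key 0 (fun i => map_zero _) (by simp)
    rw [hd0, add_zero] at k
    exact (mul_right_cancel₀ n0 k).symm
  -- the relation
  have rel : ∀ y, (∀ i, mu i y = 0) → phi y j = 0 →
      G.coeff (y + X3 r) = (eI e : RO ℤ) * (G.coeff y + 3 * bB G r e y) := by
    intro y hy hyj
    obtain ⟨k1, -, k3, -⟩ := h.inj0 hF1 hD hbm hj hbj hy hyj
    have k5 := hR y hy hyj
    rw [k1, k3, hbe, sub_self, add_zero, hta] at k5
    linear_combination k5
  refine ⟨fun a ha hma => ?_, fun u hu => ?_⟩
  · rcases h.tri3 hD hma ha with h1 | h1 | ⟨h1, h2⟩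
    · exact Or.inl h1
    · exact Or.inr h1
    exfalso
    have hB : ∀ n : ℤ, bB G r e (a + n • X3 r) = 0 := by
      intro n
      by_contra hb
      exact h1 n (h.bfr hF1 hD (h.mnX hma n) hb)
    rcases hD.bin a ha j with h3 | h3
    · have k := rel a hma h3
      have k1 := h2 1 (by norm_num)
      have k2 := hB 0
      rw [one_smul] at k1
      rw [zero_smul, add_zero] at k2
      rw [k1, k2, mul_zero, add_zero] at k
      exact ha ((mul_eq_zero.mp k.symm).resolve_left (eI e).ne_zero)
    · have e1 : a - X3 r = a + (-1 : ℤ) • X3 r := by rw [neg_smul, one_smul, sub_eq_add_neg]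
      have k := rel (a - X3 r) (by rw [e1]; exact h.mnX hma _)
        (by rw [map_sub, Pi.sub_apply, h3, hXj, sub_self])
      rw [sub_add_cancel, e1, h2 (-1) (by norm_num), hB, mul_zero, add_zero, mul_zero] at k
      exact ha k
  · have huj : phi u j = 0 := (hu.1 i j).resolve_right (by rw [hj]; norm_num)
    exact rel u hu.2 huj

/-- (SF) A REAL SMALL FACTOR WITH A PORT OUTSIDE THE TRIPLE is impossible. -/
theorem sf_ro (h : Tri phi G r e mu) (hF1 : F1S) (hU : UnitAS) (hD : DD phi G)
    (hr0 : r 0 ∈ supp G) (hr1 : r 1 ∈ supp G) {be : L} (hbm : ∀ i, mu i be = 0)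
    {j : P} (hj : ∀ i, phi (r i) j = 0) (hbj : phi be j = 1) {ta : (RO ℤ)ˣ}
    (hR : ∀ y, (∀ i, mu i y = 0) → phi y j = 0 → rR G r e (y + be) =
      (ta : RO ℤ) * rR G r e y)
    (hI : ∀ y, (∀ i, mu i y = 0) → phi y j = 0 → rI G r e (y + be) =
      (ta : RO ℤ) * rI G r e y) : False := by
  have hXj : phi (X3 r) j = 0 := pX0 hj
  have f0 : Fr phi r mu 0 := ⟨fun i q => Or.inl (by simp), fun i => map_zero _⟩
  have hm1 : ∀ y : L, y - X3 r = y + (-1 : ℤ) • X3 r := fun y => by
    rw [neg_smul, one_smul, sub_eq_add_neg]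
  have hp1 : ∀ y : L, y + X3 r = y + (1 : ℤ) • X3 r := fun y => by rw [one_smul]
  have n0 := bB0 (e := e) hr0
  -- step 1: `be` is free
  have hbf : Fr phi r mu be := by
    have k1 := hI 0 (fun i => map_zero _) (by simp)
    have k2 : rI G r e 0 = bB G r e 0 := by
      unfold rI
      rw [hm1, h.bz hF1 hD f0 (by norm_num)]
      ring
    rw [zero_add, k2] at k1
    have hmX : ∀ i, mu i (X3 r) = 0 := h.mX
    have k3 := hI (X3 r) hmX hXj
    have k4 : rI G r e (X3 r) = (eI e : RO ℤ) * bB G r e 0 := by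
      unfold rI
      have := h.bz hF1 hD f0 (n := 1) (by norm_num)
      rw [one_smul, zero_add] at this
      rw [this, sub_self]
      ring
    rw [k4] at k3
    by_cases hb : bB G r e be = 0
    · exfalso
      have c1 : bB G r e (be - X3 r) ≠ 0 := by
        intro h0
        unfold rI at k1
        rw [hb, h0] at k1
        exact mul_ne_zero ta.ne_zero n0 (by linear_combination -k1)
      have c2 : bB G r e (X3 r + be) ≠ 0 := by
        intro h0
        unfold rI at k3
        rw [h0, add_sub_cancel_left, hb] at k3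
        exact mul_ne_zero ta.ne_zero (mul_ne_zero (eI e).ne_zero n0) (by linear_combination -k3)
      have c3 := h.bfr hF1 hD (fun i => by rw [map_sub, hbm, h.mX, sub_zero]) c1
      have c4 := h.bfr hF1 hD (fun i => by rw [map_add, hbm, h.mX, add_zero]) c2
      refine h.nfr hD c3 (n := 2) (by norm_num) ?_
      have e1 : be - X3 r + (2 : ℤ) • X3 r = X3 r + be := by rw [two_smul]; abel
      rw [e1]
      exact c4
    · exact h.bfr hF1 hD hbm hb
  have hfa : ∀ u, Fr phi r mu u → Fr phi r mu (u + be) := by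
    intro u hu
    refine ⟨fun i q => ?_, fun i => by rw [map_add, hu.2, hbm, add_zero]⟩
    by_cases hq : phi (r i) q = 0
    · exact Or.inr hq
    · left
      rw [map_add, Pi.add_apply, (hu.1 i q).resolve_right hq, (hbf.1 i q).resolve_right hq,
        add_zero]
  have hfs : ∀ u, Fr phi r mu u → Fr phi r mu (u - be) := by
    intro u hu
    refine ⟨fun i q => ?_, fun i => by rw [map_sub, hu.2, hbm, sub_zero]⟩
    by_cases hq : phi (r i) q = 0
    · exact Or.inr hq
    · left
      rw [map_sub, Pi.sub_apply, (hu.1 i q).resolve_right hq, (hbf.1 i q).resolve_right hq,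
        sub_zero]
  -- step 2
  have s2 : ∀ y, (∀ i, mu i y = 0) → phi y j = 0 →
      bB G r e (y + be) = (ta : RO ℤ) * bB G r e y := by
    intro y hy hyj
    have hyb : ∀ i, mu i (y + be) = 0 := fun i => by rw [map_add, hy, hbm, add_zero]
    have k := hI y hy hyj
    by_cases c1 : Fr phi r mu y
    · unfold rI at k
      rw [hm1 y, h.bz hF1 hD c1 (by norm_num), hm1 (y + be),
        h.bz hF1 hD (hfa y c1) (by norm_num)] at k
      linear_combination k
    · by_cases c2 : Fr phi r mu (y - X3 r)
      · have z1 : bB G r e y = 0 := by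
          by_contra hb
          exact c1 (h.bfr hF1 hD hy hb)
        have z2 : bB G r e (y + be) = 0 := by
          have := h.bz hF1 hD (hfa _ c2) (n := 1) (by norm_num)
          have e1 : y - X3 r + be + (1 : ℤ) • X3 r = y + be := by rw [one_smul]; abel
          rwa [e1] at this
        rw [z1, z2, mul_zero]
      · have z1 : bB G r e y = 0 := by
          by_contra hb
          exact c1 (h.bfr hF1 hD hy hb)
        have z2 : bB G r e (y - X3 r) = 0 := by
          by_contra hb
          exact c2 (h.bfr hF1 hD (fun i => by rw [map_sub, hy, h.mX, sub_zero]) hb)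
        have z3 : rI G r e y = 0 := by unfold rI; rw [z1, z2]; ring
        rw [z3, mul_zero] at k
        rw [z1, mul_zero]
        exact (h.iz hF1 hD hyb k).1
  -- step 3
  have s3 : ∀ y, (∀ i, mu i y = 0) → phi y j = 0 →
      G.coeff (y + be) = (ta : RO ℤ) * G.coeff y := by
    intro y hy hyj
    have k := hR y hy hyj
    have k2 := s2 (y - X3 r) (fun i => by rw [map_sub, hy, h.mX, sub_zero])
      (by rw [map_sub, Pi.sub_apply, hyj, hXj, sub_zero])
    have e1 : y - X3 r + be = y + be - X3 r := by abel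
    rw [e1] at k2
    unfold rR at k
    rw [k2] at k
    linear_combination k
  -- step 4: singles and pairs
  have s4a : ∀ u, Fr phi r mu u → phi u j = 0 → ∀ i,
      G.coeff (u + r i + be) = (ta : RO ℤ) * G.coeff (u + r i) := by
    intro u hu huj i
    have k1 := h.all_eq hF1 hD.inj hD.bin hu i 0
    have k2 := h.all_eq hF1 hD.inj hD.bin (hfa u hu) i 0
    have k3 := s2 u hu.2 huj
    unfold bB at k3
    have e1 : u + be + r i = u + r i + be := by abel
    rw [e1] at k2
    apply mul_left_cancel₀ (e i).ne_zero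
    linear_combination k2 + k3 - (ta : RO ℤ) * k1
  have s4b : ∀ u, Fr phi r mu u → phi u j = 0 → ∀ i,
      G.coeff (u + r (i + 1) + r (i - 1) + be) =
        (ta : RO ℤ) * G.coeff (u + r (i + 1) + r (i - 1)) := by
    intro u hu huj i
    have k1 := h.pair hF1 hD.inj hD.bin hu (z3g i) 0
    have k2 := h.pair hF1 hD.inj hD.bin (hfa u hu) (z3g i) 0
    have k3 := s2 u hu.2 huj
    unfold bB at k3
    have e1 : u + be + r (i + 1) + r (i - 1) = u + r (i + 1) + r (i - 1) + be := by abel
    rw [e1] at k2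
    apply mul_left_cancel₀ (mul_ne_zero (e (i + 1)).ne_zero (e (i - 1)).ne_zero)
    linear_combination k2 - k3 - (ta : RO ℤ) * k1
  have s4 : ∀ a, phi a j = 0 → G.coeff (a + be) = (ta : RO ℤ) * G.coeff a := by
    intro a haj
    by_cases hA : a ∈ supp G
    · rcases h.nf hF1 hD.inj hD.bin hA with h1 | ⟨i, u, hu, rfl⟩ | ⟨i, u, hu, rfl⟩
      · exact s3 a h1 haj
      · rw [map_add, Pi.add_apply, hj, add_zero] at haj
        exact s4a u hu haj i
      · rw [map_add, map_add, Pi.add_apply, Pi.add_apply, hj, hj, add_zero, add_zero] at haj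
        exact s4b u hu haj i
    · by_cases hB : a + be ∈ supp G
      · rcases h.nf hF1 hD.inj hD.bin hB with h1 | ⟨i, u, hu, h2⟩ | ⟨i, u, hu, h2⟩
        · refine s3 a (fun i => ?_) haj
          have := h1 i
          rwa [map_add, hbm, add_zero] at this
        · have h3 : a = (u - be) + r i := by rw [eq_sub_of_add_eq h2]; abel
          rw [h3, map_add, Pi.add_apply, hj, add_zero] at haj
          rw [h3]
          exact s4a _ (hfs u hu) haj i
        · have h3 : a = (u - be) + r (i + 1) + r (i - 1) := by rw [eq_sub_of_add_eq h2]; abel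
          rw [h3, map_add, map_add, Pi.add_apply, Pi.add_apply, hj, hj, add_zero, add_zero] at haj
          rw [h3]
          exact s4b _ (hfs u hu) haj i
      · have z1 : G.coeff a = 0 := by by_contra hne; exact hA hne
        have z2 : G.coeff (a + be) = 0 := by by_contra hne; exact hB hne
        rw [z1, z2, mul_zero]
  -- step 5: the factorisation
  obtain ⟨Q, hQ⟩ : ∃ Q : AO ℤ L, ∀ a, Q.coeff a = if phi a j = 0 then G.coeff a else 0 :=
    ⟨AddMonoidAlgebra.ofCoeff (G.coeff.filter fun a => phi a j = 0), fun a => by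
      rw [AddMonoidAlgebra.coeff_ofCoeff, Finsupp.filter_apply]⟩
  have hfac : G = Q * (1 + single be (ta : RO ℤ)) := by
    apply AddMonoidAlgebra.ext
    apply Finsupp.ext
    intro a
    have e1 : (Q * (1 + single be (ta : RO ℤ))).coeff a =
        Q.coeff a + Q.coeff (a - be) * (ta : RO ℤ) := by
      rw [mul_add, mul_one, AddMonoidAlgebra.coeff_add, Finsupp.add_apply, mul_single_co]
    rw [e1, hQ, hQ]
    have hv : phi (a - be) j = phi a j - 1 := by rw [map_sub, Pi.sub_apply, hbj]
    by_cases c0 : phi a j = 0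
    · rw [if_pos c0, if_neg (by rw [hv, c0]; norm_num), zero_mul, add_zero]
    · rw [if_neg c0, zero_add]
      by_cases c1 : phi a j = 1
      · have c2 : phi (a - be) j = 0 := by rw [hv, c1, sub_self]
        rw [if_pos c2]
        have := s4 (a - be) c2
        rw [sub_add_cancel] at this
        rw [this]
        ring
      · rw [if_neg (by rw [hv]; omega), zero_mul]
        by_contra hne
        rcases hD.bin a hne j with h1 | h1
        · exact c0 h1
        · exact c1 h1
  have hbe0 : be ≠ 0 := by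
    rintro rfl
    rw [map_zero] at hbj
    exact absurd hbj (by norm_num)
  rcases hD.irr.isUnit_or_isUnit hfac with h1 | h1
  · obtain ⟨x, c, -, hx⟩ := (hU ℤ L Q).mp h1
    have g0 : Q.coeff (r 0) ≠ 0 := by rw [hQ, if_pos (hj 0)]; exact hr0
    have g1 : Q.coeff (r 1) ≠ 0 := by rw [hQ, if_pos (hj 1)]; exact hr1
    rw [hx] at g0 g1
    have x0 : x = r 0 := single_ne g0
    have x1 : x = r 1 := single_ne g1
    have a1 : mu 0 (r 1) = 1 := h.nxt 0
    have a2 : mu 0 (r 0) = 0 := h.slf 0
    rw [← x1, x0, a2] at a1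
    exact absurd a1 (by norm_num)
  · obtain ⟨x, c, -, hx⟩ := (hU ℤ L _).mp h1
    obtain ⟨g0, g1⟩ := one_add_co hbe0 (ta : RO ℤ)
    rw [hx] at g0 g1
    have x0 : x = 0 := single_ne (by rw [g0]; exact one_ne_zero)
    have x1 : x = be := single_ne (by rw [g1]; exact ta.ne_zero)
    exact hbe0 (x1.symm.trans x0)

end Tri

end

end Pool.Agent.B5.KO.H71
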