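import Pool.Agent.Lib.MP_b5021c_nt.KO.H71.Sf2
import Pool.Agent.Lib.MP_b5021c_nt.IfaceD

/-!
# MP_b5021c_nt, all `θ`, K odd, leaf O4, `l = 3`, row SF: the identity `G = A + B S`, the non-real
unit with a port of the triple
-/

set_option linter.unusedSectionVars false

namespace Pool.Agent.B5.KO.H71

open scoped LaurentPolynomial
open AddMonoidAlgebra (single)

section

variable {P : Type} [Fintype P] [DecidableEq P] {L : Type} [AddCommGroup L] [Module.Free ℤ L]
  [Module.Finite ℤ L] {phi : L →+ (P → ℤ)} {G : AO ℤ L} {r : ZMod 3 → L} {e : ZMod 3 → (RO ℤ)ˣ}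
  {mu : ZMod 3 → L →+ ℤ}

/-- The exponents of `G` with `mu = 0`. -/
noncomputable def aZ {L : Type} [AddCommGroup L] (G : AO ℤ L) (mu : ZMod 3 → L →+ ℤ) : AO ℤ L :=
  AddMonoidAlgebra.ofCoeff (G.coeff.filter fun y => mu 0 y = 0 ∧ mu 1 y = 0)

/-- `B`. -/
noncomputable def bZ {L : Type} [AddCommGroup L] (G : AO ℤ L) (r : ZMod 3 → L)
    (e : ZMod 3 → (RO ℤ)ˣ) (mu : ZMod 3 → L →+ ℤ) : AO ℤ L :=
  AddMonoidAlgebra.ofCoeff
    ((single (-(r 0)) (e 0 : RO ℤ) * G).coeff.filter fun y => mu 0 y = 0 ∧ mu 1 y = 0)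

theorem aZ_co (y : L) : (aZ G mu).coeff y = if mu 0 y = 0 ∧ mu 1 y = 0 then G.coeff y else 0 := by
  unfold aZ
  rw [AddMonoidAlgebra.coeff_ofCoeff, Finsupp.filter_apply]

theorem bZ_co (y : L) :
    (bZ G r e mu).coeff y = if mu 0 y = 0 ∧ mu 1 y = 0 then bB G r e y else 0 := by
  unfold bZ bB
  rw [AddMonoidAlgebra.coeff_ofCoeff, Finsupp.filter_apply, single_mul_co, sub_neg_eq_add]

/-- `S`. -/
noncomputable def sZ {L : Type} [AddCommGroup L] (r : ZMod 3 → L) (e : ZMod 3 → (RO ℤ)ˣ) :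
    AO ℤ L :=
  single (r 0) (((e 0)⁻¹ : (RO ℤ)ˣ) : RO ℤ) + single (r 1) (((e 1)⁻¹ : (RO ℤ)ˣ) : RO ℤ) +
    single (r 2) (((e 2)⁻¹ : (RO ℤ)ˣ) : RO ℤ) -
    single (r 0 + r 1) (((e 0 * e 1)⁻¹ : (RO ℤ)ˣ) : RO ℤ) -
    single (r 1 + r 2) (((e 1 * e 2)⁻¹ : (RO ℤ)ˣ) : RO ℤ) -
    single (r 2 + r 0) (((e 2 * e 0)⁻¹ : (RO ℤ)ˣ) : RO ℤ)

theorem mul_sZ (F : AO ℤ L) (x : L) : (F * sZ r e).coeff x =
    F.coeff (x - r 0) * (((e 0)⁻¹ : (RO ℤ)ˣ) : RO ℤ) +
    F.coeff (x - r 1) * (((e 1)⁻¹ : (RO ℤ)ˣ) : RO ℤ) +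
    F.coeff (x - r 2) * (((e 2)⁻¹ : (RO ℤ)ˣ) : RO ℤ) -
    F.coeff (x - (r 0 + r 1)) * (((e 0 * e 1)⁻¹ : (RO ℤ)ˣ) : RO ℤ) -
    F.coeff (x - (r 1 + r 2)) * (((e 1 * e 2)⁻¹ : (RO ℤ)ˣ) : RO ℤ) -
    F.coeff (x - (r 2 + r 0)) * (((e 2 * e 0)⁻¹ : (RO ℤ)ˣ) : RO ℤ) := by
  unfold sZ
  simp only [mul_add, mul_sub, AddMonoidAlgebra.coeff_add, AddMonoidAlgebra.coeff_sub,
    Finsupp.add_apply, Finsupp.sub_apply, mul_single_co]

namespace Tri

theorem lam_iff (h : Tri phi G r e mu) (y : L) :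
    (∀ i, mu i y = 0) ↔ mu 0 y = 0 ∧ mu 1 y = 0 := by
  constructor
  · intro h1
    exact ⟨h1 0, h1 1⟩
  · rintro ⟨h0, h1⟩ i
    have h2 := h.sum y
    rcases z3v i with rfl | rfl | rfl
    · exact h0
    · exact h1
    · rw [h0, h1] at h2; simpa using h2

/-- singles at every exponent with `mu = 0`. -/
theorem sval (h : Tri phi G r e mu) (hF1 : F1S) (hD : DD phi G) {u : L}
    (hu : ∀ i, mu i u = 0) (i : ZMod 3) :
    (e i : RO ℤ) * G.coeff (u + r i) = bB G r e u := by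
  by_cases hf : Fr phi r mu u
  · exact h.all_eq hF1 hD.inj hD.bin hf i 0
  · have z1 : bB G r e u = 0 := by
      by_contra hb
      exact hf (h.bfr hF1 hD hu hb)
    have z2 : G.coeff (u + r i) = 0 := by
      by_contra hne
      obtain ⟨v0, v1, v2⟩ := h.va i u
      rw [hu] at v0 v1 v2
      have h2 := h.ty1 hF1 hD.inj hD.bin hne v0 (by rw [v1]; norm_num) (by rw [v2]; norm_num)
      rw [add_sub_cancel_right] at h2
      exact hf h2
    rw [z1, z2, mul_zero]

/-- pairs at every exponent with `mu = 0`. -/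
theorem pval (h : Tri phi G r e mu) (hF1 : F1S) (hD : DD phi G) {u : L}
    (hu : ∀ i, mu i u = 0) (i : ZMod 3) :
    (e (i + 1) : RO ℤ) * (e (i - 1) : RO ℤ) * G.coeff (u + r (i + 1) + r (i - 1)) =
      -bB G r e u := by
  by_cases hf : Fr phi r mu u
  · exact h.pair hF1 hD.inj hD.bin hf (z3g i) 0
  · have z1 : bB G r e u = 0 := by
      by_contra hb
      exact hf (h.bfr hF1 hD hu hb)
    have z2 : G.coeff (u + r (i + 1) + r (i - 1)) = 0 := by
      by_contra hne
      obtain ⟨v0, v1, v2⟩ := h.va (i + 1) u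
      obtain ⟨w0, w1, w2⟩ := h.va (i - 1) (u + r (i + 1))
      rw [z3a] at v1
      rw [z3c] at v2
      rw [z3d] at w1
      rw [z3b] at w2
      rw [hu] at v0 v1 v2
      have h2 := h.ty2 hF1 hD.inj hD.bin hne (i := i) (by rw [w1, v2]; norm_num)
        (by rw [w2, v0]; norm_num) (by rw [w0, v1]; norm_num)
      have e1 : u + r (i + 1) + r (i - 1) - r (i + 1) - r (i - 1) = u := by abel
      rw [e1] at h2
      exact hf h2
    rw [z1, z2]
    ring

/-- (N3) THE IDENTITY `G = A + B S`. -/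
theorem n3 (h : Tri phi G r e mu) (hF1 : F1S) (hD : DD phi G) :
    G = aZ G mu + bZ G r e mu * sZ r e := by
  apply AddMonoidAlgebra.ext
  apply Finsupp.ext
  intro x
  rw [AddMonoidAlgebra.coeff_add, Finsupp.add_apply, mul_sZ, aZ_co]
  simp only [bZ_co]
  have a00 : mu 0 (r 0) = 0 := h.slf 0
  have a01 : mu 0 (r 1) = 1 := h.nxt 0
  have a02 : mu 0 (r 2) = -1 := h.prv 0
  have a10 : mu 1 (r 0) = -1 := h.prv' 0
  have a11 : mu 1 (r 1) = 0 := h.slf 1
  have a12 : mu 1 (r 2) = 1 := h.nxt 1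
  have i0 : (((e 0)⁻¹ : (RO ℤ)ˣ) : RO ℤ) * (e 0 : RO ℤ) = 1 := Units.inv_mul _
  have i1 : (((e 1)⁻¹ : (RO ℤ)ˣ) : RO ℤ) * (e 1 : RO ℤ) = 1 := Units.inv_mul _
  have i2 : (((e 2)⁻¹ : (RO ℤ)ˣ) : RO ℤ) * (e 2 : RO ℤ) = 1 := Units.inv_mul _
  have i01 : (((e 0 * e 1)⁻¹ : (RO ℤ)ˣ) : RO ℤ) * ((e 0 : RO ℤ) * (e 1 : RO ℤ)) = 1 := by
    rw [← Units.val_mul]; exact Units.inv_mul _
  have i12 : (((e 1 * e 2)⁻¹ : (RO ℤ)ˣ) : RO ℤ) * ((e 1 : RO ℤ) * (e 2 : RO ℤ)) = 1 := by
    rw [← Units.val_mul]; exact Units.inv_mul _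
  have i20 : (((e 2 * e 0)⁻¹ : (RO ℤ)ˣ) : RO ℤ) * ((e 2 : RO ℤ) * (e 0 : RO ℤ)) = 1 := by
    rw [← Units.val_mul]; exact Units.inv_mul _
  generalize (((e 0 * e 1)⁻¹ : (RO ℤ)ˣ) : RO ℤ) = E01 at i01 ⊢
  generalize (((e 1 * e 2)⁻¹ : (RO ℤ)ˣ) : RO ℤ) = E12 at i12 ⊢
  generalize (((e 2 * e 0)⁻¹ : (RO ℤ)ˣ) : RO ℤ) = E20 at i20 ⊢
  simp only [map_sub, map_add, a00, a01, a02, a10, a11, a12]
  obtain ⟨m, hm⟩ : ∃ m, m = mu 0 x := ⟨_, rfl⟩
  obtain ⟨n, hn⟩ : ∃ n, n = mu 1 x := ⟨_, rfl⟩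
  rw [← hm, ← hn]
  have S := fun (u : L) (hu : mu 0 u = 0 ∧ mu 1 u = 0) => h.sval hF1 hD ((h.lam_iff u).mpr hu)
  have PP := fun (u : L) (hu : mu 0 u = 0 ∧ mu 1 u = 0) => h.pval hF1 hD ((h.lam_iff u).mpr hu)
  by_cases c0 : m = 0 ∧ n = 0
  · rw [c0.1, c0.2]; norm_num
  by_cases c1 : m = 0 ∧ n = -1
  · have k := S (x - r 0) (by rw [map_sub, map_sub, a00, a10, ← hm, ← hn]; omega) 0
    rw [sub_add_cancel] at k
    rw [c1.1, c1.2]; norm_num
    linear_combination (((e 0)⁻¹ : (RO ℤ)ˣ) : RO ℤ) * k - G.coeff x * i0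
  by_cases c2 : m = 1 ∧ n = 0
  · have k := S (x - r 1) (by rw [map_sub, map_sub, a01, a11, ← hm, ← hn]; omega) 1
    rw [sub_add_cancel] at k
    rw [c2.1, c2.2]; norm_num
    linear_combination (((e 1)⁻¹ : (RO ℤ)ˣ) : RO ℤ) * k - G.coeff x * i1
  by_cases c3 : m = -1 ∧ n = 1
  · have k := S (x - r 2) (by rw [map_sub, map_sub, a02, a12, ← hm, ← hn]; omega) 2
    rw [sub_add_cancel] at k
    rw [c3.1, c3.2]; norm_num
    linear_combination (((e 2)⁻¹ : (RO ℤ)ˣ) : RO ℤ) * k - G.coeff x * i2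
  by_cases c4 : m = 1 ∧ n = -1
  · have k := PP (x - (r 0 + r 1))
      (by rw [map_sub, map_sub, map_add, map_add, a00, a01, a10, a11, ← hm, ← hn]; omega) 2
    rw [show (2 : ZMod 3) + 1 = 0 by decide, show (2 : ZMod 3) - 1 = 1 by decide,
      show x - (r 0 + r 1) + r 0 + r 1 = x by abel] at k
    rw [c4.1, c4.2]; norm_num
    linear_combination E01 * k - G.coeff x * i01
  by_cases c5 : m = 0 ∧ n = 1
  · have k := PP (x - (r 1 + r 2))
      (by rw [map_sub, map_sub, map_add, map_add, a01, a02, a11, a12, ← hm, ← hn]; omega) 0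
    rw [show (0 : ZMod 3) + 1 = 1 by decide, show (0 : ZMod 3) - 1 = 2 by decide,
      show x - (r 1 + r 2) + r 1 + r 2 = x by abel] at k
    rw [c5.1, c5.2]; norm_num
    linear_combination E12 * k - G.coeff x * i12
  by_cases c6 : m = -1 ∧ n = 0
  · have k := PP (x - (r 2 + r 0))
      (by rw [map_sub, map_sub, map_add, map_add, a00, a02, a10, a12, ← hm, ← hn]; omega) 1
    rw [show (1 : ZMod 3) + 1 = 2 by decide, show (1 : ZMod 3) - 1 = 0 by decide,
      show x - (r 2 + r 0) + r 2 + r 0 = x by abel] at k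
    rw [c6.1, c6.2]; norm_num
    linear_combination E20 * k - G.coeff x * i20
  rw [if_neg c0, if_neg (by omega), if_neg (by omega), if_neg (by omega), if_neg (by omega),
    if_neg (by omega), if_neg (by omega)]
  simp only [zero_mul, add_zero, sub_zero]
  by_contra hne
  have v0 := h.val 0 x hne
  have v1 := h.val 1 x hne
  have v2 := h.val 2 x hne
  have vs := h.sum x
  rw [← hm] at v0 vs
  rw [← hn] at v1 vs
  omega

/-- (SF) A NON-REAL SMALL FACTOR WITH A PORT OF THE TRIPLE: rank at most `4`. -/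
theorem sf_ni (h : Tri phi G r e mu) (hF1 : F1S) (hU : UnitAS) (hRk : RkS) (hD : DD phi G)
    (h5 : 5 ≤ Module.finrank ℤ L) (hr0 : r 0 ∈ supp G) (hr1 : r 1 ∈ supp G) {be : L}
    (hbm : ∀ i, mu i be = 0) {i : ZMod 3} {j : P} (hj : phi (r i) j = 1) (hbj : phi be j = 1)
    {a b d : ℤ} (hdet : a * d - b = 1) {ta : (RO ℤ)ˣ}
    (hR : ∀ y, (∀ i, mu i y = 0) → phi y j = 0 → rR G r e (y + be) =
      (ta : RO ℤ) * (a * rR G r e y + b * rI G r e y))
    (hI : ∀ y, (∀ i, mu i y = 0) → phi y j = 0 → rI G r e (y + be) =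
      (ta : RO ℤ) * (rR G r e y + d * rI G r e y)) : False := by
  classical
  have hXj := h.pX i hj
  have hdet' : (a : RO ℤ) * (d : RO ℤ) - (b : RO ℤ) = 1 := by
    have h9 := congrArg (fun n : ℤ => (n : RO ℤ)) hdet
    push_cast at h9
    exact h9
  obtain ⟨de, hde⟩ : ∃ de, de = be - X3 r := ⟨_, rfl⟩
  have hdj : phi de j = 0 := by rw [hde, map_sub, Pi.sub_apply, hbj, hXj, sub_self]
  have hdm : ∀ i, mu i de = 0 := fun i => by rw [hde, map_sub, hbm, h.mX, sub_zero]
  obtain ⟨ti, hti⟩ : ∃ ti : RO ℤ, (ta : RO ℤ) * ti = 1 := ⟨_, Units.mul_inv ta⟩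
  -- the relations
  have rel : ∀ y, (∀ i, mu i y = 0) → phi y j = 0 →
      G.coeff y = ti * (eI e : RO ℤ) * bB G r e (y + de) - d * bB G r e y ∧
        G.coeff (y + be) = (3 + a) * (eI e : RO ℤ) * bB G r e (y + de) -
          (ta : RO ℤ) * bB G r e y := by
    intro y hy hyj
    obtain ⟨k1, k2, k3, k4⟩ := h.inj0 hF1 hD hbm hj hbj hy hyj
    have k5 := hI y hy hyj
    have k6 := hR y hy hyj
    rw [k1, k2, k4, ← hde] at k5
    rw [k1, k2, k3, ← hde] at k6
    have k7 : G.coeff y = ti * (eI e : RO ℤ) * bB G r e (y + de) - d * bB G r e y := by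
      linear_combination -ti * k5 - (G.coeff y + d * bB G r e y) * hti
    refine ⟨k7, ?_⟩
    have k8 : (ta : RO ℤ) * G.coeff y = (eI e : RO ℤ) * bB G r e (y + de) -
        (ta : RO ℤ) * d * bB G r e y := by linear_combination -k5
    linear_combination k6 + (a : RO ℤ) * k8 - (ta : RO ℤ) * bB G r e y * hdet'
  -- the value of `A`
  have hB0 : ∀ y, (∀ i, mu i y = 0) → phi y j ≠ 0 → bB G r e y = 0 := fun y hy hyj =>
    h.bj0 hF1 hD hy hj hyj
  have hA : ∀ x, (∀ i, mu i x = 0) → G.coeff x =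
      bB G r e (x + de) * (ti * (eI e : RO ℤ)) - bB G r e x * d +
        bB G r e (x - X3 r) * ((3 + a) * (eI e : RO ℤ)) - bB G r e (x - be) * (ta : RO ℤ) := by
    intro x hx
    have m1 : ∀ i, mu i (x + de) = 0 := fun i => by rw [map_add, hx, hdm, add_zero]
    have m2 : ∀ i, mu i (x - X3 r) = 0 := fun i => by rw [map_sub, hx, h.mX, sub_zero]
    have m3 : ∀ i, mu i (x - be) = 0 := fun i => by rw [map_sub, hx, hbm, sub_zero]
    have p1 : phi (x + de) j = phi x j := by rw [map_add, Pi.add_apply, hdj, add_zero]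
    have p2 : phi (x - X3 r) j = phi x j - 1 := by rw [map_sub, Pi.sub_apply, hXj]
    have p3 : phi (x - be) j = phi x j - 1 := by rw [map_sub, Pi.sub_apply, hbj]
    by_cases c0 : phi x j = 0
    · rw [hB0 _ m2 (by rw [p2, c0]; norm_num), hB0 _ m3 (by rw [p3, c0]; norm_num),
        (rel x hx c0).1]
      ring
    · rw [hB0 _ m1 (by rw [p1]; exact c0), hB0 _ hx c0]
      by_cases c1 : phi x j = 1
      · have k := (rel (x - be) m3 (by rw [p3, c1, sub_self])).2
        rw [sub_add_cancel, hde, show x - be + (be - X3 r) = x - X3 r by abel] at k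
        rw [k]
        ring
      · rw [hB0 _ m2 (by rw [p2]; omega), hB0 _ m3 (by rw [p3]; omega)]
        have z : G.coeff x = 0 := by
          by_contra hne
          rcases hD.bin x hne j with h1 | h1
          · exact c0 h1
          · exact c1 h1
        rw [z]
        ring
  -- the factorisation
  obtain ⟨Q0, hQ0⟩ : ∃ Q0 : AO ℤ L, Q0 = single (-de) (ti * (eI e : RO ℤ)) - single 0 (d : RO ℤ) +
      single (X3 r) ((3 + a) * (eI e : RO ℤ)) - single be (ta : RO ℤ) := ⟨_, rfl⟩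
  have hfac : G = bZ G r e mu * (Q0 + sZ r e) := by
    have h1 : aZ G mu = bZ G r e mu * Q0 := by
      apply AddMonoidAlgebra.ext
      apply Finsupp.ext
      intro x
      have e1 : (bZ G r e mu * Q0).coeff x =
          (bZ G r e mu).coeff (x + de) * (ti * (eI e : RO ℤ)) - (bZ G r e mu).coeff x * d +
          (bZ G r e mu).coeff (x - X3 r) * ((3 + a) * (eI e : RO ℤ)) -
          (bZ G r e mu).coeff (x - be) * (ta : RO ℤ) := by
        rw [hQ0]
        simp only [mul_add, mul_sub, AddMonoidAlgebra.coeff_add, AddMonoidAlgebra.coeff_sub,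
          Finsupp.add_apply, Finsupp.sub_apply, mul_single_co, sub_neg_eq_add, sub_zero]
      rw [e1, aZ_co]
      simp only [bZ_co, map_add, map_sub, hdm, hbm, h.mX, add_zero, sub_zero]
      by_cases c : mu 0 x = 0 ∧ mu 1 x = 0
      · simp only [if_pos c]
        exact hA x ((h.lam_iff x).mpr c)
      · simp only [if_neg c]
        ring
    rw [mul_add, ← h1]
    exact h.n3 hF1 hD
  rcases hD.irr.isUnit_or_isUnit hfac with h1 | h1
  · obtain ⟨x, c, -, hx⟩ := (hU ℤ L _).mp h1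
    have n0 : (bZ G r e mu).coeff 0 ≠ 0 := by
      rw [bZ_co, if_pos ⟨map_zero _, map_zero _⟩]
      exact bB0 hr0
    have x0 : x = 0 := by
      rw [hx] at n0
      exact single_ne n0
    have hz : ∀ y, (∀ i, mu i y = 0) → bB G r e y ≠ 0 → y = 0 := by
      intro y hy hb
      have k : (bZ G r e mu).coeff y ≠ 0 := by
        rw [bZ_co, if_pos ((h.lam_iff y).mp hy)]
        exact hb
      rw [hx] at k
      have := single_ne k
      rw [← this, x0]
    -- the support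
    have hsub : supp G ⊆ (Submodule.span ℤ (({de, r 0, r 1, r 2} : Finset L) : Set L) : Set L) := by
      have g : ∀ y ∈ ({de, r 0, r 1, r 2} : Finset L),
          y ∈ Submodule.span ℤ (({de, r 0, r 1, r 2} : Finset L) : Set L) := fun y hy =>
        Submodule.subset_span hy
      have gd := g de (by simp)
      have g0 := g (r 0) (by simp)
      have g1 := g (r 1) (by simp)
      have g2 := g (r 2) (by simp)
      have gr : ∀ i, r i ∈ Submodule.span ℤ (({de, r 0, r 1, r 2} : Finset L) : Set L) := by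
        intro i
        rcases z3v i with rfl | rfl | rfl
        · exact g0
        · exact g1
        · exact g2
      have gX : X3 r ∈ Submodule.span ℤ (({de, r 0, r 1, r 2} : Finset L) : Set L) :=
        Submodule.add_mem _ (Submodule.add_mem _ g0 g1) g2
      intro x hxs
      change x ∈ Submodule.span ℤ (({de, r 0, r 1, r 2} : Finset L) : Set L)
      rcases h.nf hF1 hD.inj hD.bin hxs with k1 | ⟨i, u, hu, hi⟩ | ⟨i, u, hu, hi⟩
      · have k2 := hA x k1
        by_cases c1 : bB G r e (x + de) = 0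
        · by_cases c2 : bB G r e x = 0
          · by_cases c3 : bB G r e (x - X3 r) = 0
            · by_cases c4 : bB G r e (x - be) = 0
              · exfalso
                rw [c1, c2, c3, c4] at k2
                exact hxs (by rw [k2]; ring)
              · have k3 := hz _ (fun i => by rw [map_sub, k1, hbm, sub_zero]) c4
                have k4 : x = de + X3 r := by rw [hde, sub_add_cancel]; exact sub_eq_zero.mp k3
                rw [k4]
                exact Submodule.add_mem _ gd gX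
            · have k3 := hz _ (fun i => by rw [map_sub, k1, h.mX, sub_zero]) c3
              rw [sub_eq_zero.mp k3]
              exact gX
          · rw [hz _ k1 c2]
            exact Submodule.zero_mem _
        · have k3 := hz _ (fun i => by rw [map_add, k1, hdm, add_zero]) c1
          rw [eq_neg_of_add_eq_zero_left k3]
          exact Submodule.neg_mem _ gd
      · have k2 : bB G r e u ≠ 0 := by
          rw [← h.sval hF1 hD hu.2 i, ← hi]
          exact mul_ne_zero (e i).ne_zero hxs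
        have k3 := hz u hu.2 k2
        rw [hi, k3, zero_add]
        exact gr i
      · have k2 : bB G r e u ≠ 0 := by
          intro h0
          have k4 := h.pval hF1 hD hu.2 i
          rw [← hi, h0, neg_zero] at k4
          exact mul_ne_zero (mul_ne_zero (e (i + 1)).ne_zero (e (i - 1)).ne_zero) hxs k4
        have k3 := hz u hu.2 k2
        rw [hi, k3, zero_add]
        exact Submodule.add_mem _ (gr _) (gr _)
    have k1 : rk (supp G) ≤ 4 := by
      have k2 : rk (supp G) ≤ rk (({de, r 0, r 1, r 2} : Finset L) : Set L) :=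
        (hRk L L).2.2.2.2.2.2.2.2.1 _ _ fun y hy => ⟨1, one_ne_zero, by
          rw [one_smul]; exact hsub hy⟩
      refine k2.trans ((finrank_span_finset_le_card _).trans ?_)
      exact Finset.card_le_four
    rw [hD.spn] at k1
    omega
  · obtain ⟨x, c, -, hx⟩ := (hU ℤ L _).mp h1
    rw [hx] at hfac
    have key : ∀ y ∈ supp G, mu 0 y = mu 0 x := by
      intro y hy
      have k1 : G.coeff y ≠ 0 := hy
      rw [hfac, mul_single_co] at k1
      have k2 := left_ne_zero_of_mul k1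
      rw [bZ_co] at k2
      by_cases c : mu 0 (y - x) = 0 ∧ mu 1 (y - x) = 0
      · have := c.1
        rw [map_sub] at this
        linarith
      · rw [if_neg c] at k2
        exact absurd rfl k2
    have a1 : mu 0 (r 1) = 1 := h.nxt 0
    have a2 : mu 0 (r 0) = 0 := h.slf 0
    have b1 := key _ hr1
    have b0 := key _ hr0
    rw [a1] at b1
    rw [a2] at b0
    omega

end Tri

end

end Pool.Agent.B5.KO.H71
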