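import Pool.Agent.Lib.MP_b5021c_nt.KO.H71.Sf3
import Pool.Agent.Lib.MP_b5021c_nt.KO.H71.Nf2
import Pool.Agent.Lib.MP_b5021c_nt.KO.H57.T2a

/-!
# MP_b5021c_nt, all `θ`, K odd, leaf O4, `l = 3`, row SF: a small factor of the second closing at
`e^(i pi/3)` of a closed triple: TERMINAL
-/

set_option linter.unusedSectionVars false

namespace Pool.Agent.B5.KO.H71

open scoped LaurentPolynomial
open AddMonoidAlgebra (single)
open Pool.Agent.B5.BPR Pool.Agent.B5.BP12
open Pool.Agent.MP_b5021c_nt (Eis)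
open Pool.Agent.MP_b5021c_nt.Ire (bc)
open Pool.Agent.B5.H25.Bch
open Pool.Agent.B5.BP90 (Et)

section

variable {P : Type} [Fintype P] [DecidableEq P] {L : Type} [AddCommGroup L] [Module.Free ℤ L]
  [Module.Finite ℤ L] {phi : L →+ (P → ℤ)} {G : AO ℤ L} {r : ZMod 3 → L} {e : ZMod 3 → (RO ℤ)ˣ}
  {mu : ZMod 3 → L →+ ℤ}

/-- `C et ^ 2 = C et - 1`. -/
theorem et_sq {et : Eis} (he : Et et) :
    (LaurentPolynomial.C et : RO Eis) * LaurentPolynomial.C et = LaurentPolynomial.C et - 1 := by
  have h1 := BP57.et_mul he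
  have h2 : et * et = et - 1 := by linear_combination -h1
  rw [← map_mul, h2, map_sub, map_one]

/-- The value of the second closing. -/
noncomputable def fF {L : Type} [AddCommGroup L] (et : Eis) (G : AO ℤ L) (r : ZMod 3 → L)
    (e : ZMod 3 → (RO ℤ)ˣ) (y : L) : RO Eis :=
  bcR (rR G r e y) + (1 + LaurentPolynomial.C et) * bcR (rI G r e y)

/-- The exponent of the class with `mu = 0`. -/
def lamP {L : Type} [AddCommGroup L] (r : ZMod 3 → L) (mu : ZMod 3 → L →+ ℤ) (a : L) : L :=
  a + mu 1 a • r 0 - mu 0 a • r 1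

theorem lamP_add (a b : L) : lamP r mu (a + b) = lamP r mu a + lamP r mu b := by
  unfold lamP
  rw [map_add, map_add, add_smul, add_smul]
  abel

namespace Tri

theorem lamP_mu (h : Tri phi G r e mu) (a : L) : ∀ i, mu i (lamP r mu a) = 0 := by
  rw [h.lam_iff]
  have a00 : mu 0 (r 0) = 0 := h.slf 0
  have a01 : mu 0 (r 1) = 1 := h.nxt 0
  have a10 : mu 1 (r 0) = -1 := h.prv' 0
  have a11 : mu 1 (r 1) = 0 := h.slf 1
  unfold lamP
  simp only [map_add, map_sub, map_zsmul, a00, a01, a10, a11, smul_eq_mul]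
  constructor <;> ring

/-- (N6) THE SECOND CLOSING. -/
theorem n6 (h : Tri phi G r e mu) (hF1 : F1S) (hD : DD phi G) {et : Eis} (he : Et et)
    {k0 k1 : (RO Eis)ˣ} (hk0 : (k0 : RO Eis) = LaurentPolynomial.C et * bcR (e 0 : RO ℤ))
    (hk1 : (k1 : RO Eis) = LaurentPolynomial.C et * bcR (e 1 : RO ℤ)) {i0 i1 : P}
    (h0 : phi (r 0) i0 = 1) (h1 : phi (r 1) i1 = 1) {a : L} (ha0 : phi a i0 = 0)
    (ha1 : phi a i1 = 0) :
    bcR (G.coeff a) + (k0 : RO Eis) * bcR (G.coeff (a + r 0)) +
      (k1 : RO Eis) * bcR (G.coeff (a + r 1)) +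
      (k1 : RO Eis) * (k0 : RO Eis) * bcR (G.coeff (a + r 1 + r 0)) =
    ((k0 ^ (mu 1 a) * k1 ^ (-mu 0 a) : (RO Eis)ˣ) : RO Eis) * fF et G r e (lamP r mu a) := by
  have hI := hD.inj
  have hb := hD.bin
  have hsq := et_sq he
  have a00 : mu 0 (r 0) = 0 := h.slf 0
  have a01 : mu 0 (r 1) = 1 := h.nxt 0
  have a02 : mu 0 (r 2) = -1 := h.prv 0
  have a10 : mu 1 (r 0) = -1 := h.prv' 0
  have a11 : mu 1 (r 1) = 0 := h.slf 1
  have a12 : mu 1 (r 2) = 1 := h.nxt 1
  have hm1 : ∀ y : L, y - X3 r = y + (-1 : ℤ) • X3 r := fun y => by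
    rw [neg_smul, one_smul, sub_eq_add_neg]
  by_cases c1 : Fr phi r mu a
  · -- `a` free
    have l0 : lamP r mu a = a := by
      unfold lamP
      rw [c1.2, c1.2, zero_smul, zero_smul, add_zero, sub_zero]
    have z : bB G r e (a - X3 r) = 0 := by rw [hm1]; exact h.bz hF1 hD c1 (by norm_num)
    have r1 : rR G r e a = G.coeff a := by unfold rR; rw [z]; ring
    have r2 : rI G r e a = bB G r e a := by unfold rI; rw [z]; ring
    have s1 := h.all_eq hF1 hI hb c1 1 0
    have s2 := h.pair hF1 hI hb c1 (i := 1) (j := 0) (by decide) 0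
    have b0 : bcR (e 0 : RO ℤ) * bcR (G.coeff (a + r 0)) = bcR (bB G r e a) := by
      rw [← map_mul]; rfl
    have b1 : bcR (e 1 : RO ℤ) * bcR (G.coeff (a + r 1)) = bcR (bB G r e a) := by
      rw [← map_mul, s1]; rfl
    have b2 : bcR (e 1 : RO ℤ) * bcR (e 0 : RO ℤ) * bcR (G.coeff (a + r 1 + r 0)) =
        -bcR (bB G r e a) := by
      rw [← map_mul, ← map_mul, s2, map_neg]; rfl
    rw [l0, c1.2, c1.2, neg_zero, zpow_zero, zpow_zero, mul_one, Units.val_one, one_mul]
    unfold fF
    rw [r1, r2, hk0, hk1]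
    linear_combination (LaurentPolynomial.C et) * b0 + (LaurentPolynomial.C et) * b1 +
      (LaurentPolynomial.C et * LaurentPolynomial.C et) * b2 - bcR (bB G r e a) * hsq
  by_cases c2 : Fr phi r mu (a - r 2)
  · -- `a = u + r 2`
    obtain ⟨u, hau⟩ : ∃ u, a = u + r 2 := ⟨a - r 2, by abel⟩
    have hu : Fr phi r mu u := by
      rw [hau, add_sub_cancel_right] at c2; exact c2
    have m0 : mu 0 a = -1 := by rw [hau, map_add, hu.2, a02]; norm_num
    have m1 : mu 1 a = 1 := by rw [hau, map_add, hu.2, a12]; norm_num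
    have l0 : lamP r mu a = u + X3 r := by
      unfold lamP X3
      rw [m0, m1, hau, one_smul, neg_smul, one_smul]
      abel
    have z : bB G r e (u + X3 r) = 0 := by
      have := h.bz hF1 hD hu (n := 1) (by norm_num)
      rwa [one_smul] at this
    have r1 : rR G r e (u + X3 r) = G.coeff (u + X3 r) - 3 * ((eI e : RO ℤ) * bB G r e u) := by
      unfold rR; rw [add_sub_cancel_right]
    have r2 : rI G r e (u + X3 r) = (eI e : RO ℤ) * bB G r e u := by
      unfold rI; rw [z, add_sub_cancel_right]; ring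
    have s0 := h.all_eq hF1 hI hb hu 2 0
    have s1 := h.pair hF1 hI hb hu (i := 2) (j := 0) (by decide) 0
    have s2 := h.pair hF1 hI hb hu (i := 2) (j := 1) (by decide) 0
    have b0 : bcR (e 2 : RO ℤ) * bcR (G.coeff a) = bcR (bB G r e u) := by
      rw [hau, ← map_mul, s0]; rfl
    have b1 : bcR (e 2 : RO ℤ) * bcR (e 0 : RO ℤ) * bcR (G.coeff (a + r 0)) =
        -bcR (bB G r e u) := by
      rw [hau, ← map_mul, ← map_mul, s1, map_neg]; rfl
    have b2 : bcR (e 2 : RO ℤ) * bcR (e 1 : RO ℤ) * bcR (G.coeff (a + r 1)) =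
        -bcR (bB G r e u) := by
      rw [hau, ← map_mul, ← map_mul, s2, map_neg]; rfl
    have eX : a + r 1 + r 0 = u + X3 r := by rw [hau]; unfold X3; abel
    have b3 : bcR (eI e : RO ℤ) * (bcR (e 0 : RO ℤ) * bcR (e 1 : RO ℤ) * bcR (e 2 : RO ℤ)) = 1 := by
      rw [← map_mul, ← map_mul, ← map_mul, eI_mul, map_one]
    have hne : bcR (e 2 : RO ℤ) ≠ 0 := by
      intro h9
      exact (e 2).ne_zero (bcR_inj (h9.trans (map_zero _).symm))
    rw [l0, m0, m1, neg_neg, zpow_one, zpow_one, Units.val_mul, eX]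
    unfold fF
    rw [r1, r2, map_sub, map_mul, map_mul, map_ofNat, hk0, hk1]
    apply mul_left_cancel₀ hne
    linear_combination b0 + (LaurentPolynomial.C et) * b1 + (LaurentPolynomial.C et) * b2 +
      (LaurentPolynomial.C et * LaurentPolynomial.C et) * (2 - LaurentPolynomial.C et) *
        bcR (bB G r e u) * b3 +
      bcR (bB G r e u) * (1 - LaurentPolynomial.C et) * hsq
  -- at most one member
  obtain ⟨s, hs⟩ : ∃ s, s = mu 1 a := ⟨_, rfl⟩
  obtain ⟨t, ht⟩ : ∃ t, t = -mu 0 a := ⟨_, rfl⟩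
  have l0 : lamP r mu a = a + s • r 0 + t • r 1 := by
    unfold lamP
    rw [hs, ht, neg_smul, sub_eq_add_neg]
  have hmz : ∀ i, mu i (a + s • r 0 + t • r 1) = 0 := by rw [← l0]; exact h.lamP_mu a
  have hz : ∀ s' t' : ℤ, G.coeff (a + s' • r 0 + t' • r 1) ≠ 0 → s' = s ∧ t' = t := by
    intro s' t' hst
    have k : ∀ i, mu i (a + s' • r 0 + t' • r 1) = 0 := by
      by_contra hcon
      push Not at hcon
      rcases h.cls hF1 hI hb h0 h1 ha0 ha1 hst hcon with h2 | h2
      · exact c1 h2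
      · exact c2 h2
    exact h.uniq k hmz
  have d01 : phi (r 1) i0 = 0 := (h.dis 0 1 (by decide) i0).resolve_left (by rw [h0]; norm_num)
  have d10 : phi (r 0) i1 = 0 := (h.dis 0 1 (by decide) i1).resolve_right (by rw [h1]; norm_num)
  have q0 : phi (a + s • r 0 + t • r 1) i0 = s := by
    simp only [map_add, map_zsmul, Pi.add_apply, Pi.smul_apply, ha0, h0, d01, smul_eq_mul]
    ring
  have q1 : phi (a + s • r 0 + t • r 1) i1 = t := by
    simp only [map_add, map_zsmul, Pi.add_apply, Pi.smul_apply, ha1, h1, d10, smul_eq_mul]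
    ring
  have z1 : bB G r e (a + s • r 0 + t • r 1) = 0 := by
    by_contra hne
    have k := h.bfr hF1 hD hmz hne
    have k0 := (k.1 0 i0).resolve_right (by rw [h0]; norm_num)
    have k1 := (k.1 1 i1).resolve_right (by rw [h1]; norm_num)
    rw [q0] at k0
    rw [q1] at k1
    rw [k0, k1, zero_smul, zero_smul, add_zero, add_zero] at k
    exact c1 k
  have z2 : bB G r e (a + s • r 0 + t • r 1 - X3 r) = 0 := by
    by_contra hne
    have k := h.bfr hF1 hD (fun i => by rw [map_sub, hmz, h.mX, sub_zero]) hne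
    have k0 := (k.1 0 i0).resolve_right (by rw [h0]; norm_num)
    have k1 := (k.1 1 i1).resolve_right (by rw [h1]; norm_num)
    rw [map_sub, Pi.sub_apply, q0, h.pX 0 h0, sub_eq_zero] at k0
    rw [map_sub, Pi.sub_apply, q1, h.pX 1 h1, sub_eq_zero] at k1
    rw [k0, k1, one_smul, one_smul] at k
    have e1 : a + r 0 + r 1 - X3 r = a - r 2 := by unfold X3; abel
    rw [e1] at k
    exact c2 k
  have hf : fF et G r e (lamP r mu a) = bcR (G.coeff (a + s • r 0 + t • r 1)) := by
    rw [l0]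
    unfold fF
    have r1 : rR G r e (a + s • r 0 + t • r 1) = G.coeff (a + s • r 0 + t • r 1) := by
      unfold rR; rw [z2]; ring
    have r2 : rI G r e (a + s • r 0 + t • r 1) = 0 := by
      unfold rI; rw [z1, z2]; ring
    rw [r1, r2, map_zero, mul_zero, add_zero]
  rw [hf, ← hs, ← ht]
  have e00 : a = a + (0 : ℤ) • r 0 + (0 : ℤ) • r 1 := by simp
  have e10 : a + r 0 = a + (1 : ℤ) • r 0 + (0 : ℤ) • r 1 := by simp
  have e01 : a + r 1 = a + (0 : ℤ) • r 0 + (1 : ℤ) • r 1 := by simp
  have e11 : a + r 1 + r 0 = a + (1 : ℤ) • r 0 + (1 : ℤ) • r 1 := by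
    rw [one_smul, one_smul]; abel
  have w00 : (s ≠ 0 ∨ t ≠ 0) → G.coeff a = 0 := by
    intro hst
    by_contra hne
    rw [e00] at hne
    have := hz 0 0 hne
    omega
  have w10 : (s ≠ 1 ∨ t ≠ 0) → G.coeff (a + r 0) = 0 := by
    intro hst
    by_contra hne
    rw [e10] at hne
    have := hz 1 0 hne
    omega
  have w01 : (s ≠ 0 ∨ t ≠ 1) → G.coeff (a + r 1) = 0 := by
    intro hst
    by_contra hne
    rw [e01] at hne
    have := hz 0 1 hne
    omega
  have w11 : (s ≠ 1 ∨ t ≠ 1) → G.coeff (a + r 1 + r 0) = 0 := by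
    intro hst
    by_contra hne
    rw [e11] at hne
    have := hz 1 1 hne
    omega
  by_cases cs : s = 0
  · rw [w10 (by omega), w11 (by omega), cs]
    by_cases ct : t = 0
    · rw [w01 (by omega), ct]
      simp
    · rw [w00 (by omega)]
      by_cases ct' : t = 1
      · rw [ct']; simp
      · rw [w01 (by omega)]
        have : G.coeff (a + (0 : ℤ) • r 0 + t • r 1) = 0 := by
          by_contra hne
          rw [← cs] at hne
          have k := hD.bin _ hne i1
          rw [q1] at k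
          omega
        rw [this]; simp
  · rw [w00 (by omega), w01 (by omega)]
    by_cases cs' : s = 1
    · rw [cs']
      by_cases ct : t = 0
      · rw [w11 (by omega), ct]
        simp
      · rw [w10 (by omega)]
        by_cases ct' : t = 1
        · rw [ct', e11]; simp only [map_zero, mul_zero, add_zero, zero_add, zpow_one,
            Units.val_mul]
          ring
        · rw [w11 (by omega)]
          have : G.coeff (a + (1 : ℤ) • r 0 + t • r 1) = 0 := by
            by_contra hne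
            rw [← cs'] at hne
            have k := hD.bin _ hne i1
            rw [q1] at k
            omega
          rw [this]; simp
    · rw [w10 (by omega), w11 (by omega)]
      have : G.coeff (a + s • r 0 + t • r 1) = 0 := by
        by_contra hne
        have k := hD.bin _ hne i0
        rw [q0] at k
        omega
      rw [this]; simp

end Tri

end

end Pool.Agent.B5.KO.H71
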