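import Pool.Agent.Lib.MP_b5021c_nt.KO.H71.Sf4
import Pool.Agent.Lib.MP_b5021c_nt.B.H71.Com

/-!
# MP_b5021c_nt, all `θ`, K odd, leaf O4, `l = 3`, row SF: a small factor of the second closing at
`e^(i pi/3)` of a closed triple: TERMINAL (the wrapper)
-/

set_option linter.unusedSectionVars false

namespace Pool.Agent.B5.KO.H71

open scoped LaurentPolynomial
open AddMonoidAlgebra (single)
open Pool.Agent.B5.BPR Pool.Agent.B5.BP12
open Pool.Agent.MP_b5021c_nt (Eis)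
open Pool.Agent.MP_b5021c_nt.Ire (bc)
open Pool.Agent.B5.H25.Bch
open Pool.Agent.B5.BP90 (Et)

section

variable {O : Type} [CommRing O] [IsDomain O] [IsPrincipalIdealRing O] [Coef O] {P : Type}
  [Fintype P] [DecidableEq P] {L : Type} [AddCommGroup L] [Module.Free ℤ L] [Module.Finite ℤ L]

/-- A small factor: the coefficients with and without the port `j`. -/
theorem spt_shift {phi : L →+ (P → ℤ)} {S : L} {i0 : P} {n : ℕ}
    {G : Fin n → AO O (Ker (co phi i0))} {l : Fin n} {b : Ker (co phi i0)} {j : P} {e : (RO O)ˣ}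
    (sp : Spt phi S i0 G l b j e) {c : RO O} {V : AO O (Ker (co phi i0))}
    (hV : V = cst c * ∏ i, G i) {a : Ker (co phi i0)} (ha : phi (a : L) j = 0) :
    V.coeff (a + b) = -((e⁻¹ : (RO O)ˣ) : RO O) * V.coeff a := by
  classical
  obtain ⟨k, hk⟩ : ∃ k : Ker (co phi i0) →+ ℤ, k = (co phi j).comp (incl (Ker (co phi i0))) :=
    ⟨_, rfl⟩
  have hkv : ∀ x : Ker (co phi i0), k x = phi (x : L) j := fun x => by rw [hk]; rfl
  obtain ⟨F, hF⟩ : ∃ F : AO O (Ker (co phi i0)),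
      F = cst c * (cst ((G l).coeff 0) * ∏ i ∈ Finset.univ.erase l, G i) := ⟨_, rfl⟩
  have hVF : V = F * (1 - single b ((e⁻¹ : (RO O)ˣ) : RO O)) := by
    rw [hV, hF, ← Finset.mul_prod_erase Finset.univ G (Finset.mem_univ l), sp.eq]
    conv_rhs => rw [← sp.eq]
    ring
  have hem : F = H71.em (Ker k) (cst c * (cst ((G l).coeff 0) *
      ∏ i ∈ Finset.univ.erase l, res (Ker k) (G i))) := by
    rw [map_mul, map_mul, H71.em_cst, H71.em_cst, map_prod, hF]
    congr 2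
    refine Finset.prod_congr rfl fun i hi => (H71.em_res (Ker k) (G i) fun x hx => ?_).symm
    change k x = 0
    rw [hkv]
    exact sp.other i (Finset.ne_of_mem_erase hi) x hx
  have hz : ∀ x : Ker (co phi i0), phi (x : L) j ≠ 0 → F.coeff x = 0 := by
    intro x hx
    rw [hem]
    refine H71.em_coeff_not (Ker k) _ x fun h1 => hx ?_
    have h2 : k x = 0 := h1
    rwa [hkv] at h2
  have hco : ∀ x, V.coeff x = F.coeff x - F.coeff (x - b) * ((e⁻¹ : (RO O)ˣ) : RO O) := by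
    intro x
    rw [hVF, mul_sub, mul_one, AddMonoidAlgebra.coeff_sub, Finsupp.sub_apply, mul_single_co]
  have h1 : phi ((a + b : Ker (co phi i0)) : L) j = 1 := by
    rw [Submodule.coe_add, map_add, Pi.add_apply, ha, sp.bj, zero_add]
  have h2 : phi ((a - b : Ker (co phi i0)) : L) j = -1 := by
    have : ((a - b : Ker (co phi i0)) : L) = (a : L) - (b : L) := rfl
    rw [this, map_sub, Pi.sub_apply, ha, sp.bj, zero_sub]
  rw [hco, hco, hz (a + b) (by rw [h1]; norm_num), hz (a - b) (by rw [h2]; norm_num),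
    add_sub_cancel_right]
  ring

end

section

variable {P : Type} [Fintype P] [DecidableEq P] {L : Type} [AddCommGroup L] [Module.Free ℤ L]
  [Module.Finite ℤ L] {phi : L →+ (P → ℤ)} {G : AO ℤ L} {r : ZMod 3 → L} {e : ZMod 3 → (RO ℤ)ˣ}
  {mu : ZMod 3 → L →+ ℤ}

theorem cg {M : Type} [CommGroup M] (A B C D E : M) :
    (A * B * (C * D⁻¹)) * (E * (B⁻¹ * D)) = E * (A * C) := by
  calc _ = E * (A * C) * (B * B⁻¹) * (D⁻¹ * D) := by ac_rfl
    _ = _ := by rw [mul_inv_cancel, inv_mul_cancel, mul_one, mul_one]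

/-- The six units are `± 1`, `± et`, `± (et - 1)`. -/
theorem unit_et {et : Eis} (he : Et et) (s : Eisˣ) : ∃ x : ℤ, (x = 1 ∨ x = -1) ∧
    ((s : Eis) = (x : Eis) ∨ (s : Eis) = (x : Eis) * et ∨ (s : Eis) = (x : Eis) * (et - 1)) := by
  have ext : ∀ u v : Eis, u.re = v.re → u.im = v.im → u = v := fun u v h1 h2 =>
    QuadraticAlgebra.ext h1 h2
  have hm : ∀ x : ℤ, ∀ v : Eis, ((x : Eis) * v).re = x * v.re ∧ ((x : Eis) * v).im = x * v.im := by
    intro x v
    constructor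
    · simp
    · simp
  have o1 : (1 : Eis).re = 1 := QuadraticAlgebra.re_one
  have o2 : (1 : Eis).im = 0 := QuadraticAlgebra.im_one
  have i1 : ∀ x : ℤ, (x : Eis).re = x := fun x => QuadraticAlgebra.re_intCast x
  have i2 : ∀ x : ℤ, (x : Eis).im = 0 := fun x => QuadraticAlgebra.im_intCast x
  have key : ∀ x : ℤ, (x = 1 ∨ x = -1) →
      ((s : Eis).re = x ∧ (s : Eis).im = 0) ∨ ((s : Eis).re = x * et.re ∧ (s : Eis).im = x * et.im) ∨
        ((s : Eis).re = x * (et.re - 1) ∧ (s : Eis).im = x * et.im) →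
      ∃ x : ℤ, (x = 1 ∨ x = -1) ∧
        ((s : Eis) = (x : Eis) ∨ (s : Eis) = (x : Eis) * et ∨ (s : Eis) = (x : Eis) * (et - 1)) := by
    rintro x hx (⟨h1, h2⟩ | ⟨h1, h2⟩ | ⟨h1, h2⟩)
    · exact ⟨x, hx, Or.inl (ext _ _ (by rw [h1, i1]) (by rw [h2, i2]))⟩
    · exact ⟨x, hx, Or.inr (Or.inl (ext _ _ (by rw [h1, (hm _ _).1]) (by rw [h2, (hm _ _).2])))⟩
    · refine ⟨x, hx, Or.inr (Or.inr (ext _ _ ?_ ?_))⟩
      · rw [h1, (hm _ _).1, QuadraticAlgebra.re_sub, o1]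
      · rw [h2, (hm _ _).2, QuadraticAlgebra.im_sub, o2, sub_zero]
  rcases KO57.et_cases he with ⟨h1, h2⟩ | ⟨h1, h2⟩ <;>
    rcases KO57.unit_cases s with ⟨h3, h4⟩ | ⟨h3, h4⟩ | ⟨h3, h4⟩ | ⟨h3, h4⟩ | ⟨h3, h4⟩ | ⟨h3, h4⟩ <;>
    first
    | (refine key 1 (Or.inl rfl) ?_; rw [h1, h2, h3, h4]; norm_num; done)
    | (refine key (-1) (Or.inr rfl) ?_; rw [h1, h2, h3, h4]; norm_num)

/-- The units of `RO Eis`. -/
theorem unit_dec (hUR : UnitRS) {et : Eis} (he : Et et) (u : (RO Eis)ˣ) : ∃ ta : (RO ℤ)ˣ,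
    (u : RO Eis) = bcR (ta : RO ℤ) ∨ (u : RO Eis) = bcR (ta : RO ℤ) * LaurentPolynomial.C et ∨
      (u : RO Eis) = bcR (ta : RO ℤ) * (LaurentPolynomial.C et - 1) := by
  obtain ⟨n, s, hs, hu⟩ := (hUR Eis _).mp u.isUnit
  obtain ⟨x, hx, h1⟩ := unit_et he hs.unit
  have hxu : IsUnit (LaurentPolynomial.C x * LaurentPolynomial.T n : RO ℤ) := by
    refine IsUnit.mul ?_ (LaurentPolynomial.isUnit_T n)
    refine IsUnit.map LaurentPolynomial.C ?_
    rcases hx with rfl | rfl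
    · exact isUnit_one
    · exact isUnit_one.neg
  refine ⟨hxu.unit, ?_⟩
  have hb : bcR ((hxu.unit : (RO ℤ)ˣ) : RO ℤ) =
      LaurentPolynomial.C (x : Eis) * LaurentPolynomial.T n := by
    rw [IsUnit.unit_spec, map_mul, bcR_C, bcR_T]
  rw [hb, hu]
  rw [IsUnit.unit_spec] at h1
  rcases h1 with h1 | h1 | h1
  · left; rw [h1]
  · right; left; rw [h1, map_mul]; ring
  · right; right; rw [h1, map_mul, map_sub, map_one]; ring

/-- The relations of a small factor. -/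
theorem rel_of {et : Eis} (he : Et et) {u : (RO Eis)ˣ} {ta : (RO ℤ)ˣ}
    {R I R' I' : RO ℤ} (hF : bcR R' + (1 + LaurentPolynomial.C et) * bcR I' =
      (u : RO Eis) * (bcR R + (1 + LaurentPolynomial.C et) * bcR I)) :
    ((u : RO Eis) = bcR (ta : RO ℤ) → R' = (ta : RO ℤ) * R ∧ I' = (ta : RO ℤ) * I) ∧
    ((u : RO Eis) = bcR (ta : RO ℤ) * LaurentPolynomial.C et →
      R' = (ta : RO ℤ) * (((-1 : ℤ) : RO ℤ) * R + ((-3 : ℤ) : RO ℤ) * I) ∧
        I' = (ta : RO ℤ) * (R + ((2 : ℤ) : RO ℤ) * I)) ∧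
    ((u : RO Eis) = bcR (ta : RO ℤ) * (LaurentPolynomial.C et - 1) →
      R' = (ta : RO ℤ) * (((-2 : ℤ) : RO ℤ) * R + ((-3 : ℤ) : RO ℤ) * I) ∧
        I' = (ta : RO ℤ) * (R + ((1 : ℤ) : RO ℤ) * I)) := by
  have hsq := et_sq he
  refine ⟨fun hu => ?_, fun hu => ?_, fun hu => ?_⟩
  · rw [hu] at hF
    obtain ⟨h1, h2⟩ := et_lin he (x := R' + I' - (ta : RO ℤ) * (R + I))
      (y := I' - (ta : RO ℤ) * I) (by
        simp only [map_sub, map_add, map_mul]
        linear_combination hF)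
    exact ⟨by linear_combination h1 - h2, by linear_combination h2⟩
  · rw [hu] at hF
    obtain ⟨h1, h2⟩ := et_lin he (x := R' + I' + (ta : RO ℤ) * I)
      (y := I' - (ta : RO ℤ) * (R + 2 * I)) (by
        simp only [map_sub, map_add, map_mul, map_ofNat]
        linear_combination hF + bcR (ta : RO ℤ) * bcR I * hsq)
    push_cast
    exact ⟨by linear_combination h1 - h2, by linear_combination h2⟩
  · rw [hu] at hF
    obtain ⟨h1, h2⟩ := et_lin he (x := R' + I' + (ta : RO ℤ) * (R + 2 * I))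
      (y := I' - (ta : RO ℤ) * (R + I)) (by
        simp only [map_sub, map_add, map_mul, map_ofNat]
        linear_combination hF + bcR (ta : RO ℤ) * bcR I * hsq)
    push_cast
    exact ⟨by linear_combination h1 - h2, by linear_combination h2⟩

/-- (SF) A SMALL FACTOR OF THE SECOND CLOSING AT `e^(i pi/3)` OF A CLOSED TRIPLE: TERMINAL. The
first closing may have a content. -/
theorem Tri.sfc (h : Tri phi G r e mu) (hF1 : F1S) (hU : UnitAS) (hUR : UnitRS) (hRk : RkS)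
    (hSm : SmallS) (hD : DD phi G) (h5 : 5 ≤ Module.finrank ℤ L) (hr0 : r 0 ∈ supp G)
    (hr1 : r 1 ∈ supp G) {et : Eis} (he : Et et) {k0 k1 : (RO Eis)ˣ}
    (hk0 : (k0 : RO Eis) = LaurentPolynomial.C et * bcR (e 0 : RO ℤ))
    (hk1 : (k1 : RO Eis) = LaurentPolynomial.C et * bcR (e 1 : RO ℤ)) {i0 i1 : P}
    {h0 : co phi i0 (r 0) = 1} {R1' : Ker (co phi i0)} (hR1 : (R1' : L) = r 1)
    {h1 : co (phO phi (r 0) i0) i1 R1' = 1} {c0 : RO Eis}
    {H : AO Eis (Ker (co phi i0))} (hH : cl (co phi i0) (r 0) h0 k0 (bc G) = cst c0 * H)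
    {c : RO Eis} {n : ℕ}
    {F : Fin n → AO Eis (Ker (co (phO phi (r 0) i0) i1))}
    (fd : FD (phO phi (r 0) i0) H R1' i1 k1 h1 c n F) :
    TerC phi G r e mu ∨ snp (phO phi (r 0) i0) R1' i1 F = ∅ := by
  classical
  by_cases hs : snp (phO phi (r 0) i0) R1' i1 F = ∅
  · exact Or.inr hs
  left
  obtain ⟨l, hl⟩ := Finset.nonempty_of_ne_empty hs
  have hl' : ¬ 1 < M ((F l).coeff 0) ∧ ¬ Pure (phO phi (r 0) i0) R1' i1 (F l) := by
    simpa [snp] using hl
  obtain ⟨b, j, e', sp⟩ := (hSm Eis P _ _ _ R1' i1 k1 h1 c n F fd l hl'.1).2.2 hl'.2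
  -- the ports
  have hph : ∀ (x : Ker (co phi i0)) (q : P), (phO phi (r 0) i0) x q =
      if phi (r 0) q = 0 then phi (x : L) q else 0 := fun x q => rfl
  have p0 : phi (r 0) i0 = 1 := h0
  have h1' : (if phi (r 0) i1 = 0 then phi (R1' : L) i1 else 0) = 1 := h1
  have q01 : phi (r 0) i1 = 0 := by
    by_contra hne
    rw [if_neg hne] at h1'
    exact absurd h1' (by norm_num)
  have p1 : phi (r 1) i1 = 1 := by rwa [if_pos q01, hR1] at h1'
  have hbj := sp.bj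
  rw [hph] at hbj
  have hj0 : phi (r 0) j = 0 := by
    by_contra hne
    rw [if_neg hne] at hbj
    exact absurd hbj (by norm_num)
  rw [if_pos hj0] at hbj
  have hj1 : phi (r 1) j = 0 := by
    have h2 := sp.jO
    unfold OO at h2
    rw [Finset.mem_filter] at h2
    have h3 := h2.2
    rwa [hph, if_pos hj0, hR1] at h3
  -- the coefficients
  have hbinH : ∀ a ∈ supp (cl (co phi i0) (r 0) h0 k0 (bc G)), Bin (phO phi (r 0) i0) a :=
    fun a ha => fd.cc.dd.bin a (by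
      change (cl (co phi i0) (r 0) h0 k0 (bc G)).coeff a ≠ 0 at ha
      rw [hH, H71.cst_mul_coeff] at ha
      exact right_ne_zero_of_mul ha)
  obtain ⟨V, hV⟩ : ∃ V, V = cl (co (phO phi (r 0) i0) i1) R1' h1 k1
    (cl (co phi i0) (r 0) h0 k0 (bc G)) := ⟨_, rfl⟩
  have hVf : V = cst (c0 * c) * ∏ i, F i := by
    rw [hV, hH, map_mul, H71.cl_cst, fd.eq, H71.cst_mul, mul_assoc]
  have hco : ∀ x : Ker (co (phO phi (r 0) i0) i1), V.coeff x =
      ((k0 ^ (mu 1 ((x : Ker (co phi i0)) : L)) * k1 ^ (-mu 0 ((x : Ker (co phi i0)) : L)) :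
        (RO Eis)ˣ) : RO Eis) * fF et G r e (lamP r mu ((x : Ker (co phi i0)) : L)) := by
    intro x
    have x0 : phi ((x : Ker (co phi i0)) : L) i0 = 0 := (x : Ker (co phi i0)).2
    have x1 : phi ((x : Ker (co phi i0)) : L) i1 = 0 := by
      have h2 : (phO phi (r 0) i0) (x : Ker (co phi i0)) i1 = 0 := x.2
      rwa [hph, if_pos q01] at h2
    rw [hV, dco hD.bin hR1 hbinH x]
    exact h.n6 hF1 hD he hk0 hk1 p0 p1 x0 x1
  -- the shift
  obtain ⟨bb, hbb⟩ : ∃ bb : L, bb = ((b : Ker (co phi i0)) : L) := ⟨_, rfl⟩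
  obtain ⟨be, hbe⟩ : ∃ be : L, be = lamP r mu bb := ⟨_, rfl⟩
  have hbm : ∀ i, mu i be = 0 := by rw [hbe]; exact h.lamP_mu bb
  have hbej : phi be j = 1 := by
    rw [hbe]
    unfold lamP
    simp only [map_add, map_sub, map_zsmul, Pi.add_apply, Pi.sub_apply, Pi.smul_apply, hj0, hj1,
      smul_zero, add_zero, sub_zero]
    rw [hbb]; exact hbj
  obtain ⟨u, hu⟩ : ∃ u : (RO Eis)ˣ, u = -(e'⁻¹ * (k0 ^ (-mu 1 bb) * k1 ^ (mu 0 bb))) := ⟨_, rfl⟩
  have d01 : phi (r 1) i0 = 0 := (h.dis 0 1 (by decide) i0).resolve_left (by rw [p0]; norm_num)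
  have rel : ∀ y, (∀ i, mu i y = 0) → phi y j = 0 →
      fF et G r e (y + be) = (u : RO Eis) * fF et G r e y := by
    intro y hy hyj
    obtain ⟨a, ha⟩ : ∃ a : L, a = y - phi y i0 • r 0 - phi y i1 • r 1 := ⟨_, rfl⟩
    have a0 : phi a i0 = 0 := by
      rw [ha]
      simp only [map_sub, map_zsmul, Pi.sub_apply, Pi.smul_apply, p0, d01, smul_eq_mul]
      ring
    have a1 : phi a i1 = 0 := by
      rw [ha]
      simp only [map_sub, map_zsmul, Pi.sub_apply, Pi.smul_apply, p1, q01, smul_eq_mul]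
      ring
    have a2 : (phO phi (r 0) i0) ⟨a, a0⟩ i1 = 0 := by
      rw [hph, if_pos q01]; exact a1
    have m0 : mu 0 a = -phi y i1 := by
      have k0 : mu 0 (r 0) = 0 := h.slf 0
      have k1 : mu 0 (r 1) = 1 := h.nxt 0
      rw [ha]
      simp only [map_sub, map_zsmul, hy, k0, k1, smul_eq_mul]
      ring
    have m1 : mu 1 a = phi y i0 := by
      have k0 : mu 1 (r 0) = -1 := h.prv' 0
      have k1 : mu 1 (r 1) = 0 := h.slf 1
      rw [ha]
      simp only [map_sub, map_zsmul, hy, k0, k1, smul_eq_mul]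
      ring
    have hla : lamP r mu a = y := by
      unfold lamP
      rw [m0, m1, ha, neg_smul]
      abel
    have aj : phi a j = 0 := by
      rw [ha]
      simp only [map_sub, map_zsmul, Pi.sub_apply, Pi.smul_apply, hyj, hj0, hj1, smul_zero,
        sub_zero]
    obtain ⟨x, hx⟩ : ∃ x : Ker (co (phO phi (r 0) i0) i1), ((x : Ker (co phi i0)) : L) = a :=
      ⟨⟨⟨a, a0⟩, a2⟩, rfl⟩
    have hxj : (phO phi (r 0) i0) (x : Ker (co phi i0)) j = 0 := by
      rw [hph, if_pos hj0, hx]; exact aj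
    have k := spt_shift sp hVf hxj
    rw [hco, hco] at k
    have hxb : (((x + b : Ker (co (phO phi (r 0) i0) i1)) : Ker (co phi i0)) : L) = a + bb := by
      rw [← hx, hbb]; rfl
    rw [hxb, hx, lamP_add, hla, ← hbe, map_add, map_add] at k
    have hunit : (k0 ^ (mu 1 a + mu 1 bb) * k1 ^ (-(mu 0 a + mu 0 bb)) : (RO Eis)ˣ) * u =
        -(e'⁻¹ * (k0 ^ (mu 1 a) * k1 ^ (-mu 0 a))) := by
      rw [hu, neg_add, zpow_add, zpow_add, mul_neg, zpow_neg k0 (mu 1 bb), zpow_neg k1 (mu 0 bb)]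
      congr 1
      exact cg _ _ _ _ _
    have hunit' := congrArg (fun w : (RO Eis)ˣ => (w : RO Eis)) hunit
    simp only [Units.val_mul, Units.val_neg] at hunit'
    simp only [Units.val_mul] at k
    have hne : ((k0 ^ (mu 1 a + mu 1 bb) : (RO Eis)ˣ) : RO Eis) *
        ((k1 ^ (-(mu 0 a + mu 0 bb)) : (RO Eis)ˣ) : RO Eis) ≠ 0 :=
      mul_ne_zero (Units.ne_zero _) (Units.ne_zero _)
    apply mul_left_cancel₀ hne
    linear_combination k - fF et G r e y * hunit'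
  obtain ⟨ta, hta⟩ := unit_dec hUR he u
  have rel' := fun y hy hyj => rel_of he (ta := ta) (u := u) (rel y hy hyj)
  have hj012 : phi (r 2) j = 0 ∨ phi (r 2) j = 1 := h.bin 2 j
  have hjall : phi (r 2) j = 0 → ∀ i, phi (r i) j = 0 := by
    intro h2 i
    rcases z3v i with rfl | rfl | rfl
    · exact hj0
    · exact hj1
    · exact h2
  rcases hta with hu1 | hu1 | hu1
  · rcases hj012 with h2 | h2
    · exact (h.sf_ro hF1 hU hD hr0 hr1 hbm (hjall h2) hbej
        (fun y hy hyj => ((rel' y hy hyj).1 hu1).1)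
        (fun y hy hyj => ((rel' y hy hyj).1 hu1).2)).elim
    · exact h.sf_ri hF1 hD hr0 hbm h2 hbej
        (fun y hy hyj => ((rel' y hy hyj).1 hu1).1)
        (fun y hy hyj => ((rel' y hy hyj).1 hu1).2)
  · rcases hj012 with h2 | h2
    · exact h.sf_out hF1 hD hbm (hjall h2) hbej (by norm_num)
        (fun y hy hyj => ((rel' y hy hyj).2.1 hu1).1)
        (fun y hy hyj => ((rel' y hy hyj).2.1 hu1).2)
    · exact (h.sf_ni hF1 hU hRk hD h5 hr0 hr1 hbm h2 hbej (by norm_num)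
        (fun y hy hyj => ((rel' y hy hyj).2.1 hu1).1)
        (fun y hy hyj => ((rel' y hy hyj).2.1 hu1).2)).elim
  · rcases hj012 with h2 | h2
    · exact h.sf_out hF1 hD hbm (hjall h2) hbej (by norm_num)
        (fun y hy hyj => ((rel' y hy hyj).2.2 hu1).1)
        (fun y hy hyj => ((rel' y hy hyj).2.2 hu1).2)
    · exact (h.sf_ni hF1 hU hRk hD h5 hr0 hr1 hbm h2 hbej (by norm_num)
        (fun y hy hyj => ((rel' y hy hyj).2.2 hu1).1)
        (fun y hy hyj => ((rel' y hy hyj).2.2 hu1).2)).elim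

/-- (SF) without a content. -/
theorem Tri.sf (h : Tri phi G r e mu) (hF1 : F1S) (hU : UnitAS) (hUR : UnitRS) (hRk : RkS)
    (hSm : SmallS) (hD : DD phi G) (h5 : 5 ≤ Module.finrank ℤ L) (hr0 : r 0 ∈ supp G)
    (hr1 : r 1 ∈ supp G) {et : Eis} (he : Et et) {k0 k1 : (RO Eis)ˣ}
    (hk0 : (k0 : RO Eis) = LaurentPolynomial.C et * bcR (e 0 : RO ℤ))
    (hk1 : (k1 : RO Eis) = LaurentPolynomial.C et * bcR (e 1 : RO ℤ)) {i0 i1 : P}
    {h0 : co phi i0 (r 0) = 1} {R1' : Ker (co phi i0)} (hR1 : (R1' : L) = r 1)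
    {h1 : co (phO phi (r 0) i0) i1 R1' = 1} {c : RO Eis} {n : ℕ}
    {F : Fin n → AO Eis (Ker (co (phO phi (r 0) i0) i1))}
    (fd : FD (phO phi (r 0) i0) (cl (co phi i0) (r 0) h0 k0 (bc G)) R1' i1 k1 h1 c n F) :
    TerC phi G r e mu ∨ snp (phO phi (r 0) i0) R1' i1 F = ∅ :=
  h.sfc hF1 hU hUR hRk hSm hD h5 hr0 hr1 he hk0 hk1 hR1 (c0 := 1)
    (by rw [H71.cst_one, one_mul]) fd

end

end Pool.Agent.B5.KO.H71
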